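import Mathlib

/-! Linear substitutions in polynomials in three variables and the Nakayama argument. -/

open MvPolynomial

namespace Pool.Agent.Lib.MP_fdbf44_an

noncomputable section

/-- The linear substitution `p ↦ p ∘ M`: the variable `X i` is replaced by `∑ k, M i k * X k`. -/
def sb {R : Type*} [CommRing R] (M : Matrix (Fin 3) (Fin 3) R) :
    MvPolynomial (Fin 3) R →ₐ[R] MvPolynomial (Fin 3) R :=
  aeval (fun i => ∑ k, C (M i k) * X k)

section
variable {R S : Type*} [CommRing R] [CommRing S]

theorem sb_X (M : Matrix (Fin 3) (Fin 3) R) (i : Fin 3) : sb M (X i) = ∑ k, C (M i k) * X k := by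
  rw [sb, aeval_X]

theorem sb_C (M : Matrix (Fin 3) (Fin 3) R) (a : R) : sb M (C a) = C a := by
  rw [sb, ← algebraMap_eq, AlgHom.commutes]

theorem sb_map (f : R →+* S) (M : Matrix (Fin 3) (Fin 3) R) (p : MvPolynomial (Fin 3) R) :
    map f (sb M p) = sb (M.map f) (map f p) := by
  induction p using MvPolynomial.induction_on with
  | C a => rw [sb_C, map_C, sb_C]
  | add p q hp hq => rw [map_add, map_add, map_add, map_add, hp, hq]
  | mul_X p i hp =>
    rw [map_mul, map_mul, map_mul, map_mul, hp, sb_X, map_X, sb_X, map_sum]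
    congr 1
    exact Finset.sum_congr rfl fun k _ => by rw [map_mul, map_C, map_X, Matrix.map_apply]

theorem sb_one (p : MvPolynomial (Fin 3) R) : sb (1 : Matrix (Fin 3) (Fin 3) R) p = p := by
  induction p using MvPolynomial.induction_on with
  | C a => rw [sb_C]
  | add p q hp hq => rw [map_add, hp, hq]
  | mul_X p i hp =>
    rw [map_mul, hp, sb_X]
    congr 1
    rw [Finset.sum_eq_single i]
    · rw [Matrix.one_apply_eq, C_1, one_mul]
    · intro k _ hk
      rw [Matrix.one_apply_ne hk.symm, C_0, zero_mul]
    · intro h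
      exact absurd (Finset.mem_univ i) h

theorem sb_sb (M N : Matrix (Fin 3) (Fin 3) R) (p : MvPolynomial (Fin 3) R) :
    sb N (sb M p) = sb (M * N) p := by
  induction p using MvPolynomial.induction_on with
  | C a => rw [sb_C, sb_C, sb_C]
  | add p q hp hq => rw [map_add, map_add, map_add, hp, hq]
  | mul_X p i hp =>
    rw [map_mul, map_mul, map_mul, hp, sb_X, sb_X, map_sum]
    congr 1
    have h1 : ∀ k, sb N (C (M i k) * X k) = ∑ j, C (M i k * N k j) * X j := by
      intro k
      rw [map_mul, sb_C, sb_X, Finset.mul_sum]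
      refine Finset.sum_congr rfl fun j _ => ?_
      rw [map_mul, mul_assoc]
    rw [Finset.sum_congr rfl fun k _ => h1 k, Finset.sum_comm]
    refine Finset.sum_congr rfl fun j _ => ?_
    rw [Matrix.mul_apply, map_sum, Finset.sum_mul]

theorem sb_eval (M : Matrix (Fin 3) (Fin 3) R) (p : MvPolynomial (Fin 3) R) {A : Type*}
    [CommRing A] [Algebra R A] (x : Fin 3 → A) :
    aeval x (sb M p) = aeval (fun i => ∑ k, algebraMap R A (M i k) * x k) p := by
  induction p using MvPolynomial.induction_on with
  | C a => rw [sb_C, ← algebraMap_eq, AlgHom.commutes, AlgHom.commutes]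
  | add p q hp hq => rw [map_add, map_add, map_add, hp, hq]
  | mul_X p i hp =>
    rw [map_mul, map_mul, map_mul, hp, sb_X, aeval_X, map_sum]
    congr 1
    refine Finset.sum_congr rfl fun k _ => ?_
    rw [map_mul, aeval_X, ← algebraMap_eq, AlgHom.commutes]

theorem sb_hom (M : Matrix (Fin 3) (Fin 3) R) {p : MvPolynomial (Fin 3) R} {d : ℕ}
    (hp : p.IsHomogeneous d) : (sb M p).IsHomogeneous d := by
  have hg : ∀ i, (∑ k, C (M i k) * X k : MvPolynomial (Fin 3) R).IsHomogeneous 1 := by
    intro i
    refine IsHomogeneous.sum _ _ _ fun k _ => ?_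
    have h1 := (isHomogeneous_C (Fin 3) (M i k)).mul (isHomogeneous_X R k)
    rwa [zero_add] at h1
  have h := hp.aeval (fun i => ∑ k, C (M i k) * X k) hg
  rw [one_mul] at h
  exact h

theorem sb_comp (M : Matrix (Fin 3) (Fin 3) R) (p : MvPolynomial (Fin 3) R) (d : ℕ) :
    sb M (homogeneousComponent d p) = homogeneousComponent d (sb M p) := by
  have h1 : homogeneousComponent d (sb M p) =
      ∑ e ∈ Finset.range (p.totalDegree + 1),
        homogeneousComponent d (sb M (homogeneousComponent e p)) := by
    rw [← map_sum, ← map_sum, sum_homogeneousComponent]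
  rw [h1]
  have h2 : ∀ e ∈ Finset.range (p.totalDegree + 1),
      homogeneousComponent d (sb M (homogeneousComponent e p)) =
        if e = d then sb M (homogeneousComponent d p) else 0 := by
    intro e _
    rw [homogeneousComponent_of_mem (sb_hom M (homogeneousComponent_isHomogeneous e p))]
    by_cases hed : e = d
    · subst hed
      simp
    · rw [if_neg hed, if_neg (Ne.symm hed)]
  rw [Finset.sum_congr rfl h2, Finset.sum_ite_eq']
  by_cases hd : d ∈ Finset.range (p.totalDegree + 1)
  · rw [if_pos hd]
  · rw [if_neg hd]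
    rw [Finset.mem_range, not_lt] at hd
    rw [homogeneousComponent_eq_zero d p (by omega), map_zero]

theorem map_comp_aux (f : R →+* S) (p : MvPolynomial (Fin 3) R) (d : ℕ) :
    map f (homogeneousComponent d p) = homogeneousComponent d (map f p) := by
  ext m
  rw [coeff_map, coeff_homogeneousComponent, coeff_homogeneousComponent, coeff_map]
  split_ifs
  · rfl
  · rw [map_zero]

/-- The operator `q ↦ q + q ∘ M + q ∘ N`. -/
def Top (M N : Matrix (Fin 3) (Fin 3) R) (q : MvPolynomial (Fin 3) R) : MvPolynomial (Fin 3) R :=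
  q + sb M q + sb N q

theorem Top_map (f : R →+* S) (M N : Matrix (Fin 3) (Fin 3) R) (p : MvPolynomial (Fin 3) R) :
    map f (Top M N p) = Top (M.map f) (N.map f) (map f p) := by
  rw [Top, Top, map_add, map_add, sb_map, sb_map]

theorem Top_comp (M N : Matrix (Fin 3) (Fin 3) R) (p : MvPolynomial (Fin 3) R) (d : ℕ) :
    Top M N (homogeneousComponent d p) = homogeneousComponent d (Top M N p) := by
  rw [Top, Top, map_add, map_add, sb_comp, sb_comp]

/-- The Nakayama argument. -/
theorem alg_core {F V : Type*} [CommRing F] [AddCommGroup V] [Module R V] (φ : R →+* F)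
    (hφ : Function.Surjective φ) (M N : Matrix (Fin 3) (Fin 3) R)
    (Λ : MvPolynomial (Fin 3) R →ₗ[R] V) (hΛ : ∀ h, Λ (Top M N h) = 0)
    (hs : Function.Surjective (Top (M.map φ) (N.map φ))) (d : ℕ) :
    ∃ r : R, φ r = 1 ∧ ∀ m : Fin 3 →₀ ℕ, m.degree = d → r • Λ (monomial m 1) = 0 := by
  set g : (Fin 3 →₀ ℕ) → V := fun m => Λ (monomial m 1) with hg
  set s : Set (Fin 3 →₀ ℕ) := {m | m.degree = d} with hsd
  set W : Submodule R V := Submodule.span R (g '' s) with hW
  have hfin : s.Finite := Finsupp.finite_of_degree_eq d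
  have hfg : W.FG := Submodule.fg_span (hfin.image g)
  -- homogeneous polynomials with coefficients in the ideal
  have key : ∀ p : MvPolynomial (Fin 3) R, p.IsHomogeneous d → map φ p = 0 →
      Λ p ∈ RingHom.ker φ • W := by
    intro p hp h0
    rw [p.as_sum, map_sum]
    refine Submodule.sum_mem _ fun m hm => ?_
    have h1 : (monomial m (coeff m p) : MvPolynomial (Fin 3) R) =
        coeff m p • monomial m 1 := by
      rw [smul_monomial, smul_eq_mul, mul_one]
    rw [h1, map_smul]
    refine Submodule.smul_mem_smul ?_ (Submodule.subset_span ⟨m, ?_, rfl⟩)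
    · rw [RingHom.mem_ker, ← coeff_map, h0, coeff_zero]
    · rw [mem_support_iff] at hm
      have h2 := hp hm
      rw [hsd, Set.mem_ofPred_eq, Finsupp.degree_eq_weight_one]
      exact h2
  have hle : W ≤ RingHom.ker φ • W := by
    rw [hW, Submodule.span_le]
    rintro _ ⟨m, hm, rfl⟩
    obtain ⟨q, hq⟩ := hs (monomial m 1)
    obtain ⟨h, hh⟩ := map_surjective φ hφ q
    have hmh : (monomial m 1 : MvPolynomial (Fin 3) R).IsHomogeneous d :=
      isHomogeneous_monomial 1 hm
    have hmhF : (monomial m 1 : MvPolynomial (Fin 3) F).IsHomogeneous d :=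
      isHomogeneous_monomial 1 hm
    have h3 : map φ (Top M N (homogeneousComponent d h)) = monomial m 1 := by
      rw [Top_comp, map_comp_aux, Top_map, hh, hq, homogeneousComponent_eq_self hmhF]
    have h4 := key (monomial m 1 - Top M N (homogeneousComponent d h))
      (hmh.sub (by
        rw [Top_comp]
        exact homogeneousComponent_isHomogeneous d _)) (by
        rw [map_sub, h3, map_monomial, map_one, sub_self])
    rwa [map_sub, hΛ, sub_zero] at h4
  obtain ⟨r, hr, hrW⟩ := Submodule.exists_sub_one_mem_and_smul_eq_zero_of_fg_of_le_smul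
    (RingHom.ker φ) W hfg hle
  refine ⟨r, ?_, fun m hm => hrW _ (Submodule.subset_span ⟨m, hm, rfl⟩)⟩
  rw [RingHom.mem_ker, map_sub, map_one, sub_eq_zero] at hr
  exact hr

end

end

end Pool.Agent.Lib.MP_fdbf44_an
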