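import Pool.Agent.Lib.MP_fdbf44_an.Dens

/-! Linear isometries of `ℝ³` with a fixed axis; orbits on circles. -/

open MeasureTheory Metric Set Filter Topology

namespace Pool.Agent.Lib.MP_fdbf44_an

noncomputable section

theorem finrank_E3 : Module.finrank ℝ E3 = 3 := by simp

/-- a unit vector orthogonal to two given vectors -/
theorem exists_perp (a b : E3) : ∃ n : E3, ‖n‖ = 1 ∧ inner ℝ n a = 0 ∧ inner ℝ n b = 0 := by
  classical
  set K : Submodule ℝ E3 := Submodule.span ℝ ((({a, b} : Finset E3)) : Set E3) with hK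
  have h1 : Module.finrank ℝ K ≤ 2 := (finrank_span_finset_le_card _).trans Finset.card_le_two
  have h2 := Submodule.finrank_add_finrank_orthogonal K
  rw [finrank_E3] at h2
  have h3 : 0 < Module.finrank ℝ Kᗮ := by omega
  have : Nontrivial Kᗮ := Module.finrank_pos_iff.1 h3
  obtain ⟨v, hv⟩ := exists_ne (0 : Kᗮ)
  have hv0 : (v : E3) ≠ 0 := fun h => hv (Subtype.ext h)
  have ha : a ∈ K := Submodule.subset_span (by simp)
  have hb : b ∈ K := Submodule.subset_span (by simp)
  refine ⟨‖(v : E3)‖⁻¹ • (v : E3), ?_, ?_, ?_⟩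
  · rw [norm_smul, norm_inv, norm_norm, inv_mul_cancel₀ (norm_ne_zero_iff.2 hv0)]
  · rw [inner_smul_left, Submodule.inner_left_of_mem_orthogonal ha v.2, mul_zero]
  · rw [inner_smul_left, Submodule.inner_left_of_mem_orthogonal hb v.2, mul_zero]

/-- a linear isometry of `ℝ³` fixes a unit vector up to the sign -/
theorem exists_axis (τ : LI) : ∃ u : E3, ‖u‖ = 1 ∧ (τ u = u ∨ τ u = -u) := by
  obtain ⟨M, hM⟩ : ∃ M : Matrix (Fin 3) (Fin 3) ℝ, IsMat τ M := ⟨ent τ, fun i k => rfl⟩
  have h1 : M.transpose * M = 1 := ort (K := ℝ) hM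
  have hdet : M.det * M.det = 1 := by
    have h2 := congrArg Matrix.det h1
    rw [Matrix.det_mul, Matrix.det_transpose, Matrix.det_one] at h2
    exact h2
  have h3 : ∀ s : ℝ, s = 1 ∨ s = -1 → M.det = s → ∃ v : Fin 3 → ℝ, v ≠ 0 ∧ M.mulVec v = s • v := by
    intro s hs hd
    have hss : s * s = 1 := by rcases hs with h | h <;> rw [h] <;> norm_num
    have h4 : M.transpose * (M - s • 1) = (-s) • (M.transpose - s • (1 : Matrix (Fin 3) (Fin 3) ℝ)) := by
      rw [mul_sub, h1, Matrix.mul_smul, mul_one, smul_sub, smul_smul]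
      have h5 : -s * s = -1 := by rw [neg_mul, hss]
      rw [h5, neg_smul, neg_smul, one_smul]
      abel
    have h5 := congrArg Matrix.det h4
    have h6 : M.transpose - s • (1 : Matrix (Fin 3) (Fin 3) ℝ) = (M - s • 1).transpose := by
      rw [Matrix.transpose_sub, Matrix.transpose_smul, Matrix.transpose_one]
    rw [Matrix.det_mul, Matrix.det_transpose, h6, Matrix.det_smul, Matrix.det_transpose, hd,
      Fintype.card_fin] at h5
    have h7 : (-s) ^ 3 = -s := by
      have : (-s) ^ 3 = -(s * s * s) := by ring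
      rw [this, hss, one_mul]
    rw [h7] at h5
    have h8 : (M - s • (1 : Matrix (Fin 3) (Fin 3) ℝ)).det = 0 := by
      have h9 : s * (2 * (M - s • (1 : Matrix (Fin 3) (Fin 3) ℝ)).det) = 0 := by linarith
      have hs0 : s ≠ 0 := by
        rintro rfl
        norm_num at hss
      have := (mul_eq_zero.1 h9).resolve_left hs0
      linarith
    obtain ⟨v, hv0, hv⟩ := Matrix.exists_mulVec_eq_zero_iff.2 h8
    refine ⟨v, hv0, ?_⟩
    rw [Matrix.sub_mulVec, Matrix.smul_mulVec, Matrix.one_mulVec, sub_eq_zero] at hv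
    exact hv
  have h4 : ∃ s : ℝ, (s = 1 ∨ s = -1) ∧ M.det = s := ⟨M.det, mul_self_eq_one_iff.1 hdet, rfl⟩
  obtain ⟨s, hs, hd⟩ := h4
  obtain ⟨v, hv0, hv⟩ := h3 s hs hd
  set w : E3 := WithLp.toLp 2 v with hw
  have hw0 : w ≠ 0 := by
    intro h
    apply hv0
    have h5 := congrArg (fun z : E3 => z.ofLp) h
    exact h5
  have hτw : τ w = s • w := by
    ext i
    rw [hM.apply w i]
    have h5 := congrFun hv i
    rw [Matrix.mulVec, dotProduct] at h5
    exact h5
  refine ⟨‖w‖⁻¹ • w, ?_, ?_⟩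
  · rw [norm_smul, norm_inv, norm_norm, inv_mul_cancel₀ (norm_ne_zero_iff.2 hw0)]
  · rw [τ.map_smul, hτw]
    rcases hs with h | h
    · left
      rw [h, one_smul]
    · right
      rw [h, neg_smul, one_smul, smul_neg]

/-- powers of a point of the circle of infinite order are dense -/
theorem circle_dense (w : ℂ) (hw : ‖w‖ = 1) (h : ∀ n : ℕ, 0 < n → w ^ n ≠ 1) (v : ℂ) (hv : ‖v‖ = 1)
    (ε : ℝ) (hε : 0 < ε) : ∃ n : ℤ, ‖w ^ n - v‖ < ε := by
  have : Fact (0 < 2 * Real.pi) := ⟨Real.two_pi_pos⟩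
  let W : Circle := ⟨w, mem_sphere_zero_iff_norm.2 hw⟩
  let V : Circle := ⟨v, mem_sphere_zero_iff_norm.2 hv⟩
  have hT : 2 * Real.pi ≠ 0 := Real.two_pi_pos.ne'
  let e := AddCircle.homeomorphCircle hT
  let a : AddCircle (2 * Real.pi) := e.symm W
  let b : AddCircle (2 * Real.pi) := e.symm V
  have ha : AddCircle.toCircle a = W := by
    have h1 := e.apply_symm_apply W
    rwa [AddCircle.homeomorphCircle_apply] at h1
  have hb : AddCircle.toCircle b = V := by
    have h1 := e.apply_symm_apply V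
    rwa [AddCircle.homeomorphCircle_apply] at h1
  have hord : addOrderOf a = 0 := by
    rw [addOrderOf_eq_zero_iff']
    intro n hn hna
    apply h n hn
    have h1 := AddCircle.toCircle_nsmul a n
    rw [hna, AddCircle.toCircle_zero, ha] at h1
    have h2 := congrArg (fun z : Circle => (z : ℂ)) h1
    exact h2.symm
  have hd := AddCircle.denseRange_zsmul_iff.2 hord
  let f : AddCircle (2 * Real.pi) → ℂ := fun x => ((AddCircle.toCircle x : Circle) : ℂ)
  have hf : Continuous f := continuous_subtype_val.comp AddCircle.continuous_toCircle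
  have hopen : IsOpen {x : AddCircle (2 * Real.pi) | ‖f x - v‖ < ε} :=
    isOpen_lt (hf.sub continuous_const).norm continuous_const
  obtain ⟨n, hn⟩ := hd.exists_mem_open hopen ⟨b, by
    change ‖f b - v‖ < ε
    have h1 : f b = v := congrArg (fun z : Circle => (z : ℂ)) hb
    rw [h1, sub_self, norm_zero]
    exact hε⟩
  refine ⟨n, ?_⟩
  have h2 : f (n • a) = w ^ n := by
    change ((AddCircle.toCircle (n • a) : Circle) : ℂ) = w ^ n
    rw [AddCircle.toCircle_zsmul, ha]
    rfl
  have h3 : ‖f (n • a) - v‖ < ε := hn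
  rwa [h2] at h3

end

end Pool.Agent.Lib.MP_fdbf44_an
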