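import Pool.Agent.Lib.MP_fdbf44_an.Alg

/-! Sufficient conditions for the surjectivity of `q ↦ q + q ∘ M + q ∘ N`. -/

open MvPolynomial

namespace Pool.Agent.Lib.MP_fdbf44_an

noncomputable section

section ring
variable {F : Type*} [CommRing F]

/-- The right action of matrices on polynomials. -/
def act : Matrix (Fin 3) (Fin 3) F →* (Module.End F (MvPolynomial (Fin 3) F))ᵐᵒᵖ where
  toFun M := MulOpposite.op (sb M).toLinearMap
  map_one' := by
    exact congrArg MulOpposite.op (LinearMap.ext fun p => sb_one p)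
  map_mul' M N := by
    exact congrArg MulOpposite.op (LinearMap.ext fun p => (sb_sb M N p).symm)

/-- The element `1 + [M] + [N]` of the monoid ring of the matrices. -/
def tel (M N : Matrix (Fin 3) (Fin 3) F) : MonoidAlgebra F (Matrix (Fin 3) (Fin 3) F) :=
  1 + MonoidAlgebra.of F _ M + MonoidAlgebra.of F _ N

/-- If `1 + [M] + [N]` is a unit then `q ↦ q + q ∘ M + q ∘ N` is surjective. -/
theorem Top_surj_of_unit {M N : Matrix (Fin 3) (Fin 3) F} (h : IsUnit (tel M N)) :
    Function.Surjective (Top M N) := by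
  have h1 := h.map (MonoidAlgebra.lift F _ _ (act (F := F)))
  rw [tel, map_add, map_add, map_one, MonoidAlgebra.lift_of, MonoidAlgebra.lift_of] at h1
  obtain ⟨u, hu⟩ := h1
  intro q
  refine ⟨(MulOpposite.unop (↑u⁻¹ : (Module.End F (MvPolynomial (Fin 3) F))ᵐᵒᵖ)) q, ?_⟩
  have h2 : (↑u⁻¹ : (Module.End F (MvPolynomial (Fin 3) F))ᵐᵒᵖ) * ↑u = 1 := u.inv_mul
  have h3 := congrArg (fun x : (Module.End F (MvPolynomial (Fin 3) F))ᵐᵒᵖ =>
    (MulOpposite.unop x : Module.End F (MvPolynomial (Fin 3) F)) q) h2
  rw [hu] at h3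
  simp only [MulOpposite.unop_mul, MulOpposite.unop_add, MulOpposite.unop_one] at h3
  exact h3

theorem of_unit {M M' : Matrix (Fin 3) (Fin 3) F} (h : M * M' = 1) (h' : M' * M = 1) :
    IsUnit (MonoidAlgebra.of F (Matrix (Fin 3) (Fin 3) F) M) := by
  refine ⟨⟨MonoidAlgebra.of F _ M, MonoidAlgebra.of F _ M', ?_, ?_⟩, rfl⟩
  · rw [← map_mul, h, map_one]
  · rw [← map_mul, h', map_one]

theorem two_zero (h2 : (2 : F) = 0) (x : MonoidAlgebra F (Matrix (Fin 3) (Fin 3) F)) :
    x + x = 0 := by
  rw [← two_smul F x, h2, zero_smul]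

/-- Characteristic two, two of the three matrices `1`, `M`, `N` are equal. -/
theorem tel_unit_two (h2 : (2 : F) = 0) {M N : Matrix (Fin 3) (Fin 3) F}
    (hM : M * M.transpose = 1) (hM' : M.transpose * M = 1) (hN : N * N.transpose = 1)
    (hN' : N.transpose * N = 1) (h : M = 1 ∨ N = 1 ∨ M = N) : IsUnit (tel M N) := by
  unfold tel
  rcases h with h | h | h
  · rw [h, map_one, two_zero h2, zero_add]
    exact of_unit hN hN'
  · rw [h, map_one, add_right_comm, two_zero h2, zero_add]
    exact of_unit hM hM'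
  · rw [h, add_assoc, two_zero h2, add_zero]
    exact isUnit_one

/-- `2 + x` is a unit if `x ^ n = 1` and `1 - (-2) ^ n` is a unit. -/
theorem two_add_unit {x : MonoidAlgebra F (Matrix (Fin 3) (Fin 3) F)} {n : ℕ} (hx : x ^ n = 1)
    (hn : IsUnit (1 - (-2 : F) ^ n)) : IsUnit (2 + x) := by
  obtain ⟨c, hc⟩ := hn
  have hcomm : Commute x (-2) := by
    have h1 : Commute x ((2 : ℕ) : MonoidAlgebra F (Matrix (Fin 3) (Fin 3) F)) :=
      Nat.commute_cast x 2
    rw [Nat.cast_ofNat] at h1
    exact h1.neg_right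
  set S := ∑ i ∈ Finset.range n, x ^ i * (-2) ^ (n - 1 - i) with hS
  have h1 : (x - -2) * S = algebraMap F _ (1 - (-2) ^ n) := by
    rw [hS, hcomm.mul_geom_sum₂, hx, map_sub, map_one, map_pow, map_neg, map_ofNat]
  have h2 : S * (x - -2) = algebraMap F _ (1 - (-2) ^ n) := by
    rw [hS, hcomm.geom_sum₂_mul, hx, map_sub, map_one, map_pow, map_neg, map_ofNat]
  have e : x - -2 = 2 + x := by
    rw [sub_neg_eq_add, add_comm]
  rw [e, ← hc] at h1 h2
  have h3 : algebraMap F (MonoidAlgebra F (Matrix (Fin 3) (Fin 3) F)) (↑c⁻¹ : F) *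
      algebraMap F _ (c : F) = 1 := by
    rw [← map_mul, c.inv_mul, map_one]
  refine ⟨⟨2 + x, algebraMap F _ (↑c⁻¹ : F) * S, ?_, ?_⟩, rfl⟩
  · rw [← mul_assoc, ← Algebra.commutes, mul_assoc, h1, h3]
  · rw [mul_assoc, h2, h3]

end ring

/-! ### `p`-groups -/

section pgroup
variable {G : Type*} [Group G] {F : Type*} [CommRing F]

theorem sub_nilp {p : ℕ} [Fact p.Prime] {W : Type*} [AddCommGroup W] [Module F W]
    (hp0 : ∀ w : W, (p : F) • w = 0) (a : Module.End F W) {k : ℕ} (ha : a ^ p ^ k = 1) :
    (a - 1) ^ p ^ k = 0 := by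
  rcases subsingleton_or_nontrivial (Module.End F W) with h | h
  · exact Subsingleton.elim _ _
  · have hp : (p : Module.End F W) = 0 := by
      ext1 w
      have h1 : (p : Module.End F W) w = (p : F) • w := by
        rw [← map_natCast (algebraMap F (Module.End F W)) p]
        rfl
      rw [h1, hp0]
      rfl
    have hchar : CharP (Module.End F W) p := (CharP.charP_iff_prime_eq_zero Fact.out).2 hp
    rw [sub_pow_char_pow_of_commute p k (Commute.one_right a), ha, one_pow, sub_self]

theorem triv_surj {p : ℕ} [hp : Fact p.Prime] (h3 : p ≠ 3) {W : Type*} [AddCommGroup W]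
    [Module F W] (hp0 : ∀ w : W, (p : F) • w = 0) {a b : Module.End F W} (ha : a = 1) (hb : b = 1)
    (y : W) : ∃ w : W, y = (1 + a + b) w := by
  have hco : IsCoprime (3 : ℤ) (p : ℤ) := by
    have h1 : IsCoprime ((3 : ℕ) : ℤ) (p : ℤ) := by
      rw [Nat.isCoprime_iff_coprime, Nat.coprime_primes Nat.prime_three hp.out]
      exact h3.symm
    exact_mod_cast h1
  obtain ⟨u, v, huv⟩ := hco
  refine ⟨(u : F) • y, ?_⟩
  have h2 : (1 : F) = (u : F) * 3 + (v : F) * (p : F) := by
    have := congrArg (fun n : ℤ => (n : F)) huv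
    push_cast at this
    exact this.symm
  have h4 : y = ((u : F) * 3) • y + ((v : F) * (p : F)) • y := by
    rw [← add_smul, ← h2, one_smul]
  rw [mul_smul, mul_smul, hp0, smul_zero, add_zero] at h4
  rw [ha, hb, LinearMap.add_apply, LinearMap.add_apply, Module.End.one_apply]
  conv_lhs => rw [h4]
  rw [← smul_add, ← smul_add]
  congr 1
  rw [show (3 : F) = 1 + 1 + 1 by norm_num, add_smul, add_smul, one_smul]

theorem pgroup_surj [Finite G] {p : ℕ} [Fact p.Prime] (hG : IsPGroup p G) (h3 : p ≠ 3) (g h : G)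
    (n : ℕ) : ∀ (W : Type*) [AddCommGroup W] [Module F W] (θ : G →* Module.End F W),
      (∀ w : W, (p : F) • w = 0) → {x : G | θ x ≠ 1}.ncard ≤ n →
      ∀ y : W, ∃ w : W, y = (1 + θ g + θ h) w := by
  induction n with
  | zero =>
    intro W _ _ θ hp0 hn y
    have htriv : ∀ x, θ x = 1 := by
      intro x
      by_contra hx
      rw [Nat.le_zero, Set.ncard_eq_zero (Set.toFinite _)] at hn
      have : x ∈ {x : G | θ x ≠ 1} := hx
      rw [hn] at this
      exact this
    exact triv_surj h3 hp0 (htriv g) (htriv h) y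
  | succ n ih =>
    intro W _ _ θ hp0 hn y
    by_cases htriv : ∀ x, θ x = 1
    · exact triv_surj h3 hp0 (htriv g) (htriv h) y
    · push Not at htriv
      obtain ⟨x0, hx0⟩ := htriv
      -- a central element modulo the kernel
      have hN : Nontrivial (G ⧸ θ.ker) := by
        refine ⟨⟨(x0 : G ⧸ θ.ker), 1, fun h1 => hx0 ?_⟩⟩
        rw [QuotientGroup.eq_one_iff, MonoidHom.mem_ker] at h1
        exact h1
      have hmk : ∀ a b : G, (a : G ⧸ θ.ker) = b → θ a = θ b := by
        intro a b hab
        rw [QuotientGroup.eq, MonoidHom.mem_ker] at hab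
        have h1 : θ b = θ a * θ (a⁻¹ * b) := by
          rw [← map_mul]
          congr 1
          group
        rw [h1, hab, mul_one]
      have hc := (hG.to_quotient θ.ker).center_nontrivial
      obtain ⟨⟨zb, hzb⟩, hz1⟩ := exists_ne (1 : Subgroup.center (G ⧸ θ.ker))
      obtain ⟨z, rfl⟩ := QuotientGroup.mk_surjective zb
      have hz : θ z ≠ 1 := by
        intro h1
        apply hz1
        apply Subtype.ext
        change (z : G ⧸ θ.ker) = 1
        rw [QuotientGroup.eq_one_iff, MonoidHom.mem_ker]
        exact h1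
      have hcom : ∀ x, θ z * θ x = θ x * θ z := by
        intro x
        have h1 := Subgroup.mem_center_iff.1 hzb (x : G ⧸ θ.ker)
        rw [← map_mul, ← map_mul]
        exact (hmk _ _ h1).symm
      obtain ⟨k, hk⟩ := hG z
      set D : Module.End F W := θ z - 1 with hD
      have hDk : D ^ p ^ k = 0 := sub_nilp hp0 (θ z) (by rw [← map_pow, hk, map_one])
      have hDc : ∀ x, D * θ x = θ x * D := by
        intro x
        rw [hD, sub_mul, mul_sub, hcom x, one_mul, mul_one]
      set T : Module.End F W := 1 + θ g + θ h with hT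
      have hDT : T * D = D * T := by
        rw [hT, add_mul, add_mul, mul_add, mul_add, hDc g, hDc h, one_mul, mul_one]
      -- the quotient
      set U : Submodule F W := LinearMap.range D with hU
      have hle : ∀ x, U ≤ U.comap (θ x) := by
        rintro x _ ⟨w, rfl⟩
        refine ⟨θ x w, ?_⟩
        have h1 := congrArg (fun f : Module.End F W => f w) (hDc x)
        exact h1
      let θ' : G →* Module.End F (W ⧸ U) :=
        { toFun := fun x => U.mapQ U (θ x) (hle x)
          map_one' := by
            refine LinearMap.ext fun w => ?_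
            obtain ⟨w, rfl⟩ := U.mkQ_surjective w
            rw [Submodule.mkQ_apply, Submodule.mapQ_apply, map_one]
            rfl
          map_mul' := fun x y => by
            refine LinearMap.ext fun w => ?_
            obtain ⟨w, rfl⟩ := U.mkQ_surjective w
            rw [Submodule.mkQ_apply, Submodule.mapQ_apply, map_mul]
            rfl }
      have hθ' : ∀ x w, θ' x (Submodule.Quotient.mk w) = Submodule.Quotient.mk (θ x w) :=
        fun x w => rfl
      have hp0' : ∀ w : W ⧸ U, (p : F) • w = 0 := by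
        intro w
        obtain ⟨w, rfl⟩ := U.mkQ_surjective w
        rw [Submodule.mkQ_apply, ← Submodule.Quotient.mk_smul, hp0, Submodule.Quotient.mk_zero]
      have hlt : {x : G | θ' x ≠ 1}.ncard < {x : G | θ x ≠ 1}.ncard := by
        refine Set.ncard_lt_ncard ?_ (Set.toFinite _)
        refine ⟨fun x hx h1 => hx ?_, fun hsub => ?_⟩
        · refine LinearMap.ext fun w => ?_
          obtain ⟨w, rfl⟩ := U.mkQ_surjective w
          rw [Submodule.mkQ_apply, hθ', h1]
          rfl
        · apply hsub (show z ∈ {x : G | θ x ≠ 1} from hz)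
          refine LinearMap.ext fun w => ?_
          obtain ⟨w, rfl⟩ := U.mkQ_surjective w
          rw [Submodule.mkQ_apply, hθ', Module.End.one_apply, Submodule.Quotient.eq]
          exact ⟨w, rfl⟩
      have hq : ∀ y : W, ∃ w u : W, y = T w + D u := by
        intro y
        obtain ⟨w, hw⟩ := ih (W ⧸ U) θ' hp0' (by omega) (Submodule.Quotient.mk y)
        obtain ⟨w, rfl⟩ := U.mkQ_surjective w
        have h1 : (1 + θ' g + θ' h) (U.mkQ w) = Submodule.Quotient.mk (T w) := rfl
        rw [h1, Submodule.Quotient.eq] at hw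
        obtain ⟨u, hu⟩ := hw
        refine ⟨w, u, ?_⟩
        rw [hu]
        abel
      have hpow : ∀ m : ℕ, ∀ y : W, ∃ w u : W, y = T w + (D ^ m) u := by
        intro m
        induction m with
        | zero =>
          intro y
          exact ⟨0, y, by rw [map_zero, zero_add, pow_zero, Module.End.one_apply]⟩
        | succ m ihm =>
          intro y
          obtain ⟨w, u, hy⟩ := ihm y
          obtain ⟨w', u', hu⟩ := hq u
          refine ⟨w + (D ^ m) w', u', ?_⟩
          have hc1 : T * D ^ m = D ^ m * T := (Commute.pow_right (show Commute T D from hDT) m)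
          have h1 := congrArg (fun f : Module.End F W => f w') hc1
          simp only [Module.End.mul_apply] at h1
          rw [hy, hu, map_add, map_add, pow_succ, Module.End.mul_apply, h1]
          abel
      obtain ⟨w, u, hy⟩ := hpow (p ^ k) y
      refine ⟨w, ?_⟩
      rw [hy, hDk, LinearMap.zero_apply, add_zero]

end pgroup

end

end Pool.Agent.Lib.MP_fdbf44_an
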