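import Pool.Agent.Lib.MP_fdbf44_an.Stm

/-! Cones over subsets of the sphere: transfer of almost everywhere statements to `ℝ³`. -/

open MeasureTheory Metric Set Filter Topology

namespace Pool.Agent.Lib.MP_fdbf44_an

noncomputable section

/-- the direction of a nonzero vector -/
def dir (x : ({0}ᶜ : Set E3)) : S2 := (homeomorphUnitSphereProd E3 x).1

theorem coe_dir (x : ({0}ᶜ : Set E3)) : (dir x : E3) = ‖(x : E3)‖⁻¹ • (x : E3) := by
  unfold dir
  rw [homeomorphUnitSphereProd_apply_fst_coe]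

theorem dir_qmp : Measure.QuasiMeasurePreserving dir
    ((volume : Measure E3).comap ((↑) : ({0}ᶜ : Set E3) → E3)) mu :=
  Measure.quasiMeasurePreserving_fst.comp
    (volume : Measure E3).measurePreserving_homeomorphUnitSphereProd.quasiMeasurePreserving

/-- the cone over a subset of the sphere -/
def cone (A : Set E3) : Set E3 := {x | x ≠ 0 ∧ ‖x‖⁻¹ • x ∈ A}

theorem mem_cone {A : Set E3} {x : E3} : x ∈ cone A ↔ x ≠ 0 ∧ ‖x‖⁻¹ • x ∈ A := Iff.rfl

theorem ae_cone {P : E3 → Prop} (h : ∀ᵐ x : S2 ∂mu, P x) :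
    ∀ᵐ x : E3, x ≠ 0 → P (‖x‖⁻¹ • x) := by
  have h1 := dir_qmp.ae h
  have h2 : ∀ᵐ x : ({0}ᶜ : Set E3) ∂((volume : Measure E3).comap (↑)), P (‖(x : E3)‖⁻¹ • (x : E3)) := by
    filter_upwards [h1] with x hx
    rw [← coe_dir]
    exact hx
  rw [← ae_restrict_iff_subtype (p := fun x : E3 => P (‖x‖⁻¹ • x))
    (measurableSet_singleton (0 : E3)).compl,
    ae_restrict_iff' (measurableSet_singleton (0 : E3)).compl] at h2
  exact h2

theorem ae_ne_zero : ∀ᵐ x : E3, x ≠ 0 := by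
  rw [ae_iff]
  simp

theorem cone_null {A : Set E3} (h : NM A) : NullMeasurableSet (cone A) volume := by
  obtain ⟨B, hB, hAB⟩ := h
  have h1 : ∀ᵐ x : S2 ∂mu, ((x : E3) ∈ A ↔ (x : E3) ∈ ((↑) : S2 → E3) '' B) := by
    filter_upwards [hAB] with x hx
    have h2 : ((x : E3) ∈ A) = (x ∈ B) := hx
    rw [h2]
    exact ⟨fun h => ⟨x, h, rfl⟩, fun ⟨y, hy, hxy⟩ => by rwa [← Subtype.ext hxy]⟩
  refine ⟨cone (((↑) : S2 → E3) '' B), ?_, ?_⟩
  · have h3 : cone (((↑) : S2 → E3) '' B) = ((↑) : ({0}ᶜ : Set E3) → E3) '' (dir ⁻¹' B) := by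
      ext x
      rw [mem_cone]
      constructor
      · rintro ⟨hx, y, hy, hxy⟩
        refine ⟨⟨x, hx⟩, ?_, rfl⟩
        have h4 : dir ⟨x, hx⟩ = y := Subtype.ext ((coe_dir _).trans hxy.symm)
        rw [mem_preimage, h4]
        exact hy
      · rintro ⟨y, hy, rfl⟩
        exact ⟨y.2, dir y, hy, coe_dir y⟩
    rw [h3]
    exact (MeasurableEmbedding.subtype_coe (measurableSet_singleton (0 : E3)).compl
      ).measurableSet_image.2 (dir_qmp.measurable hB)
  · filter_upwards [ae_cone (P := fun x : E3 => (x ∈ A ↔ x ∈ ((↑) : S2 → E3) '' B)) h1,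
      ae_ne_zero] with x hx hx0
    have h5 := hx hx0
    refine propext ⟨fun h => ⟨hx0, h5.1 h.2⟩, fun h => ⟨hx0, h5.2 h.2⟩⟩

theorem cone_img (τ : LI) (A : Set E3) (x : E3) : x ∈ cone (img τ A) ↔ τ.symm x ∈ cone A := by
  rw [mem_cone, mem_cone, τ.symm.norm_map, ← τ.symm.map_smul]
  have h1 : τ.symm x ≠ 0 ↔ x ≠ 0 := not_congr τ.symm.map_eq_zero_iff
  rw [h1]
  refine and_congr_right fun _ => ?_
  constructor
  · rintro ⟨y, hy, hxy⟩
    rw [← hxy, τ.symm_apply_apply]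
    exact hy
  · intro h
    exact ⟨_, h, τ.apply_symm_apply _⟩

end

end Pool.Agent.Lib.MP_fdbf44_an
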