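import Pool.Agent.Lib.MP_fdbf44_an.Sph
import Pool.Agent.Lib.MP_fdbf44_an.Alg

/-! The criterion: if `q ↦ q + q ∘ ρ + q ∘ σ` is surjective on the polynomials over a residue ring of
a ring of definition of `ρ` and `σ`, then `f + f ∘ ρ⁻¹ + f ∘ σ⁻¹ = 0` has only the zero solution
among the bounded measurable functions on the sphere. -/

open MeasureTheory Metric Set MvPolynomial

namespace Pool.Agent.Lib.MP_fdbf44_an

noncomputable section

/-- `M` is the matrix of the linear isometry `ρ` in the standard basis. -/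
def IsMat {R : Type*} [CommRing R] [Algebra R ℝ] (ρ : E3 ≃ₗᵢ[ℝ] E3)
    (M : Matrix (Fin 3) (Fin 3) R) : Prop :=
  ∀ i k, algebraMap R ℝ (M i k) = ρ (EuclideanSpace.single k 1) i

theorem IsMat.apply {R : Type*} [CommRing R] [Algebra R ℝ] {ρ : E3 ≃ₗᵢ[ℝ] E3}
    {M : Matrix (Fin 3) (Fin 3) R} (h : IsMat ρ M) (x : E3) (i : Fin 3) :
    ρ x i = ∑ k, algebraMap R ℝ (M i k) * x k := by
  have h1 : x = ∑ k, x k • (EuclideanSpace.single k 1 : E3) := by
    ext j
    simp [Fin.sum_univ_three]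
    fin_cases j <;> simp
  conv_lhs => rw [h1]
  rw [map_sum, WithLp.ofLp_sum, Finset.sum_apply]
  refine Finset.sum_congr rfl fun k _ => ?_
  rw [map_smul, h i k, PiLp.smul_apply, smul_eq_mul, mul_comm]

theorem pc_memLp (p : MvPolynomial (Fin 3) ℝ) :
    MemLp (fun x : S2 => MvPolynomial.eval (fun i => (x : E3) i) p) 2 mu := by
  have h1 : (fun x : S2 => MvPolynomial.eval (fun i => (x : E3) i) p) = fun x => pc p x := by
    funext x
    rw [pc_apply]
  rw [h1]
  refine MemLp.of_bound (pc p).continuous.aestronglyMeasurable ‖pc p‖ ?_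
  exact Filter.Eventually.of_forall fun x => (pc p).norm_coe_le_norm x

theorem int_mul {f : S2 → ℝ} (hf : MemLp f 2 mu) (p : MvPolynomial (Fin 3) ℝ) :
    Integrable (fun x : S2 => f x * MvPolynomial.eval (fun i => (x : E3) i) p) mu :=
  MemLp.integrable_mul hf (pc_memLp p)

/-- The functional `p ↦ ∫ f p`. -/
def Jf {f : S2 → ℝ} (hf : MemLp f 2 mu) : MvPolynomial (Fin 3) ℝ →ₗ[ℝ] ℝ where
  toFun p := ∫ x, f x * MvPolynomial.eval (fun i => (x : E3) i) p ∂mu
  map_add' p q := by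
    rw [← integral_add (int_mul hf p) (int_mul hf q)]
    refine integral_congr_ae (Filter.Eventually.of_forall fun x => ?_)
    simp only [map_add]
    ring
  map_smul' c p := by
    rw [RingHom.id_apply, smul_eq_mul, ← integral_const_mul]
    refine integral_congr_ae (Filter.Eventually.of_forall fun x => ?_)
    simp only [smul_eval]
    ring

theorem Jf_apply {f : S2 → ℝ} (hf : MemLp f 2 mu) (p : MvPolynomial (Fin 3) ℝ) :
    Jf hf p = ∫ x, f x * MvPolynomial.eval (fun i => (x : E3) i) p ∂mu := rfl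

theorem eval_sb {ρ : E3 ≃ₗᵢ[ℝ] E3} {M : Matrix (Fin 3) (Fin 3) ℝ} (hM : IsMat ρ M)
    (p : MvPolynomial (Fin 3) ℝ) (x : E3) :
    MvPolynomial.eval (fun i => x i) (sb M p) = MvPolynomial.eval (fun i => ρ x i) p := by
  have h1 := sb_eval (A := ℝ) M p (fun i => x i)
  rw [← coe_aeval_eq_eval, ← coe_aeval_eq_eval]
  change aeval (fun i => x i) (sb M p) = aeval (fun i => ρ x i) p
  rw [h1]
  congr 2
  funext i
  rw [hM.apply]

theorem Jf_sb {f : S2 → ℝ} (hf : MemLp f 2 mu) {ρ : E3 ≃ₗᵢ[ℝ] E3}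
    {M : Matrix (Fin 3) (Fin 3) ℝ} (hM : IsMat ρ M) (p : MvPolynomial (Fin 3) ℝ) :
    Jf hf (sb M p) =
      ∫ x, f ((rsph ρ).symm x) * MvPolynomial.eval (fun i => (x : E3) i) p ∂mu := by
  rw [Jf_apply, ← (rsph_measurePreserving ρ).integral_comp (rsph ρ).measurableEmbedding
    (fun x => f ((rsph ρ).symm x) * MvPolynomial.eval (fun i => (x : E3) i) p)]
  refine integral_congr_ae (Filter.Eventually.of_forall fun x => ?_)
  simp only [Homeomorph.symm_apply_apply, coe_rsph]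
  rw [eval_sb hM]

theorem memLp_symm {f : S2 → ℝ} (hf : MemLp f 2 mu) (ρ : E3 ≃ₗᵢ[ℝ] E3) :
    MemLp (fun x => f ((rsph ρ).symm x)) 2 mu :=
  hf.comp_measurePreserving (rsph_symm_measurePreserving ρ)

theorem Jf_Top {f : S2 → ℝ} (hf : MemLp f 2 mu) {ρ σ : E3 ≃ₗᵢ[ℝ] E3}
    {M N : Matrix (Fin 3) (Fin 3) ℝ} (hM : IsMat ρ M) (hN : IsMat σ N)
    (h : ∀ᵐ x ∂mu, f x + f ((rsph ρ).symm x) + f ((rsph σ).symm x) = 0)
    (p : MvPolynomial (Fin 3) ℝ) : Jf hf (Top M N p) = 0 := by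
  have hi : Integrable (fun x : S2 => f x * MvPolynomial.eval (fun i => (x : E3) i) p +
      f ((rsph ρ).symm x) * MvPolynomial.eval (fun i => (x : E3) i) p) mu :=
    (int_mul hf p).add (int_mul (memLp_symm hf ρ) p)
  rw [Top, map_add, map_add, Jf_sb hf hM, Jf_sb hf hN, Jf_apply,
    ← integral_add (int_mul hf p) (int_mul (memLp_symm hf ρ) p),
    ← integral_add hi (int_mul (memLp_symm hf σ) p)]
  rw [← integral_zero S2 ℝ (μ := mu)]
  refine integral_congr_ae ?_
  filter_upwards [h] with x hx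
  rw [← add_mul, ← add_mul, hx, zero_mul]

variable {R F : Type*} [CommRing R] [Algebra R ℝ] [CommRing F] [Nontrivial F]

/-- The criterion for functions. -/
theorem crit (φ : R →+* F) (hφ : Function.Surjective φ)
    (hinj : Function.Injective (algebraMap R ℝ)) {ρ σ : E3 ≃ₗᵢ[ℝ] E3}
    {M N : Matrix (Fin 3) (Fin 3) R} (hM : IsMat ρ M) (hN : IsMat σ N)
    (hs : Function.Surjective (Top (M.map φ) (N.map φ))) {f : S2 → ℝ} (hf : MemLp f 2 mu)
    (h : ∀ᵐ x ∂mu, f x + f ((rsph ρ).symm x) + f ((rsph σ).symm x) = 0) : f =ᵐ[mu] 0 := by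
  set a : R →+* ℝ := algebraMap R ℝ with ha
  have hM' : IsMat ρ (M.map a) := fun i k => hM i k
  have hN' : IsMat σ (N.map a) := fun i k => hN i k
  let Λ : MvPolynomial (Fin 3) R →ₗ[R] ℝ :=
    { toFun := fun p => Jf hf (MvPolynomial.map a p)
      map_add' := fun p q => by rw [map_add, map_add]
      map_smul' := fun c p => by
        rw [RingHom.id_apply, MvPolynomial.smul_eq_C_mul, map_mul, map_C,
          ← MvPolynomial.smul_eq_C_mul, map_smul, smul_eq_mul, Algebra.smul_def] }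
  have hΛ : ∀ p, Λ (Top M N p) = 0 := by
    intro p
    change Jf hf (MvPolynomial.map a (Top M N p)) = 0
    rw [Top_map]
    exact Jf_Top hf hM' hN' h _
  have hmon : ∀ m : Fin 3 →₀ ℕ, Jf hf (monomial m 1) = 0 := by
    intro m
    obtain ⟨r, hr, hr2⟩ := alg_core φ hφ M N Λ hΛ hs m.degree
    have h1 := hr2 m rfl
    have h2 : Λ (monomial m 1) = Jf hf (monomial m 1) := by
      change Jf hf (MvPolynomial.map a (monomial m 1)) = _
      rw [map_monomial, map_one]
    rw [h2, Algebra.smul_def, mul_eq_zero] at h1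
    rcases h1 with h1 | h1
    · exfalso
      have h3 : r = 0 := hinj (by rw [h1, map_zero])
      rw [h3, map_zero] at hr
      exact zero_ne_one hr
    · exact h1
  refine ae_zero_of_poly f hf fun p => ?_
  rw [← Jf_apply hf, p.as_sum, map_sum]
  refine Finset.sum_eq_zero fun m _ => ?_
  have h1 : (monomial m (coeff m p) : MvPolynomial (Fin 3) ℝ) = coeff m p • monomial m 1 := by
    rw [smul_monomial, smul_eq_mul, mul_one]
  rw [h1, map_smul, hmon, smul_zero]

/-- `A`, `ρ A`, `σ A` is a measurable division of the sphere into three parts up to a null set. -/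
def Div3 (ρ σ : E3 ≃ₗᵢ[ℝ] E3) (A : Set E3) : Prop :=
  NullMeasurableSet ((Subtype.val : S2 → E3) ⁻¹' A) mu ∧
    ∀ᵐ x : S2 ∂mu, ∃! i : Fin 3, (x : E3) ∈ (![A, ρ '' A, σ '' A] : Fin 3 → Set E3) i

/-- The function `1_A - 1/3`. -/
def fA (A : Set E3) (x : S2) : ℝ := ((Subtype.val : S2 → E3) ⁻¹' A).indicator 1 x - 1 / 3

theorem fA_memLp {A : Set E3} (hA : NullMeasurableSet ((Subtype.val : S2 → E3) ⁻¹' A) mu) :
    MemLp (fA A) 2 mu := by
  refine MemLp.of_bound (C := 2) ?_ ?_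
  · exact (aestronglyMeasurable_const.indicator₀ hA).sub aestronglyMeasurable_const
  · refine Filter.Eventually.of_forall fun x => ?_
    unfold fA
    by_cases hx : x ∈ ((Subtype.val : S2 → E3) ⁻¹' A)
    · rw [indicator_of_mem hx, Pi.one_apply, Real.norm_eq_abs, abs_le]
      constructor <;> norm_num
    · rw [indicator_of_notMem hx, Real.norm_eq_abs, abs_le]
      constructor <;> norm_num

theorem fA_ne (A : Set E3) (x : S2) : fA A x ≠ 0 := by
  unfold fA
  by_cases hx : x ∈ ((Subtype.val : S2 → E3) ⁻¹' A)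
  · rw [indicator_of_mem hx, Pi.one_apply]
    norm_num
  · rw [indicator_of_notMem hx]
    norm_num

theorem mem_image_iff (ρ : E3 ≃ₗᵢ[ℝ] E3) (A : Set E3) (x : S2) :
    (x : E3) ∈ ρ '' A ↔ (rsph ρ).symm x ∈ ((Subtype.val : S2 → E3) ⁻¹' A) := by
  constructor
  · rintro ⟨y, hy, hyx⟩
    change ρ.symm x ∈ A
    rw [← hyx, ρ.symm_apply_apply]
    exact hy
  · intro h
    exact ⟨ρ.symm x, h, ρ.apply_symm_apply _⟩

theorem fA_sum {A : Set E3} {ρ σ : E3 ≃ₗᵢ[ℝ] E3} {x : S2}
    (h : ∃! i : Fin 3, (x : E3) ∈ (![A, ρ '' A, σ '' A] : Fin 3 → Set E3) i) :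
    fA A x + fA A ((rsph ρ).symm x) + fA A ((rsph σ).symm x) = 0 := by
  set B := ((Subtype.val : S2 → E3) ⁻¹' A) with hB
  have h0 : (x : E3) ∈ (![A, ρ '' A, σ '' A] : Fin 3 → Set E3) 0 ↔ x ∈ B := Iff.rfl
  have h1 : (x : E3) ∈ (![A, ρ '' A, σ '' A] : Fin 3 → Set E3) 1 ↔ (rsph ρ).symm x ∈ B :=
    mem_image_iff ρ A x
  have h2 : (x : E3) ∈ (![A, ρ '' A, σ '' A] : Fin 3 → Set E3) 2 ↔ (rsph σ).symm x ∈ B :=
    mem_image_iff σ A x
  obtain ⟨i, hi, hu⟩ := h
  dsimp only at hi hu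
  unfold fA
  rw [← hB]
  have u0 := hu 0
  have u1 := hu 1
  have u2 := hu 2
  rw [h0] at u0
  rw [h1] at u1
  rw [h2] at u2
  fin_cases i
  · have a0 : x ∈ B := h0.1 hi
    have a1 : (rsph ρ).symm x ∉ B := fun h => absurd (u1 h) (by decide)
    have a2 : (rsph σ).symm x ∉ B := fun h => absurd (u2 h) (by decide)
    rw [indicator_of_mem a0, indicator_of_notMem a1, indicator_of_notMem a2, Pi.one_apply]
    norm_num
  · have a1 : (rsph ρ).symm x ∈ B := h1.1 hi
    have a0 : x ∉ B := fun h => absurd (u0 h) (by decide)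
    have a2 : (rsph σ).symm x ∉ B := fun h => absurd (u2 h) (by decide)
    rw [indicator_of_mem a1, indicator_of_notMem a0, indicator_of_notMem a2, Pi.one_apply]
    norm_num
  · have a2 : (rsph σ).symm x ∈ B := h2.1 hi
    have a0 : x ∉ B := fun h => absurd (u0 h) (by decide)
    have a1 : (rsph ρ).symm x ∉ B := fun h => absurd (u1 h) (by decide)
    rw [indicator_of_mem a2, indicator_of_notMem a0, indicator_of_notMem a1, Pi.one_apply]
    norm_num

/-- The criterion for sets. -/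
theorem crit_set (φ : R →+* F) (hφ : Function.Surjective φ)
    (hinj : Function.Injective (algebraMap R ℝ)) {ρ σ : E3 ≃ₗᵢ[ℝ] E3}
    {M N : Matrix (Fin 3) (Fin 3) R} (hM : IsMat ρ M) (hN : IsMat σ N)
    (hs : Function.Surjective (Top (M.map φ) (N.map φ))) (A : Set E3) : ¬ Div3 ρ σ A := by
  rintro ⟨hA, hd⟩
  have h1 := crit φ hφ hinj hM hN hs (fA_memLp hA) (by
    filter_upwards [hd] with x hx
    exact fA_sum hx)
  have h2 : ∀ᵐ x : S2 ∂mu, False := by
    filter_upwards [h1] with x hx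
    exact fA_ne A x hx
  rw [Filter.eventually_false_iff_eq_bot, ae_eq_bot] at h2
  exact Measure.toSphere_ne_zero (volume : Measure E3) h2

end

end Pool.Agent.Lib.MP_fdbf44_an
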