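import Pool.Agent.Lib.MP_fdbf44_an.Cone

/-! Density points of the cone over a piece. -/

open MeasureTheory Metric Set Filter Topology

namespace Pool.Agent.Lib.MP_fdbf44_an

noncomputable section

/-- `x` is a density point of `S` -/
def Dn (S : Set E3) (x : E3) : Prop :=
  Tendsto (fun r => (volume : Measure E3) (S ∩ closedBall x r) / volume (closedBall x r))
    (𝓝[>] 0) (𝓝 1)

theorem Dn_ae {S : Set E3} (hS : NullMeasurableSet S volume) : ∀ᵐ x : E3, x ∈ S → Dn S x := by
  have h := Besicovitch.ae_tendsto_measure_inter_div (volume : Measure E3) S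
  rw [ae_restrict_iff'₀ hS] at h
  exact h

theorem Dn_disj {S T : Set E3} (hT : NullMeasurableSet T volume)
    (hST : ∀ᵐ x : E3, ¬ (x ∈ S ∧ x ∈ T)) (x : E3) (h1 : Dn S x) (h2 : Dn T x) : False := by
  have h3 := h1.add h2
  have h4 : ∀ r : ℝ, (volume : Measure E3) (S ∩ closedBall x r) / volume (closedBall x r) +
      (volume : Measure E3) (T ∩ closedBall x r) / volume (closedBall x r) ≤ 1 := by
    intro r
    rw [← ENNReal.add_div]
    have h5 : AEDisjoint (volume : Measure E3) (S ∩ closedBall x r) (T ∩ closedBall x r) := by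
      refine measure_mono_null ?_ (ae_iff.1 hST)
      rintro y ⟨⟨hy1, -⟩, hy2, -⟩
      rw [mem_ofPred_eq, not_not]
      exact ⟨hy1, hy2⟩
    rw [← measure_union₀ (hT.inter measurableSet_closedBall.nullMeasurableSet) h5]
    refine (ENNReal.div_le_div_right (measure_mono ?_) _).trans ENNReal.div_self_le_one
    exact union_subset inter_subset_right inter_subset_right
  have h5 := le_of_tendsto' h3 h4
  have h6 : (1 : ENNReal) + 1 = 2 := one_add_one_eq_two
  rw [h6] at h5
  exact absurd h5 (by norm_num)

theorem Dn_le {S T : Set E3} {x y : E3}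
    (h : ∀ r : ℝ, 0 < r → (volume : Measure E3) (S ∩ closedBall x r) ≤ volume (T ∩ closedBall y r))
    (hx : Dn S x) : Dn T y := by
  refine tendsto_of_tendsto_of_tendsto_of_le_of_le' hx tendsto_const_nhds ?_ ?_
  · filter_upwards [self_mem_nhdsWithin] with r hr
    rw [Measure.addHaar_closedBall_center (volume : Measure E3) x,
      Measure.addHaar_closedBall_center (volume : Measure E3) y]
    exact ENNReal.div_le_div_right (h r hr) _
  · refine Eventually.of_forall fun r => ?_
    exact (ENNReal.div_le_div_right (measure_mono inter_subset_right) _).trans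
      ENNReal.div_self_le_one

theorem vol_preimage (τ : LI) (S : Set E3) : (volume : Measure E3) (τ ⁻¹' S) = volume S :=
  τ.measurePreserving.measure_preimage_emb τ.toHomeomorph.measurableEmbedding _

theorem Dn_preimage (τ : LI) (S : Set E3) (x : E3) : Dn (τ ⁻¹' S) x ↔ Dn S (τ x) := by
  have h1 : ∀ r : ℝ, (volume : Measure E3) (τ ⁻¹' S ∩ closedBall x r) =
      volume (S ∩ closedBall (τ x) r) := by
    intro r
    rw [← vol_preimage τ (S ∩ closedBall (τ x) r), preimage_inter, τ.preimage_closedBall,
      τ.symm_apply_apply]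
  exact ⟨Dn_le fun r _ => (h1 r).le, Dn_le fun r _ => (h1 r).ge⟩

/-- the mass of `S` in closed balls does not decrease from `x` to `y`, if `y` is a limit of points
with the same masses as `x` -/
theorem mass_le {S : Set E3} (hS : NullMeasurableSet S volume) {x y : E3} {ι : Type*} (z : ι → E3)
    (hz : ∀ i (r : ℝ), (volume : Measure E3) (S ∩ closedBall (z i) r) = volume (S ∩ closedBall x r))
    (hy : ∀ ε : ℝ, 0 < ε → ∃ i, ‖z i - y‖ < ε) (r : ℝ) :
    (volume : Measure E3) (S ∩ closedBall x r) ≤ volume (S ∩ closedBall y r) := by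
  let F : ℕ → Set E3 := fun k => S ∩ closedBall y (r + 1 / ((k : ℝ) + 1))
  have hF : ∀ k, (volume : Measure E3) (S ∩ closedBall x r) ≤ volume (F k) := by
    intro k
    obtain ⟨i, hi⟩ := hy (1 / ((k : ℝ) + 1)) (by positivity)
    rw [← hz i r]
    refine measure_mono (inter_subset_inter_right _ (closedBall_subset_closedBall' ?_))
    rw [dist_eq_norm]
    linarith
  have h1 : Tendsto (volume ∘ F) atTop (𝓝 (volume (⋂ k, F k))) := by
    refine tendsto_measure_iInter_atTop (fun k => hS.inter
      measurableSet_closedBall.nullMeasurableSet) ?_ ⟨0, ?_⟩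
    · intro k l hkl
      refine inter_subset_inter_right _ (closedBall_subset_closedBall ?_)
      have h2 : (1 : ℝ) / ((l : ℝ) + 1) ≤ 1 / ((k : ℝ) + 1) := by
        refine one_div_le_one_div_of_le (by positivity) ?_
        have : (k : ℝ) ≤ l := by exact_mod_cast hkl
        linarith
      linarith
    · exact ((measure_mono inter_subset_right).trans_lt measure_closedBall_lt_top).ne
  have h2 : ⋂ k, F k = S ∩ closedBall y r := by
    ext w
    rw [mem_iInter]
    constructor
    · intro h
      refine ⟨(h 0).1, ?_⟩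
      rw [mem_closedBall]
      refine le_of_forall_pos_lt_add fun ε hε => ?_
      obtain ⟨k, hk⟩ := exists_nat_one_div_lt hε
      have h3 := mem_closedBall.1 (h k).2
      linarith
    · intro h k
      refine ⟨h.1, closedBall_subset_closedBall ?_ h.2⟩
      have : (0 : ℝ) < 1 / ((k : ℝ) + 1) := by positivity
      linarith
  rw [h2] at h1
  exact ge_of_tendsto' h1 hF

end

end Pool.Agent.Lib.MP_fdbf44_an
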