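import Pool.Agent.Lib.MP_fdbf44_an.Two

/-! The special cases of the criterion: rational matrices, residue characteristic two, finite order,
finite `p`-groups. -/

open MeasureTheory Metric Set MvPolynomial

namespace Pool.Agent.Lib.MP_fdbf44_an

noncomputable section

/-! ### rational matrices -/

theorem odd_den {x : ℚ} (h : ‖(x : ℚ_[2])‖ ≤ 1) : Odd x.den := by
  have h1 := PadicInt.isUnit_den x h
  rw [PadicInt.isUnit_iff, PadicInt.norm_natCast_eq_one_iff] at h1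
  exact Nat.coprime_two_left.1 h1

theorem odd_num {x : ℚ} (h : ‖(x : ℚ_[2])‖ ≤ 1) : ‖(x : ℚ_[2])‖ = 1 ↔ Odd x.num := by
  have h0 : ‖((x.den : ℕ) : ℚ_[2])‖ = 1 := by
    rw [Padic.norm_natCast_eq_one_iff]
    exact Nat.coprime_two_left.2 (odd_den h)
  have h1 : (x : ℚ_[2]) * ((x.den : ℕ) : ℚ_[2]) = ((x.num : ℤ) : ℚ_[2]) := by
    have h2 := congrArg (fun y : ℚ => (y : ℚ_[2])) (Rat.mul_den_eq_num x)
    push_cast at h2
    exact h2
  have h2 : ‖(x : ℚ_[2])‖ = ‖((x.num : ℤ) : ℚ_[2])‖ := by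
    rw [← h1, norm_mul, h0, mul_one]
  rw [h2, Padic.norm_intCast_eq_one_iff, Int.isCoprime_iff_gcd_eq_one]
  rw [Nat.cast_ofNat]
  rw [Int.odd_iff]
  constructor
  · intro h3
    by_contra h4
    have h5 : (2 : ℤ) ∣ x.num := by omega
    have h6 : (2 : ℤ) ∣ ((Int.gcd x.num 2 : ℕ) : ℤ) := Int.dvd_coe_gcd h5 (dvd_refl _)
    rw [h3] at h6
    norm_num at h6
  · intro h3
    have h4 : Int.gcd x.num 2 ∣ 2 := by
      have := Int.gcd_dvd_right x.num 2
      exact_mod_cast this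
    rcases (Nat.dvd_prime Nat.prime_two).1 h4 with h5 | h5
    · exact h5
    · exfalso
      have h6 := Int.gcd_dvd_left x.num 2
      rw [h5] at h6
      norm_num at h6
      omega

/-- **Rational rotations.** -/
theorem rational {ρ σ : E3 ≃ₗᵢ[ℝ] E3} {M N : Matrix (Fin 3) (Fin 3) ℚ} (hM : IsMat ρ M)
    (hN : IsMat σ N) {A : Set E3} (hA : Div3 ρ σ A) :
    ∃ p q : Equiv.Perm (Fin 3), p ≠ 1 ∧ q ≠ 1 ∧ p ≠ q ∧ ∀ i k, Odd (M i k).den ∧
      Odd (N i k).den ∧ (Odd (M i k).num ↔ i = p k) ∧ (Odd (N i k).num ↔ i = q k) := by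
  obtain ⟨p, q, h1, h2, h3, h4⟩ := two_adic (Rat.castHom ℚ_[2]) hM hN hA
  refine ⟨p, q, h1, h2, h3, fun i k => ?_⟩
  obtain ⟨a1, a2, a3, a4⟩ := h4 i k
  rw [Rat.coe_castHom] at a1 a2 a3 a4
  exact ⟨odd_den a1, odd_den a2, (odd_num a1).symm.trans a3, (odd_num a2).symm.trans a4⟩

/-! ### general rings -/

variable {R F : Type} [CommRing R] [Algebra R ℝ] [CommRing F] [Nontrivial F]

theorem IsMat.ort_left {ρ : E3 ≃ₗᵢ[ℝ] E3} {M : Matrix (Fin 3) (Fin 3) R} (hM : IsMat ρ M)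
    (hinj : Function.Injective (algebraMap R ℝ)) : M.transpose * M = 1 := by
  have hM' : IsMat ρ (M.map (algebraMap R ℝ)) := fun i k => hM i k
  have h1 := ort hM'
  have h2 : (M.transpose * M).map (algebraMap R ℝ) = (1 : Matrix (Fin 3) (Fin 3) R).map
      (algebraMap R ℝ) := by
    rw [Matrix.map_mul, Matrix.map_one _ (map_zero _) (map_one _), ← h1]
    rfl
  ext i k
  apply hinj
  exact congrFun (congrFun h2 i) k

theorem IsMat.ort_right {ρ : E3 ≃ₗᵢ[ℝ] E3} {M : Matrix (Fin 3) (Fin 3) R} (hM : IsMat ρ M)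
    (hinj : Function.Injective (algebraMap R ℝ)) : M * M.transpose = 1 :=
  mul_eq_one_comm.1 (hM.ort_left hinj)

theorem red_ort (φ : R →+* F) {M : Matrix (Fin 3) (Fin 3) R} (h : M.transpose * M = 1) :
    (M.map φ).transpose * M.map φ = 1 := by
  have h1 := congrArg (fun X : Matrix (Fin 3) (Fin 3) R => X.map φ) h
  simp only [Matrix.map_mul, Matrix.map_one _ (map_zero _) (map_one _)] at h1
  exact h1

/-- **The criterion with the group ring.** -/
theorem unit_crit (φ : R →+* F) (hφ : Function.Surjective φ)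
    (hinj : Function.Injective (algebraMap R ℝ)) {ρ σ : E3 ≃ₗᵢ[ℝ] E3}
    {M N : Matrix (Fin 3) (Fin 3) R} (hM : IsMat ρ M) (hN : IsMat σ N) {A : Set E3}
    (hA : Div3 ρ σ A) :
    ¬ IsUnit (1 + MonoidAlgebra.of F _ (M.map φ) + MonoidAlgebra.of F _ (N.map φ)) :=
  fun h => crit_set φ hφ hinj hM hN (Top_surj_of_unit h) A hA

/-- **Residue characteristic two.** -/
theorem char_two (φ : R →+* F) (hφ : Function.Surjective φ)
    (hinj : Function.Injective (algebraMap R ℝ)) {ρ σ : E3 ≃ₗᵢ[ℝ] E3}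
    {M N : Matrix (Fin 3) (Fin 3) R} (hM : IsMat ρ M) (hN : IsMat σ N) {A : Set E3}
    (hA : Div3 ρ σ A) (h2 : (2 : F) = 0) :
    M.map φ ≠ 1 ∧ N.map φ ≠ 1 ∧ M.map φ ≠ N.map φ := by
  have m1 := red_ort φ (hM.ort_left hinj)
  have n1 := red_ort φ (hN.ort_left hinj)
  have hkey : ¬ (M.map φ = 1 ∨ N.map φ = 1 ∨ M.map φ = N.map φ) := fun h =>
    unit_crit φ hφ hinj hM hN hA
      (tel_unit_two h2 (mul_eq_one_comm.1 m1) m1 (mul_eq_one_comm.1 n1) n1 h)
  exact ⟨fun h => hkey (Or.inl h), fun h => hkey (Or.inr (Or.inl h)),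
    fun h => hkey (Or.inr (Or.inr h))⟩

/-- **Finite order of the reductions.** -/
theorem order_crit (φ : R →+* F) (hφ : Function.Surjective φ)
    (hinj : Function.Injective (algebraMap R ℝ)) {ρ σ : E3 ≃ₗᵢ[ℝ] E3}
    {M N : Matrix (Fin 3) (Fin 3) R} (hM : IsMat ρ M) (hN : IsMat σ N) {A : Set E3}
    (hA : Div3 ρ σ A) {n : ℕ} (hn : IsUnit (1 - (-2 : F) ^ n))
    (h : M.map φ = 1 ∧ (N.map φ) ^ n = 1 ∨ N.map φ = 1 ∧ (M.map φ) ^ n = 1 ∨
      M.map φ = N.map φ ∧ (M.map φ) ^ n = 1) : False := by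
  have m1 := red_ort φ (hM.ort_left hinj)
  have m2 : M.map φ * (M.map φ).transpose = 1 := mul_eq_one_comm.1 m1
  apply unit_crit φ hφ hinj hM hN hA
  rcases h with ⟨h1, h2⟩ | ⟨h1, h2⟩ | ⟨h1, h2⟩
  · rw [h1, map_one, one_add_one_eq_two]
    refine two_add_unit (n := n) ?_ hn
    rw [← map_pow, h2, map_one]
  · rw [h1, map_one, add_right_comm, one_add_one_eq_two]
    refine two_add_unit (n := n) ?_ hn
    rw [← map_pow, h2, map_one]
  · have h3 : (M.map φ).transpose ^ n = 1 := by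
      rw [← Matrix.transpose_pow, h2, Matrix.transpose_one]
    have h4 : IsUnit (2 + MonoidAlgebra.of F _ (M.map φ).transpose) := by
      refine two_add_unit (n := n) ?_ hn
      rw [← map_pow, h3, map_one]
    have h5 := (of_unit (F := F) m2 m1).mul h4
    have h6 : MonoidAlgebra.of F _ (M.map φ) * (2 + MonoidAlgebra.of F _ (M.map φ).transpose) =
        1 + MonoidAlgebra.of F _ (M.map φ) + MonoidAlgebra.of F _ (N.map φ) := by
      rw [mul_add, ← map_mul, m2, map_one, ← h1, mul_two]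
      abel
    rw [h6] at h5
    exact h5

/-- Surjectivity for matrices in a finite `p`-group. -/
theorem Top_surj_of_pgroup {F : Type} [CommRing F] {M N : Matrix (Fin 3) (Fin 3) F} {p : ℕ}
    (hp : p.Prime) (h3 : p ≠ 3) (hpF : (p : F) = 0) (G : Subgroup (GL (Fin 3) F))
    (hfin : Finite G) (hG : IsPGroup p G) {g h : GL (Fin 3) F} (hg : g ∈ G) (hh : h ∈ G)
    (hgM : (g : Matrix (Fin 3) (Fin 3) F) = M) (hhN : (h : Matrix (Fin 3) (Fin 3) F) = N) :
    Function.Surjective (Top M N) := by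
  haveI : Fact p.Prime := ⟨hp⟩
  intro y
  let θ : G →* Module.End F (MvPolynomial (Fin 3) F) :=
    { toFun := fun a => (sb (((a : GL (Fin 3) F)⁻¹ : GL (Fin 3) F) :
        Matrix (Fin 3) (Fin 3) F)).toLinearMap
      map_one' := by
        refine LinearMap.ext fun q => ?_
        change sb (((1 : GL (Fin 3) F)⁻¹ : GL (Fin 3) F) : Matrix (Fin 3) (Fin 3) F) q = q
        rw [inv_one, Units.val_one, sb_one]
      map_mul' := fun a b => by
        refine LinearMap.ext fun q => ?_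
        change sb ((((a : GL (Fin 3) F) * (b : GL (Fin 3) F))⁻¹ : GL (Fin 3) F) :
          Matrix (Fin 3) (Fin 3) F) q = sb (((a : GL (Fin 3) F)⁻¹ : GL (Fin 3) F) :
            Matrix (Fin 3) (Fin 3) F) (sb (((b : GL (Fin 3) F)⁻¹ : GL (Fin 3) F) :
            Matrix (Fin 3) (Fin 3) F) q)
        rw [sb_sb, mul_inv_rev, Units.val_mul] }
  have hp0 : ∀ w : MvPolynomial (Fin 3) F, (p : F) • w = 0 := by
    intro w
    rw [hpF, zero_smul]
  obtain ⟨w, hw⟩ := pgroup_surj hG h3 (⟨g, hg⟩ : G)⁻¹ (⟨h, hh⟩ : G)⁻¹ _ _ θ hp0 le_rfl y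
  refine ⟨w, ?_⟩
  rw [hw]
  change w + sb M w + sb N w = w + sb ((((⟨g, hg⟩ : G)⁻¹ : G) : GL (Fin 3) F)⁻¹ :
    GL (Fin 3) F).1 w + sb ((((⟨h, hh⟩ : G)⁻¹ : G) : GL (Fin 3) F)⁻¹ : GL (Fin 3) F).1 w
  rw [Subgroup.coe_inv, Subgroup.coe_inv, inv_inv, inv_inv, hgM, hhN]

/-- **Reductions in a finite `p`-group.** -/
theorem pgroup_crit (φ : R →+* F) (hφ : Function.Surjective φ)
    (hinj : Function.Injective (algebraMap R ℝ)) {ρ σ : E3 ≃ₗᵢ[ℝ] E3}
    {M N : Matrix (Fin 3) (Fin 3) R} (hM : IsMat ρ M) (hN : IsMat σ N) {A : Set E3}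
    (hA : Div3 ρ σ A) {p : ℕ} (hp : p.Prime) (h3 : p ≠ 3) (hpF : (p : F) = 0)
    (G : Subgroup (GL (Fin 3) F)) (hfin : Finite G) (hG : IsPGroup p G)
    {g h : GL (Fin 3) F} (hg : g ∈ G) (hh : h ∈ G) (hgM : (g : Matrix (Fin 3) (Fin 3) F) = M.map φ)
    (hhN : (h : Matrix (Fin 3) (Fin 3) F) = N.map φ) : False :=
  crit_set φ hφ hinj hM hN (Top_surj_of_pgroup hp h3 hpF G hfin hG hg hh hgM hhN) A hA

end

end Pool.Agent.Lib.MP_fdbf44_an
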