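import Pool.Agent.Lib.MP_fdbf44_an.Inf

/-! The group of the symmetries of a piece of a measurable division of the sphere is finite. -/

open MeasureTheory Metric Set Filter Topology

namespace Pool.Agent.Lib.MP_fdbf44_an

noncomputable section

theorem pow_close {w : ℂ} (hw : ‖w‖ = 1) (hw1 : w ≠ 1) (φ : ℝ) :
    ∃ n : ℤ, ‖w ^ n - Complex.exp (Complex.I * φ)‖ ≤ |Complex.arg w| := by
  set θ : ℝ := Complex.arg w with hθ
  have h1 : w = Complex.exp (Complex.I * θ) := by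
    have h2 := Complex.norm_mul_exp_arg_mul_I w
    rw [hw, Complex.ofReal_one, one_mul, mul_comm] at h2
    exact h2.symm
  have hθ0 : θ ≠ 0 := by
    intro h
    rw [h, Complex.ofReal_zero, mul_zero, Complex.exp_zero] at h1
    exact hw1 h1
  refine ⟨⌊φ / θ⌋, ?_⟩
  set n : ℤ := ⌊φ / θ⌋ with hn
  have h2 : w ^ n = Complex.exp (Complex.I * ((n * θ : ℝ) : ℂ)) := by
    rw [h1, ← Complex.exp_int_mul]
    congr 1
    push_cast
    ring
  have h3 : w ^ n - Complex.exp (Complex.I * φ) =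
      Complex.exp (Complex.I * φ) * (Complex.exp (Complex.I * ((n * θ - φ : ℝ) : ℂ)) - 1) := by
    rw [h2, mul_sub, mul_one, ← Complex.exp_add]
    congr 2
    push_cast
    ring
  have h4 : ‖Complex.exp (Complex.I * φ)‖ = 1 := by
    rw [mul_comm]
    exact Complex.norm_exp_ofReal_mul_I φ
  rw [h3, norm_mul, h4, one_mul]
  refine Real.norm_exp_I_mul_ofReal_sub_one_le.trans ?_
  have h5 : (n : ℝ) * θ - φ = (n - φ / θ) * θ := by
    rw [sub_mul, div_mul_cancel₀ _ hθ0]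
  rw [h5, norm_mul, Real.norm_eq_abs, Real.norm_eq_abs]
  have h6 : |(n : ℝ) - φ / θ| ≤ 1 := by
    have h7 := Int.floor_le (φ / θ)
    have h8 := Int.lt_floor_add_one (φ / θ)
    rw [abs_le]
    constructor <;> linarith
  calc |(n : ℝ) - φ / θ| * |θ| ≤ 1 * |θ| := mul_le_mul_of_nonneg_right h6 (abs_nonneg _)
    _ = |θ| := one_mul _

/-- the error bound for the approximation of points by the orbit of a rotation -/
def err (x : E3) (a θ : ℝ) : ℝ := a ^ 2 + (‖x‖ * |θ| + Real.sqrt (2 * ‖x‖ * |a|)) ^ 2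

theorem rot_close {b : OrthonormalBasis (Fin 3) ℝ E3} {τ : LI} {w : ℂ} (h : IsRot b τ w)
    (hw : ‖w‖ = 1) (hw1 : w ≠ 1) {x y : E3} (hn : ‖x‖ = ‖y‖) :
    ∃ n : ℤ, ‖(τ ^ n) x - y‖ ^ 2 ≤
      err x (inner ℝ (b 0) x - inner ℝ (b 0) y) (Complex.arg w) := by
  have hw0 : w ≠ 0 := by
    rintro rfl
    rw [norm_zero] at hw
    exact zero_ne_one hw
  obtain ⟨n, hn'⟩ := pow_close hw hw1 (Complex.arg (zc b y) - Complex.arg (zc b x))
  refine ⟨n, ?_⟩
  set s : ℝ := inner ℝ (b 0) x with hs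
  set t : ℝ := inner ℝ (b 0) y with ht
  set X : ℂ := zc b x with hX
  set Y : ℂ := zc b y with hY
  have h1 := h.zpow hw0 n x
  have h2 := norm_sq_coord b ((τ ^ n) x - y)
  rw [inner_sub_right, h1.1, zc_sub, h1.2, ← hs, ← ht, ← hX, ← hY] at h2
  have h3 := norm_sq_coord b x
  have h4 := norm_sq_coord b y
  rw [← hs, ← hX] at h3
  rw [← ht, ← hY] at h4
  have hXx : ‖X‖ ≤ ‖x‖ := by
    have h5 : ‖X‖ ^ 2 ≤ ‖x‖ ^ 2 := by nlinarith [sq_nonneg s]
    exact (pow_le_pow_iff_left₀ (norm_nonneg _) (norm_nonneg _) two_ne_zero).1 h5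
  have hsx : |s| ≤ ‖x‖ := by
    have h5 : |s| ^ 2 ≤ ‖x‖ ^ 2 := by
      rw [sq_abs]
      nlinarith [sq_nonneg ‖X‖]
    exact (pow_le_pow_iff_left₀ (abs_nonneg _) (norm_nonneg _) two_ne_zero).1 h5
  have htx : |t| ≤ ‖x‖ := by
    have h5 : |t| ^ 2 ≤ ‖x‖ ^ 2 := by
      rw [sq_abs, hn]
      nlinarith [sq_nonneg ‖Y‖]
    exact (pow_le_pow_iff_left₀ (abs_nonneg _) (norm_nonneg _) two_ne_zero).1 h5
  have hXY : |‖X‖ - ‖Y‖| ≤ Real.sqrt (2 * ‖x‖ * |s - t|) := by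
    refine Real.abs_le_sqrt ?_
    have h5 : ‖X‖ ^ 2 - ‖Y‖ ^ 2 = (t - s) * (t + s) := by
      rw [hn] at h3
      nlinarith
    have h6 : (‖X‖ - ‖Y‖) ^ 2 ≤ |‖X‖ ^ 2 - ‖Y‖ ^ 2| := by
      have h7 : |‖X‖ ^ 2 - ‖Y‖ ^ 2| = |‖X‖ - ‖Y‖| * (‖X‖ + ‖Y‖) := by
        have h8 : ‖X‖ ^ 2 - ‖Y‖ ^ 2 = (‖X‖ - ‖Y‖) * (‖X‖ + ‖Y‖) := by ring
        rw [h8, abs_mul, abs_of_nonneg (add_nonneg (norm_nonneg X) (norm_nonneg Y))]
      rw [h7, ← sq_abs, pow_two]
      refine mul_le_mul_of_nonneg_left ?_ (abs_nonneg _)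
      rw [abs_le]
      constructor <;> linarith [norm_nonneg X, norm_nonneg Y]
    refine h6.trans ?_
    rw [h5, abs_mul, abs_sub_comm t s, mul_comm]
    refine mul_le_mul_of_nonneg_right ?_ (abs_nonneg _)
    calc |t + s| ≤ |t| + |s| := abs_add_le t s
      _ ≤ 2 * ‖x‖ := by linarith
  have hmain : ‖w ^ n * X - Y‖ ≤ ‖x‖ * |Complex.arg w| + Real.sqrt (2 * ‖x‖ * |s - t|) := by
    have e1 : X = ‖X‖ * Complex.exp (Complex.arg X * Complex.I) :=
      (Complex.norm_mul_exp_arg_mul_I X).symm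
    have e2 : Y = ‖Y‖ * Complex.exp (Complex.arg Y * Complex.I) :=
      (Complex.norm_mul_exp_arg_mul_I Y).symm
    have e3 : Complex.exp (Complex.arg Y * Complex.I) = Complex.exp (Complex.arg X * Complex.I) *
        Complex.exp (Complex.I * ((Complex.arg Y - Complex.arg X : ℝ) : ℂ)) := by
      rw [← Complex.exp_add]
      congr 1
      push_cast
      ring
    have e4 : w ^ n * X - Y = ((‖X‖ : ℂ) * Complex.exp (Complex.arg X * Complex.I)) *
        (w ^ n - Complex.exp (Complex.I * ((Complex.arg Y - Complex.arg X : ℝ) : ℂ))) +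
        ((‖X‖ : ℂ) - ‖Y‖) * Complex.exp (Complex.arg Y * Complex.I) := by
      conv_lhs => rw [e1, e2]
      rw [e3]
      ring
    have e5 : ‖Complex.exp (Complex.arg Y * Complex.I)‖ = 1 := Complex.norm_exp_ofReal_mul_I _
    rw [e4]
    refine (norm_add_le _ _).trans (add_le_add ?_ ?_)
    · rw [norm_mul, ← e1]
      exact mul_le_mul hXx hn' (norm_nonneg _) (norm_nonneg _)
    · rw [norm_mul, e5, mul_one, ← Complex.ofReal_sub, Complex.norm_real, Real.norm_eq_abs]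
      exact hXY
  rw [h2]
  unfold err
  refine add_le_add le_rfl (pow_le_pow_left₀ (norm_nonneg _) hmain 2)

theorem err_tendsto (x : E3) {ι : Type*} {l : Filter ι} {a θ : ι → ℝ} (ha : Tendsto a l (𝓝 0))
    (hθ : Tendsto θ l (𝓝 0)) : Tendsto (fun k => err x (a k) (θ k)) l (𝓝 0) := by
  have h1 : Continuous fun p : ℝ × ℝ => err x p.1 p.2 := by
    unfold err
    fun_prop
  have h2 : err x 0 0 = 0 := by
    unfold err
    rw [abs_zero, mul_zero, mul_zero, Real.sqrt_zero]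
    norm_num
  have h3 := (h1.tendsto (0, 0)).comp (ha.prodMk_nhds hθ)
  have h4 : err x ((0, 0) : ℝ × ℝ).1 ((0, 0) : ℝ × ℝ).2 = 0 := h2
  rw [h4] at h3
  exact h3

/-- a linear isometry which is close to the identity is a rotation by a small angle -/
theorem rot_of_close {τ : LI} (h1 : τ ≠ 1) {δ : ℝ} (hδ : δ < 1) (h : ∀ x, ‖τ x - x‖ ≤ δ * ‖x‖) :
    ∃ (b : OrthonormalBasis (Fin 3) ℝ E3) (w : ℂ), ‖w‖ = 1 ∧ w ≠ 1 ∧ ‖w - 1‖ ≤ δ ∧ IsRot b τ w := by
  obtain ⟨u, hu, hu'⟩ := exists_axis τ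
  have hτu : τ u = u := by
    rcases hu' with h2 | h2
    · exact h2
    · exfalso
      have h3 := h u
      have h4 : τ u - u = -((2 : ℝ) • u) := by
        rw [h2, two_smul]
        abel
      rw [h4, norm_neg, norm_smul, hu, Real.norm_eq_abs, abs_of_pos two_pos] at h3
      linarith
  have hτ2 : τ ^ 2 ≠ 1 := by
    intro h2
    apply h1
    ext1 x
    change τ x = x
    have h3 : τ (τ x) = x := by
      have h4 : (τ ^ 2) x = τ (τ x) := by
        rw [pow_two]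
        rfl
      rw [← h4, h2]
      rfl
    have h4 := h (τ x - x)
    have h5 : τ (τ x - x) - (τ x - x) = -((2 : ℝ) • (τ x - x)) := by
      rw [map_sub, h3, two_smul]
      abel
    rw [h5, norm_neg, norm_smul, Real.norm_eq_abs, abs_of_pos two_pos] at h4
    have h6 : ‖τ x - x‖ = 0 := by nlinarith [norm_nonneg (τ x - x)]
    exact sub_eq_zero.1 (norm_eq_zero.1 h6)
  obtain ⟨b, hb⟩ := exists_basis hu
  obtain ⟨w, hw, hrot⟩ := isRot_of_fix b τ (by rw [hb, hτu]) hτ2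
  refine ⟨b, w, hw, ?_, ?_, hrot⟩
  · rintro rfl
    apply h1
    ext1 x
    change τ x = x
    have h2 := hrot x
    rw [one_mul] at h2
    exact eq_of_coord b h2.1 h2.2
  · have h2 := h (b 1)
    rw [b.norm_eq_one, mul_one] at h2
    refine le_trans ?_ h2
    have h3 := norm_sq_coord b (τ (b 1) - b 1)
    have h4 : zc b (b 1) = 1 := by
      apply Complex.ext
      · change inner ℝ (b 1) (b 1) = (1 : ℝ)
        rw [real_inner_self_eq_norm_sq, b.norm_eq_one, one_pow]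
      · change inner ℝ (b 2) (b 1) = (0 : ℝ)
        exact b.orthonormal.2 (by decide)
    rw [zc_sub, (hrot _).2, h4, mul_one] at h3
    have h5 : ‖w - 1‖ ^ 2 ≤ ‖τ (b 1) - b 1‖ ^ 2 := by
      rw [h3]
      nlinarith [sq_nonneg (inner ℝ (b 0) (τ (b 1) - b 1) : ℝ)]
    exact (pow_le_pow_iff_left₀ (norm_nonneg _) (norm_nonneg _) two_ne_zero).1 h5

/-- an infinite group of linear isometries contains elements close to the identity -/
theorem exists_close (H : Subgroup LI) (hH : (H : Set LI).Infinite) {δ : ℝ} (hδ : 0 < δ) :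
    ∃ τ ∈ H, τ ≠ 1 ∧ ∀ x, ‖τ x - x‖ ≤ δ * ‖x‖ := by
  let b := EuclideanSpace.basisFun (Fin 3) ℝ
  let f : LI → (Fin 3 → E3) := fun τ k => τ (b k)
  have hK : IsCompact (closedBall (0 : Fin 3 → E3) 1) := isCompact_closedBall _ _
  have hfK : ∀ τ, f τ ∈ closedBall (0 : Fin 3 → E3) 1 := by
    intro τ
    rw [mem_closedBall_zero_iff, pi_norm_le_iff_of_nonneg zero_le_one]
    intro k
    change ‖τ (b k)‖ ≤ 1
    rw [τ.norm_map, b.norm_eq_one]
  obtain ⟨t, -, htf, ht⟩ := hK.finite_cover_balls (show 0 < δ / 6 by positivity)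
  have h1 : ∀ τ : LI, ∃ c ∈ t, f τ ∈ ball c (δ / 6) := by
    intro τ
    have h2 := ht (hfK τ)
    rw [mem_iUnion₂] at h2
    obtain ⟨c, hc, hc'⟩ := h2
    exact ⟨c, hc, hc'⟩
  choose c hc hc' using h1
  obtain ⟨τ₁, h₁, τ₂, h₂, hne, heq⟩ := hH.exists_ne_map_eq_of_mapsTo (f := c) (t := t)
    (fun τ _ => hc τ) htf
  have h3 : ∀ k, ‖τ₁ (b k) - τ₂ (b k)‖ ≤ δ / 3 := by
    intro k
    have h4 := hc' τ₁
    have h5 := hc' τ₂
    rw [heq, mem_ball] at h4
    rw [mem_ball] at h5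
    have h6 : dist (f τ₁) (f τ₂) ≤ δ / 3 := by
      have h7 := dist_triangle_right (f τ₁) (f τ₂) (c τ₂)
      linarith
    have h7 := (dist_le_pi_dist (f τ₁) (f τ₂) k).trans h6
    rw [dist_eq_norm] at h7
    exact h7
  have h4 : ∀ x, ‖τ₁ x - τ₂ x‖ ≤ δ * ‖x‖ := by
    intro x
    have h5 : τ₁ x - τ₂ x = ∑ k, inner ℝ (b k) x • (τ₁ (b k) - τ₂ (b k)) := by
      conv_lhs => rw [← b.sum_repr' x]
      rw [map_sum, map_sum, ← Finset.sum_sub_distrib]
      refine Finset.sum_congr rfl fun k _ => ?_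
      rw [τ₁.map_smul, τ₂.map_smul, smul_sub]
    rw [h5]
    refine (norm_sum_le _ _).trans ?_
    have h6 : ∀ k ∈ (Finset.univ : Finset (Fin 3)),
        ‖(inner ℝ (b k) x : ℝ) • (τ₁ (b k) - τ₂ (b k))‖ ≤ ‖x‖ * (δ / 3) := by
      intro k _
      rw [norm_smul]
      refine mul_le_mul ?_ (h3 k) (norm_nonneg _) (norm_nonneg _)
      have h7 := abs_real_inner_le_norm (b k) x
      rw [b.norm_eq_one, one_mul] at h7
      exact h7
    refine (Finset.sum_le_sum h6).trans ?_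
    rw [Finset.sum_const, Finset.card_univ, Fintype.card_fin, nsmul_eq_mul]
    push_cast
    linarith
  refine ⟨τ₂⁻¹ * τ₁, H.mul_mem (H.inv_mem h₂) h₁, ?_, fun x => ?_⟩
  · intro h
    exact hne (inv_mul_eq_one.1 h).symm
  · have h5 : τ₂ ((τ₂⁻¹ * τ₁) x - x) = τ₁ x - τ₂ x := by
      rw [map_sub]
      congr 1
      exact τ₂.apply_symm_apply _
    rw [← τ₂.norm_map, h5]
    exact h4 x

/-- the masses of the cone over a piece are preserved by a finite group only -/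
theorem MP_finite {ρ σ : LI} {A : Set E3} (hA : Dv ρ σ A) : (MP (cone A) : Set LI).Finite := by
  by_contra hinf
  have h1 : ∀ k : ℕ, ∃ τ ∈ MP (cone A), τ ≠ 1 ∧ ∀ x, ‖τ x - x‖ ≤ 1 / ((k : ℝ) + 2) * ‖x‖ :=
    fun k => exists_close _ hinf (by positivity)
  choose τ hτ hτ1 hτ2 using h1
  have hlt : ∀ k : ℕ, 1 / ((k : ℝ) + 2) < 1 := by
    intro k
    rw [div_lt_one (by positivity)]
    have : (0 : ℝ) ≤ k := Nat.cast_nonneg k
    linarith
  have h2 : ∀ k : ℕ, ∃ (b : OrthonormalBasis (Fin 3) ℝ E3) (w : ℂ), ‖w‖ = 1 ∧ w ≠ 1 ∧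
      ‖w - 1‖ ≤ 1 / ((k : ℝ) + 2) ∧ IsRot b (τ k) w :=
    fun k => rot_of_close (hτ1 k) (hlt k) (hτ2 k)
  choose b w hw hw1 hw2 hrot using h2
  have hwlim : Tendsto w atTop (𝓝 1) := by
    rw [tendsto_iff_norm_sub_tendsto_zero]
    refine squeeze_zero (fun _ => norm_nonneg _) hw2 ?_
    have h3 : Tendsto (fun k : ℕ => ((k : ℝ) + 2)) atTop atTop :=
      tendsto_atTop_add_const_right _ _ tendsto_natCast_atTop_atTop
    exact (tendsto_const_nhds.div_atTop h3)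
  have harg : Tendsto (fun k => Complex.arg (w k)) atTop (𝓝 0) := by
    have h3 : ContinuousAt Complex.arg 1 := Complex.continuousAt_arg (by simp)
    have h4 := h3.tendsto.comp hwlim
    rw [Complex.arg_one] at h4
    exact h4
  have hu : ∀ k, b k 0 ∈ sphere (0 : E3) 1 := by
    intro k
    rw [mem_sphere_zero_iff_norm, (b k).norm_eq_one]
  obtain ⟨u, hu1, φ, hφ, hlim⟩ := (isCompact_sphere (0 : E3) 1).tendsto_subseq hu
  rw [mem_sphere_zero_iff_norm] at hu1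
  have hm := cone_null hA.1
  refine no_circle hA hu1 fun x y hn hi hx => Dn_le (fun r _ => ?_) hx
  refine mass_le hm (fun g : MP (cone A) => (g : LI) x) (fun g r => g.2 x r) (fun ε hε => ?_) r
  have h3 : Tendsto (fun k => inner ℝ (b (φ k) 0) x - inner ℝ (b (φ k) 0) y) atTop (𝓝 (0 : ℝ)) := by
    have h4 : Tendsto (fun k => b (φ k) 0) atTop (𝓝 u) := hlim
    have h5 : Tendsto (fun k => inner ℝ (b (φ k) 0) x - inner ℝ (b (φ k) 0) y) atTop
        (𝓝 (inner ℝ u x - inner ℝ u y : ℝ)) :=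
      (Filter.Tendsto.inner h4 tendsto_const_nhds).sub (Filter.Tendsto.inner h4 tendsto_const_nhds)
    rw [hi, sub_self] at h5
    exact h5
  have h4 := err_tendsto x h3 (harg.comp hφ.tendsto_atTop)
  obtain ⟨k, hk⟩ := (h4.eventually (gt_mem_nhds (show (0 : ℝ) < ε ^ 2 by positivity))).exists
  obtain ⟨n, hn'⟩ := rot_close (hrot (φ k)) (hw (φ k)) (hw1 (φ k)) hn
  refine ⟨⟨τ (φ k) ^ n, Subgroup.zpow_mem _ (hτ (φ k)) n⟩, ?_⟩
  have h5 : ‖(τ (φ k) ^ n) x - y‖ ^ 2 < ε ^ 2 := lt_of_le_of_lt hn' hk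
  exact (pow_lt_pow_iff_left₀ (norm_nonneg _) hε.le two_ne_zero).1 h5

/-- The group of the linear isometries which preserve a piece of a measurable division up to a null
set is finite. -/
theorem sym_finite {ρ σ : LI} {A : Set E3} (hA : Dv ρ σ A) :
    {τ : LI | ∀ᵐ x : S2 ∂mu, (τ x ∈ A ↔ (x : E3) ∈ A)}.Finite :=
  (MP_finite hA).subset fun _ hτ => mem_MP (inv_cone hτ)

end

end Pool.Agent.Lib.MP_fdbf44_an
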