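import Pool.Agent.Lib.MP_fdbf44_an.Sym

/-! A piece of a measurable division of the sphere has no symmetry of infinite order; no exact
division has pieces exchanged by a rotation of order three. -/

open MeasureTheory Metric Set Filter Topology

namespace Pool.Agent.Lib.MP_fdbf44_an

noncomputable section

/-- the linear isometries which preserve the masses of `S` in all closed balls -/
def MP (S : Set E3) : Subgroup LI where
  carrier := {τ | ∀ (x : E3) (r : ℝ), (volume : Measure E3) (S ∩ closedBall (τ x) r) =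
    volume (S ∩ closedBall x r)}
  one_mem' := fun _ _ => rfl
  mul_mem' := by
    intro τ τ' h h' x r
    change (volume : Measure E3) (S ∩ closedBall (τ (τ' x)) r) = _
    rw [h, h']
  inv_mem' := by
    intro τ h x r
    have h1 := h (τ⁻¹ x) r
    have h2 : τ (τ⁻¹ x) = x := τ.apply_symm_apply x
    rw [h2] at h1
    exact h1.symm

theorem mem_MP {S : Set E3} {τ : LI} (h : ∀ᵐ x : E3, (τ x ∈ S ↔ x ∈ S)) : τ ∈ MP S := by
  intro x r
  rw [← vol_preimage τ (S ∩ closedBall (τ x) r), preimage_inter, τ.preimage_closedBall,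
    τ.symm_apply_apply]
  refine measure_congr ?_
  filter_upwards [h] with y hy
  refine propext ⟨fun h => ⟨hy.1 h.1, h.2⟩, fun h => ⟨hy.2 h.1, h.2⟩⟩

theorem inv_cone {A : Set E3} {τ : LI} (h : ∀ᵐ x : S2 ∂mu, (τ x ∈ A ↔ (x : E3) ∈ A)) :
    ∀ᵐ x : E3, (τ x ∈ cone A ↔ x ∈ cone A) := by
  filter_upwards [ae_cone (P := fun x => (τ x ∈ A ↔ x ∈ A)) h, ae_ne_zero] with x hx h0
  have h1 := hx h0
  rw [τ.map_smul] at h1
  rw [mem_cone, mem_cone, τ.norm_map]
  have h2 : τ x ≠ 0 ↔ x ≠ 0 := not_congr τ.map_eq_zero_iff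
  rw [h2, h1]

theorem no_inf {ρ σ τ : LI} {A : Set E3} (hA : Dv ρ σ A)
    (h : ∀ᵐ x : S2 ∂mu, (τ x ∈ A ↔ (x : E3) ∈ A)) (hτ : ∀ n : ℕ, 0 < n → τ ^ n ≠ 1) : False := by
  obtain ⟨u, hu, hu'⟩ := exists_axis τ
  have hτ2 : (τ ^ 2) u = u := by
    have h1 : (τ ^ 2) u = τ (τ u) := by
      rw [pow_two]
      rfl
    rcases hu' with h2 | h2
    · rw [h1, h2, h2]
    · rw [h1, h2, map_neg, h2, neg_neg]
  have hinf : ∀ n : ℕ, 0 < n → (τ ^ 2) ^ n ≠ 1 := by
    intro n hn
    rw [← pow_mul]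
    exact hτ _ (by omega)
  have hmem : τ ∈ MP (cone A) := mem_MP (inv_cone h)
  have hmem2 : ∀ n : ℤ, (τ ^ 2) ^ n ∈ MP (cone A) := fun n =>
    Subgroup.zpow_mem _ (Subgroup.pow_mem _ hmem 2) n
  have hm := cone_null hA.1
  refine no_circle hA hu fun x y hn hi hx => Dn_le (fun r _ => ?_) hx
  exact mass_le hm (fun n : ℤ => ((τ ^ 2) ^ n) x) (fun n r => hmem2 n x r)
    (fun ε hε => orbit_dense hu hτ2 hinf hn hi ε hε) r

theorem mem_pcs_one {ρ σ : LI} {A : Set E3} {x : E3} : x ∈ pcs ρ σ A 1 ↔ ∃ a ∈ A, ρ a = x :=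
  Iff.rfl

theorem mem_pcs_two {ρ σ : LI} {A : Set E3} {x : E3} : x ∈ pcs ρ σ A 2 ↔ ∃ a ∈ A, σ a = x :=
  Iff.rfl

theorem mem_pcs_zero {ρ σ : LI} {A : Set E3} {x : E3} : x ∈ pcs ρ σ A 0 ↔ x ∈ A := Iff.rfl

/-- If `R ^ 3 = 1`, then the sphere is not the disjoint union of `A`, `R A`, `σ A` for any measurable
set `A`. -/
theorem no_three {R σ : LI} {A : Set E3} (hR : R ^ 3 = 1) (hm : NM A)
    (h : ∀ x : S2, ∃! i : Fin 3, (x : E3) ∈ pcs R σ A i) : False := by
  have huniq : ∀ (x : S2) (i j : Fin 3), (x : E3) ∈ pcs R σ A i → (x : E3) ∈ pcs R σ A j → i = j := by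
    intro x i j hi hj
    obtain ⟨k, -, hk⟩ := h x
    exact (hk i hi).trans (hk j hj).symm
  have hR3 : ∀ x, R (R (R x)) = x := by
    intro x
    have h1 : (R ^ 3) x = R (R (R x)) := by
      rw [pow_succ, pow_two]
      rfl
    rw [← h1, hR]
    rfl
  have hdisj : ∀ a ∈ A, a ∈ sphere (0 : E3) 1 → R a ∉ A := by
    intro a ha has hRa
    have h1 : R a ∈ sphere (0 : E3) 1 := mem_mv R ⟨a, has⟩
    exact absurd (huniq ⟨R a, h1⟩ 0 1 hRa ⟨a, ha, rfl⟩) (by decide)
  have hsub : ∀ a ∈ A, a ∈ sphere (0 : E3) 1 → σ.symm (R (R a)) ∈ A := by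
    intro a ha has
    have h1 : R a ∈ sphere (0 : E3) 1 := mem_mv R ⟨a, has⟩
    have h2 : R (R a) ∈ sphere (0 : E3) 1 := mem_mv R ⟨R a, h1⟩
    obtain ⟨i, hi, -⟩ := h ⟨R (R a), h2⟩
    fin_cases i
    · exfalso
      have h3 : R (R a) ∈ A := hi
      have h4 := hdisj _ h3 h2
      rw [hR3] at h4
      exact h4 ha
    · exfalso
      obtain ⟨b, hb, hb'⟩ := mem_pcs_one.1 hi
      have h3 : b = R a := R.injective hb'
      rw [h3] at hb
      exact hdisj a ha has hb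
    · obtain ⟨b, hb, hb'⟩ := mem_pcs_two.1 hi
      have h3 : σ.symm (R (R a)) = b := by
        have h4 : R (R a) = σ b := hb'.symm
        rw [h4, σ.symm_apply_apply]
      rw [h3]
      exact hb
  obtain ⟨u, hu, hu'⟩ := exists_axis R
  have hRu : R u = u := by
    rcases hu' with h1 | h1
    · exact h1
    · exfalso
      have h2 := hR3 u
      rw [h1, map_neg, h1, neg_neg, h1] at h2
      have h3 : u = 0 := by
        have h4 : (2 : ℝ) • u = 0 := by
          rw [two_smul]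
          nth_rewrite 1 [← h2]
          exact neg_add_cancel u
        exact (smul_eq_zero.1 h4).resolve_left two_ne_zero
      rw [h3, norm_zero] at hu
      exact zero_ne_one hu
  have hus : u ∈ sphere (0 : E3) 1 := mem_sphere_zero_iff_norm.2 hu
  have huA : u ∉ A := by
    intro h1
    have h2 := hdisj u h1 hus
    rw [hRu] at h2
    exact h2 h1
  have huσ : σ.symm (R (R u)) ∈ A := by
    rw [hRu, hRu]
    obtain ⟨i, hi, -⟩ := h ⟨u, hus⟩
    fin_cases i
    · exact absurd hi huA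
    · exfalso
      obtain ⟨b, hb, hb'⟩ := mem_pcs_one.1 hi
      have h3 : b = u := by
        apply R.injective
        rw [hRu]
        exact hb'
      rw [h3] at hb
      exact huA hb
    · obtain ⟨b, hb, hb'⟩ := mem_pcs_two.1 hi
      have h3 : σ.symm u = b := by
        have h4 : u = σ b := hb'.symm
        rw [h4, σ.symm_apply_apply]
      rw [h3]
      exact hb
  set τ : LI := σ⁻¹ * (R * R) with hτ
  have hτ' : ∀ x, τ x = σ.symm (R (R x)) := fun _ => rfl
  have horb : ∀ n : ℕ, (τ ^ (n + 1)) u ∈ A ∧ (τ ^ (n + 1)) u ∈ sphere (0 : E3) 1 := by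
    intro n
    refine ⟨?_, mem_mv (τ ^ (n + 1)) ⟨u, hus⟩⟩
    induction n with
    | zero =>
      rw [zero_add, pow_one, hτ']
      exact huσ
    | succ n ih =>
      rw [pow_succ']
      have h1 : (τ * τ ^ (n + 1)) u = τ ((τ ^ (n + 1)) u) := rfl
      rw [h1, hτ']
      exact hsub _ ih (mem_mv (τ ^ (n + 1)) ⟨u, hus⟩)
  refine no_inf (ρ := R) (σ := σ) (τ := τ) ⟨hm, Filter.Eventually.of_forall h⟩ ?_ ?_
  · have h1 : (Subtype.val : S2 → E3) ⁻¹' A ⊆ (rsph τ) ⁻¹' ((Subtype.val : S2 → E3) ⁻¹' A) := by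
      intro x hx
      exact hsub x hx x.2
    have h2 : mu ((rsph τ) ⁻¹' ((Subtype.val : S2 → E3) ⁻¹' A)) =
        mu ((Subtype.val : S2 → E3) ⁻¹' A) :=
      (rsph_measurePreserving τ).measure_preimage hm
    have h3 := ae_eq_of_subset_of_measure_ge h1 h2.le hm (measure_ne_top _ _)
    filter_upwards [h3] with x hx
    have h4 : ((x : E3) ∈ A) = (τ x ∈ A) := hx
    rw [h4]
  · intro n hn hcon
    obtain ⟨k, rfl⟩ := Nat.exists_eq_succ_of_ne_zero hn.ne'
    have h1 := (horb k).1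
    have h2 : τ ^ (k + 1) = 1 := hcon
    rw [h2] at h1
    exact huA h1

end

end Pool.Agent.Lib.MP_fdbf44_an
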