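import Pool.Agent.Lib.MP_fdbf44_an.Stm

/-! Rotations of odd order and three linear forms permuted by a rotation of order three. -/

open MeasureTheory Metric Set

namespace Pool.Agent.Lib.MP_fdbf44_an

noncomputable section

/-- the rotation by the angle `t` about the third axis -/
def Rz (t : ℝ) : LI where
  toFun x := WithLp.toLp 2 ![Real.cos t * x 0 - Real.sin t * x 1,
    Real.sin t * x 0 + Real.cos t * x 1, x 2]
  map_add' x y := by
    ext i
    fin_cases i <;> simp <;> ring
  map_smul' c x := by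
    ext i
    fin_cases i <;> simp <;> ring
  invFun x := WithLp.toLp 2 ![Real.cos t * x 0 + Real.sin t * x 1,
    - Real.sin t * x 0 + Real.cos t * x 1, x 2]
  left_inv x := by
    ext i
    have h := Real.sin_sq_add_cos_sq t
    fin_cases i
    · simp
      linear_combination (x 0) * h
    · simp
      linear_combination (x 1) * h
    · simp
  right_inv x := by
    ext i
    have h := Real.sin_sq_add_cos_sq t
    fin_cases i
    · simp
      linear_combination (x 0) * h
    · simp
      linear_combination (x 1) * h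
    · simp
  norm_map' x := by
    rw [EuclideanSpace.norm_eq, EuclideanSpace.norm_eq]
    congr 1
    have h := Real.sin_sq_add_cos_sq t
    rw [Fin.sum_univ_three, Fin.sum_univ_three]
    simp
    linear_combination (x 0 ^ 2 + x 1 ^ 2) * h

theorem Rz_zero (t : ℝ) (x : E3) : Rz t x 0 = Real.cos t * x 0 - Real.sin t * x 1 := rfl

theorem Rz_one (t : ℝ) (x : E3) : Rz t x 1 = Real.sin t * x 0 + Real.cos t * x 1 := rfl

theorem Rz_two (t : ℝ) (x : E3) : Rz t x 2 = x 2 := rfl

theorem Rz_mul (s t : ℝ) : Rz s * Rz t = Rz (s + t) := by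
  ext x i
  rw [LinearIsometryEquiv.coe_mul, Function.comp_apply]
  fin_cases i
  · change Rz s (Rz t x) 0 = Rz (s + t) x 0
    rw [Rz_zero, Rz_zero, Rz_one, Rz_zero, Real.cos_add, Real.sin_add]
    ring
  · change Rz s (Rz t x) 1 = Rz (s + t) x 1
    rw [Rz_one, Rz_zero, Rz_one, Rz_one, Real.cos_add, Real.sin_add]
    ring
  · rfl

theorem Rz_nul : Rz 0 = 1 := by
  ext x i
  fin_cases i
  · change Rz 0 x 0 = x 0
    rw [Rz_zero, Real.cos_zero, Real.sin_zero]
    ring
  · change Rz 0 x 1 = x 1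
    rw [Rz_one, Real.cos_zero, Real.sin_zero]
    ring
  · rfl

theorem Rz_pow (t : ℝ) (n : ℕ) : Rz t ^ n = Rz (n * t) := by
  induction n with
  | zero => rw [pow_zero, Nat.cast_zero, zero_mul, Rz_nul]
  | succ n ih =>
    rw [pow_succ, ih, Rz_mul]
    congr 1
    push_cast
    ring

/-- the half turn about the line in the plane of the first and the third axis which makes the angle
`φ / 2` with the third axis -/
def Kz (φ : ℝ) : LI where
  toFun x := WithLp.toLp 2 ![- Real.cos φ * x 0 + Real.sin φ * x 2, - x 1,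
    Real.sin φ * x 0 + Real.cos φ * x 2]
  map_add' x y := by
    ext i
    fin_cases i <;> simp <;> ring
  map_smul' c x := by
    ext i
    fin_cases i <;> simp <;> ring
  invFun x := WithLp.toLp 2 ![- Real.cos φ * x 0 + Real.sin φ * x 2, - x 1,
    Real.sin φ * x 0 + Real.cos φ * x 2]
  left_inv x := by
    ext i
    have h := Real.sin_sq_add_cos_sq φ
    fin_cases i
    · simp
      linear_combination (x 0) * h
    · simp
    · simp
      linear_combination (x 2) * h
  right_inv x := by
    ext i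
    have h := Real.sin_sq_add_cos_sq φ
    fin_cases i
    · simp
      linear_combination (x 0) * h
    · simp
    · simp
      linear_combination (x 2) * h
  norm_map' x := by
    rw [EuclideanSpace.norm_eq, EuclideanSpace.norm_eq]
    congr 1
    have h := Real.sin_sq_add_cos_sq φ
    rw [Fin.sum_univ_three, Fin.sum_univ_three]
    simp
    linear_combination (x 0 ^ 2 + x 2 ^ 2) * h

theorem Kz_zero (φ : ℝ) (x : E3) : Kz φ x 0 = - Real.cos φ * x 0 + Real.sin φ * x 2 := rfl

theorem Kz_one (φ : ℝ) (x : E3) : Kz φ x 1 = - x 1 := rfl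

theorem Kz_two (φ : ℝ) (x : E3) : Kz φ x 2 = Real.sin φ * x 0 + Real.cos φ * x 2 := rfl

theorem Kz_mul (φ : ℝ) : Kz φ * Kz φ = 1 := by
  ext x i
  rw [LinearIsometryEquiv.coe_mul, Function.comp_apply]
  have h := Real.sin_sq_add_cos_sq φ
  fin_cases i
  · change Kz φ (Kz φ x) 0 = x 0
    rw [Kz_zero, Kz_zero, Kz_two]
    linear_combination (x 0) * h
  · change Kz φ (Kz φ x) 1 = x 1
    rw [Kz_one, Kz_one, neg_neg]
  · change Kz φ (Kz φ x) 2 = x 2
    rw [Kz_two, Kz_zero, Kz_two]
    linear_combination (x 2) * h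

/-! ### the three linear forms -/

def F0 (x : E3) : ℝ := x 2

def F1 (α φ : ℝ) (x : E3) : ℝ :=
  Real.sin φ * (Real.cos α * x 0 + Real.sin α * x 1) + Real.cos φ * x 2

def F2 (φ : ℝ) (x : E3) : ℝ := Real.sin φ * x 0 + Real.cos φ * x 2

/-- the product of the half turn and the rotation -/
def az (α φ : ℝ) : LI := Rz α * Kz φ

theorem az_apply (α φ : ℝ) (x : E3) : az α φ x = Rz α (Kz φ x) := rfl

variable {α φ : ℝ}

theorem F0_az (x : E3) : F0 (az α φ x) = F2 φ x := rfl

theorem F1_az (x : E3) : F1 α φ (az α φ x) = F0 x := by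
  unfold F1 F0
  rw [az_apply, Rz_zero, Rz_one, Rz_two, Kz_zero, Kz_one, Kz_two]
  have h := Real.sin_sq_add_cos_sq φ
  have h' := Real.sin_sq_add_cos_sq α
  linear_combination (Real.sin φ * (- Real.cos φ * x 0 + Real.sin φ * x 2)) * h' + (x 2) * h

theorem F2_az (h : Real.cos φ * (1 - Real.cos α) = Real.cos α) (x : E3) :
    F2 φ (az α φ x) = F1 α φ x := by
  unfold F1 F2
  rw [az_apply, Rz_zero, Rz_two, Kz_zero, Kz_one, Kz_two]
  have h1 := Real.sin_sq_add_cos_sq φ
  linear_combination (Real.sin φ * x 0 - x 2 * (1 - Real.cos φ)) * h + (x 2 * Real.cos α) * h1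

theorem F0_Rz (x : E3) : F0 (Rz α x) = F0 x := rfl

theorem F1_Rz (x : E3) : F1 α φ (Rz α x) = F2 φ x := by
  unfold F1 F2
  rw [Rz_zero, Rz_one, Rz_two]
  have h' := Real.sin_sq_add_cos_sq α
  linear_combination (Real.sin φ * x 0) * h'

theorem F_ext (hα : Real.sin α ≠ 0) (hφ : Real.sin φ ≠ 0) {x y : E3} (h0 : F0 x = F0 y)
    (h1 : F1 α φ x = F1 α φ y) (h2 : F2 φ x = F2 φ y) : x = y := by
  unfold F0 at h0
  unfold F1 at h1
  unfold F2 at h2
  have h3 : x 0 = y 0 := by
    apply mul_left_cancel₀ hφ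
    linear_combination h2 - Real.cos φ * h0
  have h4 : x 1 = y 1 := by
    apply mul_left_cancel₀ hα
    apply mul_left_cancel₀ hφ
    linear_combination h1 - Real.cos φ * h0 - (Real.sin φ * Real.cos α) * h3
  ext i
  fin_cases i
  · exact h3
  · exact h4
  · exact h0

theorem az_pow (h : Real.cos φ * (1 - Real.cos α) = Real.cos α) (hα : Real.sin α ≠ 0)
    (hφ : Real.sin φ ≠ 0) (x : E3) : az α φ (az α φ (az α φ x)) = x := by
  apply F_ext hα hφ
  · rw [F0_az, F2_az h, F1_az]
  · rw [F1_az, F0_az, F2_az h]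
  · rw [F2_az h, F1_az, F0_az]

end

end Pool.Agent.Lib.MP_fdbf44_an
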