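import Pool.Agent.Lib.MP_fdbf44_an.OdA

/-! The almost everywhere division attached to a rotation of odd order. -/

open MeasureTheory Metric Set

namespace Pool.Agent.Lib.MP_fdbf44_an

noncomputable section

/-- the angle of the rotation of order `m` -/
def anm (m : ℕ) : ℝ := Real.pi - Real.pi / m

/-- the relations between the angles -/
structure Ang (m : ℕ) (α φ : ℝ) : Prop where
  odd : Odd m
  three : 3 ≤ m
  al : α = anm m
  rel : Real.cos φ * (1 - Real.cos α) = Real.cos α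
  pos : 0 < Real.sin φ

/-- the cone over a third of the triangle around the fixed point of the rotation of order three -/
def Kc (α φ : ℝ) (x : E3) : Prop := 0 < F0 x ∧ F0 x < F1 α φ x ∧ F0 x < F2 φ x

/-- the ring of the images of this triangle -/
def Rr (α φ : ℝ) (x : E3) : Prop := ∃ i : ℕ, Kc α φ ((Rz α ^ i) x)

def Dd (α φ : ℝ) (x : E3) : Prop := (0 < F0 x ∧ ¬ Rr α φ x) ∨ (F0 x < 0 ∧ Rr α φ (-x))

/-- the piece -/
def Aa (α φ : ℝ) : Set E3 := {x | Dd α φ x ↔ Dd α φ (az α φ x)}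

variable {m : ℕ} {α φ : ℝ}

theorem Ang.mpos (h : Ang m α φ) : (0 : ℝ) < m := by
  have := h.three
  exact_mod_cast (by omega : 0 < m)

theorem Ang.psi (h : Ang m α φ) : 0 < Real.pi / m := div_pos Real.pi_pos h.mpos

theorem Ang.psi_le (h : Ang m α φ) : Real.pi / m ≤ Real.pi / 3 := by
  have h1 : (3 : ℝ) ≤ m := by exact_mod_cast h.three
  exact div_le_div_of_nonneg_left Real.pi_pos.le (by norm_num) h1

theorem Ang.mul_psi (h : Ang m α φ) : (m : ℝ) * (Real.pi / m) = Real.pi :=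
  mul_div_cancel₀ _ h.mpos.ne'

theorem Ang.cos_al (h : Ang m α φ) : Real.cos α = - Real.cos (Real.pi / m) := by
  rw [h.al, anm, Real.cos_pi_sub]

theorem Ang.sin_al (h : Ang m α φ) : Real.sin α = Real.sin (Real.pi / m) := by
  rw [h.al, anm, Real.sin_pi_sub]

theorem Ang.sin_psi (h : Ang m α φ) : 0 < Real.sin (Real.pi / m) := by
  apply Real.sin_pos_of_pos_of_lt_pi h.psi
  have := h.psi_le
  have := Real.pi_pos
  linarith

theorem Ang.cos_psi (h : Ang m α φ) : 0 < Real.cos (Real.pi / m) := by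
  apply Real.cos_pos_of_mem_Ioo
  have h1 := h.psi_le
  have h2 := Real.pi_pos
  have h3 := h.psi
  constructor <;> linarith

theorem Ang.cos_phi (h : Ang m α φ) : Real.cos φ < 0 := by
  have h1 := h.rel
  have h2 := h.cos_psi
  rw [h.cos_al] at h1
  by_contra h3
  have h4 := mul_nonneg (not_lt.1 h3) (by linarith : 0 ≤ 1 - - Real.cos (Real.pi / m))
  linarith

theorem Ang.pow (h : Ang m α φ) : Rz α ^ m = 1 := by
  obtain ⟨j, hj⟩ := h.odd
  rw [Rz_pow, h.al, anm, mul_sub, h.mul_psi]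
  have h1 : (m : ℝ) * Real.pi - Real.pi = j * (2 * Real.pi) := by
    rw [hj]
    push_cast
    ring
  rw [h1]
  ext x i
  fin_cases i
  · change Rz (j * (2 * Real.pi)) x 0 = x 0
    rw [Rz_zero, Real.cos_nat_mul_two_pi, Real.sin_eq_sin_iff.2 ⟨-j, Or.inl (by push_cast; ring)⟩ |>.trans Real.sin_zero]
    ring
  · change Rz (j * (2 * Real.pi)) x 1 = x 1
    rw [Rz_one, Real.cos_nat_mul_two_pi, Real.sin_eq_sin_iff.2 ⟨-j, Or.inl (by push_cast; ring)⟩ |>.trans Real.sin_zero]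
    ring
  · rfl

theorem Ang.mod (h : Ang m α φ) (i : ℕ) : Rz α ^ (i % m) = Rz α ^ i := by
  conv_rhs => rw [← Nat.div_add_mod i m, pow_add, pow_mul, h.pow, one_pow, one_mul]

theorem Ang.rep (h : Ang m α φ) {x : E3} (hx : Rr α φ x) :
    ∃ y : E3, ∃ j < m, Kc α φ y ∧ x = (Rz α ^ j) y := by
  obtain ⟨i, hi⟩ := hx
  have hm := h.three
  refine ⟨(Rz α ^ i) x, (m - i % m) % m, Nat.mod_lt _ (by omega), hi, ?_⟩
  rw [h.mod, ← Function.comp_apply (f := (Rz α ^ (m - i % m))), ← LinearIsometryEquiv.coe_mul,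
    ← h.mod i, ← pow_add, Nat.sub_add_cancel (Nat.mod_lt i (by omega)).le, h.pow]
  rfl

theorem Ang.Rr_Rz (h : Ang m α φ) (x : E3) : Rr α φ (Rz α x) ↔ Rr α φ x := by
  have hm := h.three
  constructor
  · rintro ⟨i, hi⟩
    refine ⟨i + 1, ?_⟩
    rw [pow_succ]
    exact hi
  · rintro ⟨i, hi⟩
    refine ⟨i + (m - 1), ?_⟩
    have h1 : (Rz α ^ (i + (m - 1))) (Rz α x) = (Rz α ^ i) x := by
      rw [← Function.comp_apply (f := (Rz α ^ (i + (m - 1)))), ← LinearIsometryEquiv.coe_mul,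
        ← pow_succ, show i + (m - 1) + 1 = i + m by omega, pow_add, h.pow, mul_one]
    rw [h1]
    exact hi

theorem Ang.Dd_Rz (h : Ang m α φ) (x : E3) : Dd α φ (Rz α x) ↔ Dd α φ x := by
  unfold Dd
  rw [F0_Rz, h.Rr_Rz, ← map_neg, h.Rr_Rz]

/-! ### the estimate on the ring -/

theorem sin_ineq (p q : ℝ) (hp : 0 ≤ Real.sin p) (hq : 0 ≤ Real.cos q) (hpq : 0 ≤ Real.cos (p + q)) :
    Real.sin (2 * q) ≤ Real.sin (2 * p) + Real.sin (2 * p + 2 * q) := by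
  have h1 : Real.sin (2 * p) + Real.sin (2 * p + 2 * q) - Real.sin (2 * q) =
      4 * Real.sin p * Real.cos q * Real.cos (p + q) := by
    rw [Real.sin_add, Real.cos_add, Real.sin_two_mul, Real.sin_two_mul, Real.cos_two_mul,
      Real.cos_two_mul]
    have e1 := Real.sin_sq_add_cos_sq p
    have e2 := Real.sin_sq_add_cos_sq q
    linear_combination (4 * Real.sin q * Real.cos q) * e1
  have h2 : 0 ≤ 4 * Real.sin p * Real.cos q * Real.cos (p + q) := by positivity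
  linarith

/-- the values at the points of the ring -/
theorem Ang.Pj (h : Ang m α φ) {y : E3} (hy : Kc α φ y) {j : ℕ} (hj : j < m) :
    (1 - Real.cos φ) * F0 y ≤
      Real.sin φ * (Real.cos (j * (Real.pi / m)) * y 0 + Real.sin (j * (Real.pi / m)) * y 1) := by
  obtain ⟨hy0, hy1, hy2⟩ := hy
  set ψ := Real.pi / m with hψ
  have hm := h.three
  have hmψ := h.mul_psi
  have hψ0 := h.psi
  have hj' : (j : ℝ) + 1 ≤ m := by exact_mod_cast hj
  have hA0 : 0 ≤ (j : ℝ) * ψ := by positivity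
  have hA1 : (j : ℝ) * ψ + ψ ≤ Real.pi := by
    have h1 := mul_le_mul_of_nonneg_right hj' hψ0.le
    linarith
  have hs1 : 0 ≤ Real.sin (j * ψ) := Real.sin_nonneg_of_nonneg_of_le_pi hA0 (by linarith)
  have hs2 : 0 ≤ Real.sin (j * ψ + ψ) := Real.sin_nonneg_of_nonneg_of_le_pi (by linarith) hA1
  have hκ : 0 < (1 - Real.cos φ) * F0 y := by
    have := h.cos_phi
    apply mul_pos _ hy0
    linarith
  have hsum : Real.sin ψ ≤ Real.sin (j * ψ) + Real.sin (j * ψ + ψ) := by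
    have h1 := sin_ineq (j * ψ / 2) (ψ / 2) (Real.sin_nonneg_of_nonneg_of_le_pi (by linarith)
      (by linarith)) (Real.cos_nonneg_of_mem_Icc ⟨by linarith, by linarith⟩)
      (Real.cos_nonneg_of_mem_Icc ⟨by linarith, by linarith⟩)
    rw [show 2 * (j * ψ / 2) = j * ψ by ring, show 2 * (ψ / 2) = ψ by ring] at h1
    exact h1
  -- the two end points
  have e0 : (1 - Real.cos φ) * F0 y ≤ Real.sin φ * y 0 := by
    unfold F2 at hy2
    unfold F0 at hy2 ⊢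
    linarith
  have e1 : (1 - Real.cos φ) * F0 y ≤ Real.sin φ * (- Real.cos ψ * y 0 + Real.sin ψ * y 1) := by
    unfold F1 at hy1
    unfold F0 at hy1 ⊢
    rw [h.cos_al, h.sin_al] at hy1
    linarith
  have hsψ := h.sin_psi
  rw [← hψ] at hsψ
  have hid : Real.sin φ * (Real.cos (j * ψ) * y 0 + Real.sin (j * ψ) * y 1) * Real.sin ψ =
      (Real.sin φ * y 0) * Real.sin (j * ψ + ψ) +
      (Real.sin φ * (- Real.cos ψ * y 0 + Real.sin ψ * y 1)) * Real.sin (j * ψ) := by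
    rw [Real.sin_add]
    ring
  have h3 := mul_le_mul_of_nonneg_right e0 hs2
  have h4 := mul_le_mul_of_nonneg_right e1 hs1
  have h5 := mul_le_mul_of_nonneg_left hsum hκ.le
  refine le_of_mul_le_mul_right ?_ hsψ
  rw [hid]
  linarith

theorem cos_even {j : ℕ} (hj : Even j) (t : ℝ) : Real.cos (j * (Real.pi - t)) = Real.cos (j * t) ∧
    Real.sin (j * (Real.pi - t)) = - Real.sin (j * t) := by
  obtain ⟨i, rfl⟩ := hj
  have h1 : ((i + i : ℕ) : ℝ) * (Real.pi - t) = (i : ℤ) * (2 * Real.pi) - ((i + i : ℕ) : ℝ) * t := by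
    push_cast
    ring
  rw [h1]
  constructor
  · rw [sub_eq_neg_add, Real.cos_add_int_mul_two_pi, Real.cos_neg]
  · rw [sub_eq_neg_add, Real.sin_add_int_mul_two_pi, Real.sin_neg]

theorem cos_odd {j : ℕ} (hj : Odd j) (t : ℝ) : Real.cos (j * (Real.pi - t)) = - Real.cos (j * t) ∧
    Real.sin (j * (Real.pi - t)) = Real.sin (j * t) := by
  obtain ⟨i, rfl⟩ := hj
  have h1 : ((2 * i + 1 : ℕ) : ℝ) * (Real.pi - t) =
      (Real.pi - ((2 * i + 1 : ℕ) : ℝ) * t) + (i : ℤ) * (2 * Real.pi) := by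
    push_cast
    ring
  rw [h1]
  constructor
  · rw [Real.cos_add_int_mul_two_pi, Real.cos_pi_sub]
  · rw [Real.sin_add_int_mul_two_pi, Real.sin_pi_sub]

theorem Ang.F2_even (h : Ang m α φ) {y : E3} (hy : Kc α φ y) {j : ℕ} (hj : j < m) (he : Even j) :
    F0 y ≤ F2 φ ((Rz α ^ j) y) := by
  have h1 := h.Pj hy hj
  rw [Rz_pow, h.al, anm]
  unfold F2
  rw [Rz_zero, Rz_two, (cos_even he _).1, (cos_even he _).2]
  unfold F0 at h1 ⊢
  linarith

theorem Ang.F2_odd (h : Ang m α φ) {y : E3} (hy : Kc α φ y) {j : ℕ} (hj : j < m) (ho : Odd j) :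
    F2 φ ((Rz α ^ j) y) < 0 := by
  have h1 := h.Pj hy hj
  have h2 := h.cos_phi
  have h3 : 0 < F0 y := hy.1
  rw [Rz_pow, h.al, anm]
  unfold F2
  rw [Rz_zero, Rz_two, (cos_odd ho _).1, (cos_odd ho _).2]
  unfold F0 at h1 h3
  have h4 := mul_pos_of_neg_of_neg h2 (neg_lt_zero.2 h3)
  nlinarith

theorem F0_pow (j : ℕ) (y : E3) : F0 ((Rz α ^ j) y) = F0 y := by
  rw [Rz_pow]
  exact F0_Rz y

theorem F1_succ (j : ℕ) (y : E3) : F1 α φ ((Rz α ^ (j + 1)) y) = F2 φ ((Rz α ^ j) y) := by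
  rw [pow_succ']
  exact F1_Rz _

/-- the signs on the ring -/
theorem Ang.ring (h : Ang m α φ) {x : E3} (hx : Rr α φ x) :
    0 < F0 x ∧ (F0 x ≤ F1 α φ x ∨ F1 α φ x < 0) ∧ (F0 x ≤ F2 φ x ∨ F2 φ x < 0) ∧
      ¬ (F1 α φ x < 0 ∧ F2 φ x < 0) := by
  obtain ⟨y, j, hj, hy, rfl⟩ := h.rep hx
  rw [F0_pow]
  have hy0 : 0 < F0 y := hy.1
  refine ⟨hy0, ?_⟩
  rcases Nat.eq_zero_or_pos j with h0 | h0
  · subst h0
    have e : (Rz α ^ 0) y = y := rfl
    rw [e]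
    refine ⟨Or.inl hy.2.1.le, Or.inl hy.2.2.le, fun hc => ?_⟩
    have := hy.2.1
    linarith [hc.1]
  · obtain ⟨i, rfl⟩ : ∃ i, j = i + 1 := ⟨j - 1, by omega⟩
    rw [F1_succ]
    rcases Nat.even_or_odd i with he | ho
    · have h1 := h.F2_even hy (by omega : i < m) he
      have h2 := h.F2_odd hy hj he.add_one
      exact ⟨Or.inl h1, Or.inr h2, fun hc => by linarith [hc.1]⟩
    · have h1 := h.F2_odd hy (by omega : i < m) ho
      have h2 := h.F2_even hy hj ho.add_one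
      exact ⟨Or.inr h1, Or.inl h2, fun hc => by linarith [hc.2]⟩

/-! ### the division -/

/-- the points in general position -/
structure Gn (α φ : ℝ) (x : E3) : Prop where
  n0 : F0 x ≠ 0
  n1 : F1 α φ x ≠ 0
  n2 : F2 φ x ≠ 0
  n01 : F0 x ≠ F1 α φ x
  n02 : F0 x ≠ F2 φ x
  n12 : F1 α φ x ≠ F2 φ x

theorem F0_neg (x : E3) : F0 (-x) = - F0 x := rfl

theorem F1_neg (x : E3) : F1 α φ (-x) = - F1 α φ x := by
  unfold F1
  rw [PiLp.neg_apply, PiLp.neg_apply, PiLp.neg_apply]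
  ring

theorem F2_neg (x : E3) : F2 φ (-x) = - F2 φ x := by
  unfold F2
  rw [PiLp.neg_apply, PiLp.neg_apply]
  ring

theorem Gn.neg {x : E3} (h : Gn α φ x) : Gn α φ (-x) := by
  obtain ⟨h0, h1, h2, h3, h4, h5⟩ := h
  refine ⟨?_, ?_, ?_, ?_, ?_, ?_⟩ <;> simp only [F0_neg, F1_neg, F2_neg, neg_ne_zero, ne_eq,
    neg_inj] <;> assumption

theorem Ang.Dd_neg {x : E3} (hx : F0 x ≠ 0) : Dd α φ (-x) ↔ ¬ Dd α φ x := by
  unfold Dd
  rw [F0_neg, neg_neg]
  rcases lt_or_gt_of_ne hx with h0 | h0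
  · have h1 : ¬ 0 < F0 x := not_lt.2 h0.le
    have h2 : 0 < - F0 x := by linarith
    have h3 : ¬ - F0 x < 0 := not_lt.2 h2.le
    tauto
  · have h1 : ¬ F0 x < 0 := not_lt.2 h0.le
    have h2 : - F0 x < 0 := by linarith
    have h3 : ¬ 0 < - F0 x := not_lt.2 h2.le
    tauto

/-- the three sets have no point in common -/
theorem Ang.not_all (h : Ang m α φ) {x : E3} (hx : Gn α φ x) :
    ¬ (Dd α φ x ∧ Dd α φ (az α φ x) ∧ Dd α φ (az α φ (az α φ x))) := by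
  rintro ⟨d0, d1, d2⟩
  obtain ⟨n0, n1, n2, n01, n02, n12⟩ := hx
  have e10 : F0 (az α φ x) = F2 φ x := F0_az x
  have e11 : F1 α φ (az α φ x) = F0 x := F1_az x
  have e12 : F2 φ (az α φ x) = F1 α φ x := F2_az h.rel x
  have e20 : F0 (az α φ (az α φ x)) = F1 α φ x := by rw [F0_az, e12]
  have e21 : F1 α φ (az α φ (az α φ x)) = F2 φ x := by rw [F1_az, e10]
  have e22 : F2 φ (az α φ (az α φ x)) = F0 x := by rw [F2_az h.rel, e11]
  -- the consequences of the three memberships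
  have c0 : (0 < F0 x ∧ ¬ (F0 x < F1 α φ x ∧ F0 x < F2 φ x)) ∨ (F0 x < 0 ∧
      (F1 α φ x ≤ F0 x ∨ 0 < F1 α φ x) ∧ (F2 φ x ≤ F0 x ∨ 0 < F2 φ x) ∧
      ¬ (0 < F1 α φ x ∧ 0 < F2 φ x)) := by
    rcases d0 with ⟨h1, h2⟩ | ⟨h1, h2⟩
    · exact Or.inl ⟨h1, fun hc => h2 ⟨0, h1, hc.1, hc.2⟩⟩
    · have h3 := h.ring h2
      rw [F0_neg, F1_neg, F2_neg, neg_le_neg_iff, neg_le_neg_iff, neg_lt_zero, neg_lt_zero] at h3
      exact Or.inr ⟨h1, h3.2⟩
  have c1 : (0 < F2 φ x ∧ ¬ (F2 φ x < F0 x ∧ F2 φ x < F1 α φ x)) ∨ (F2 φ x < 0 ∧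
      (F0 x ≤ F2 φ x ∨ 0 < F0 x) ∧ (F1 α φ x ≤ F2 φ x ∨ 0 < F1 α φ x) ∧
      ¬ (0 < F0 x ∧ 0 < F1 α φ x)) := by
    rcases d1 with ⟨h1, h2⟩ | ⟨h1, h2⟩
    · rw [e10] at h1
      refine Or.inl ⟨h1, fun hc => h2 ⟨0, ?_⟩⟩
      refine ⟨?_, ?_, ?_⟩
      · change 0 < F0 (az α φ x)
        rw [e10]
        exact h1
      · change F0 (az α φ x) < F1 α φ (az α φ x)
        rw [e10, e11]
        exact hc.1
      · change F0 (az α φ x) < F2 φ (az α φ x)
        rw [e10, e12]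
        exact hc.2
    · have h3 := h.ring h2
      rw [F0_neg, F1_neg, F2_neg, e10, e11, e12, neg_le_neg_iff, neg_le_neg_iff, neg_lt_zero,
        neg_lt_zero] at h3
      rw [e10] at h1
      exact Or.inr ⟨h1, h3.2⟩
  have c2 : (0 < F1 α φ x ∧ ¬ (F1 α φ x < F2 φ x ∧ F1 α φ x < F0 x)) ∨ (F1 α φ x < 0 ∧
      (F2 φ x ≤ F1 α φ x ∨ 0 < F2 φ x) ∧ (F0 x ≤ F1 α φ x ∨ 0 < F0 x) ∧
      ¬ (0 < F2 φ x ∧ 0 < F0 x)) := by
    rcases d2 with ⟨h1, h2⟩ | ⟨h1, h2⟩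
    · rw [e20] at h1
      refine Or.inl ⟨h1, fun hc => h2 ⟨0, ?_⟩⟩
      refine ⟨?_, ?_, ?_⟩
      · change 0 < F0 (az α φ (az α φ x))
        rw [e20]
        exact h1
      · change F0 (az α φ (az α φ x)) < F1 α φ (az α φ (az α φ x))
        rw [e20, e21]
        exact hc.1
      · change F0 (az α φ (az α φ x)) < F2 φ (az α φ (az α φ x))
        rw [e20, e22]
        exact hc.2
    · have h3 := h.ring h2
      rw [F0_neg, F1_neg, F2_neg, e20, e21, e22, neg_le_neg_iff, neg_le_neg_iff, neg_lt_zero,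
        neg_lt_zero] at h3
      rw [e20] at h1
      exact Or.inr ⟨h1, h3.2⟩
  clear d0 d1 d2 e10 e11 e12 e20 e21 e22
  generalize F0 x = p at *
  generalize F1 α φ x = q at *
  generalize F2 φ x = r at *
  rcases lt_or_gt_of_ne n0 with p0 | p0 <;> rcases lt_or_gt_of_ne n1 with q0 | q0 <;>
    rcases lt_or_gt_of_ne n2 with r0 | r0 <;> rcases lt_or_gt_of_ne n01 with a | a <;>
    rcases lt_or_gt_of_ne n02 with b | b <;> rcases lt_or_gt_of_ne n12 with c | c <;>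
    rcases c0 with ⟨u1, u2⟩ | ⟨u1, u2, u3, u4⟩ <;> rcases c1 with ⟨v1, v2⟩ | ⟨v1, v2, v3, v4⟩ <;>
    rcases c2 with ⟨w1, w2⟩ | ⟨w1, w2, w3, w4⟩ <;>
    first
      | (exfalso; linarith)
      | exact u2 ⟨a, b⟩
      | exact v2 ⟨b, c⟩
      | exact w2 ⟨c, a⟩
      | exact u4 ⟨q0, r0⟩
      | exact v4 ⟨p0, q0⟩
      | exact w4 ⟨r0, p0⟩
      | (rcases u2 with u2 | u2 <;> rcases w3 with w3 | w3 <;> linarith)
      | (rcases u3 with u3 | u3 <;> rcases v2 with v2 | v2 <;> linarith)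
      | (rcases v3 with v3 | v3 <;> rcases w2 with w2 | w2 <;> linarith)

end

end Pool.Agent.Lib.MP_fdbf44_an
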