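import Pool.Agent.Lib.MP_fdbf44_an.OdB

/-! The almost everywhere division attached to a rotation of odd order: measurability and conclusion. -/

open MeasureTheory Metric Set

namespace Pool.Agent.Lib.MP_fdbf44_an

noncomputable section

variable {m : ℕ} {α φ : ℝ}

theorem cont_coord (i : Fin 3) : Continuous fun x : E3 => x i :=
  (EuclideanSpace.proj i : E3 →L[ℝ] ℝ).continuous

theorem cont_F0 : Continuous (F0 : E3 → ℝ) := cont_coord 2

theorem cont_F1 : Continuous (F1 α φ) := by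
  have h0 := cont_coord 0
  have h1 := cont_coord 1
  have h2 := cont_coord 2
  unfold F1
  exact (continuous_const.mul ((continuous_const.mul h0).add (continuous_const.mul h1))).add
    (continuous_const.mul h2)

theorem cont_F2 : Continuous (F2 φ) := by
  have h0 := cont_coord 0
  have h2 := cont_coord 2
  unfold F2
  exact (continuous_const.mul h0).add (continuous_const.mul h2)

theorem meas_Kc : MeasurableSet {x : E3 | Kc α φ x} := by
  have h0 : IsOpen {x : E3 | 0 < F0 x} := isOpen_lt continuous_const cont_F0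
  have h1 : IsOpen {x : E3 | F0 x < F1 α φ x} := isOpen_lt cont_F0 cont_F1
  have h2 : IsOpen {x : E3 | F0 x < F2 φ x} := isOpen_lt cont_F0 cont_F2
  exact (h0.inter (h1.inter h2)).measurableSet

theorem meas_Rr : MeasurableSet {x : E3 | Rr α φ x} := by
  have h1 : {x : E3 | Rr α φ x} = ⋃ i : ℕ, (Rz α ^ i) ⁻¹' {x : E3 | Kc α φ x} := by
    ext x
    rw [mem_iUnion]
    rfl
  rw [h1]
  exact MeasurableSet.iUnion fun i => meas_Kc.preimage (Rz α ^ i).continuous.measurable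

theorem meas_Dd : MeasurableSet {x : E3 | Dd α φ x} := by
  have h0 : MeasurableSet {x : E3 | 0 < F0 x} := (isOpen_lt continuous_const cont_F0).measurableSet
  have h1 : MeasurableSet {x : E3 | F0 x < 0} := (isOpen_lt cont_F0 continuous_const).measurableSet
  have h2 : MeasurableSet {x : E3 | Rr α φ (-x)} := meas_Rr.preimage continuous_neg.measurable
  exact (h0.inter meas_Rr.compl).union (h1.inter h2)

theorem meas_Aa : MeasurableSet (Aa α φ) := by
  have h1 : MeasurableSet {x : E3 | Dd α φ (az α φ x)} :=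
    meas_Dd.preimage (az α φ).continuous.measurable
  have h2 : Aa α φ = ({x | Dd α φ x} ∩ {x | Dd α φ (az α φ x)}) ∪
      ({x | Dd α φ x}ᶜ ∩ {x | Dd α φ (az α φ x)}ᶜ) := by
    ext x
    change (Dd α φ x ↔ Dd α φ (az α φ x)) ↔ (Dd α φ x ∧ Dd α φ (az α φ x)) ∨
      (¬ Dd α φ x ∧ ¬ Dd α φ (az α φ x))
    by_cases p : Dd α φ x <;> by_cases q : Dd α φ (az α φ x) <;> simp [p, q]
  rw [h2]
  exact (meas_Dd.inter h1).union (meas_Dd.compl.inter h1.compl)

theorem NM_Aa : NM (Aa α φ) := (meas_Aa.preimage measurable_subtype_coe).nullMeasurableSet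

theorem Ang.gn_ae (h : Ang m α φ) : ∀ᵐ x : S2 ∂mu, Gn α φ (x : E3) := by
  have hc : ∀ i : Fin 3, ∃ l : E3 →ₗ[ℝ] ℝ, ∀ x, l x = x i := fun i =>
    ⟨(EuclideanSpace.proj i : E3 →L[ℝ] ℝ).toLinearMap, fun x => rfl⟩
  choose l hl using hc
  obtain ⟨l1, hl1⟩ : ∃ l1 : E3 →ₗ[ℝ] ℝ, ∀ x, l1 x = F1 α φ x := by
    refine ⟨Real.sin φ • (Real.cos α • l 0 + Real.sin α • l 1) + Real.cos φ • l 2, fun x => ?_⟩
    rw [LinearMap.add_apply, LinearMap.smul_apply, LinearMap.smul_apply, LinearMap.add_apply,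
      LinearMap.smul_apply, LinearMap.smul_apply, hl, hl, hl]
    rfl
  obtain ⟨l2, hl2⟩ : ∃ l2 : E3 →ₗ[ℝ] ℝ, ∀ x, l2 x = F2 φ x := by
    refine ⟨Real.sin φ • l 0 + Real.cos φ • l 2, fun x => ?_⟩
    rw [LinearMap.add_apply, LinearMap.smul_apply, LinearMap.smul_apply, hl, hl]
    rfl
  obtain ⟨l0, hl0⟩ : ∃ l0 : E3 →ₗ[ℝ] ℝ, ∀ x, l0 x = F0 x := ⟨l 2, fun x => hl 2 x⟩
  have hc := h.cos_phi
  have hs := h.pos
  have hsa : Real.sin α ≠ 0 := by
    rw [h.sin_al]
    exact h.sin_psi.ne'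
  have v0 : F0 (EuclideanSpace.single (2 : Fin 3) (1 : ℝ)) = 1 := by simp [F0]
  have v1 : F1 α φ (EuclideanSpace.single (2 : Fin 3) (1 : ℝ)) = Real.cos φ := by simp [F1]
  have v2 : F2 φ (EuclideanSpace.single (2 : Fin 3) (1 : ℝ)) = Real.cos φ := by simp [F2]
  have w1 : F1 α φ (EuclideanSpace.single (1 : Fin 3) (1 : ℝ)) = Real.sin φ * Real.sin α := by
    simp [F1]
  have w2 : F2 φ (EuclideanSpace.single (1 : Fin 3) (1 : ℝ)) = 0 := by simp [F2]
  have key : ∀ (l l' : E3 →ₗ[ℝ] ℝ) (e : E3), l e ≠ l' e → ∀ᵐ x : S2 ∂mu, l x ≠ l' x := by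
    intro l l' e he
    have hne : l - l' ≠ 0 := by
      intro h0
      have h1 := congrArg (fun m : E3 →ₗ[ℝ] ℝ => m e) h0
      exact he (sub_eq_zero.1 h1)
    filter_upwards [null_plane _ hne] with x hx h1
    exact hx (sub_eq_zero.2 h1)
  filter_upwards [key l0 0 (EuclideanSpace.single (2 : Fin 3) (1 : ℝ)) (by
      rw [hl0, v0, LinearMap.zero_apply]; exact one_ne_zero),
    key l1 0 (EuclideanSpace.single (2 : Fin 3) (1 : ℝ)) (by
      rw [hl1, v1, LinearMap.zero_apply]; exact hc.ne),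
    key l2 0 (EuclideanSpace.single (2 : Fin 3) (1 : ℝ)) (by
      rw [hl2, v2, LinearMap.zero_apply]; exact hc.ne),
    key l0 l1 (EuclideanSpace.single (2 : Fin 3) (1 : ℝ)) (by
      rw [hl0, hl1, v0, v1]; linarith),
    key l0 l2 (EuclideanSpace.single (2 : Fin 3) (1 : ℝ)) (by
      rw [hl0, hl2, v0, v2]; linarith),
    key l1 l2 (EuclideanSpace.single (1 : Fin 3) (1 : ℝ)) (by
      rw [hl1, hl2, w1, w2]; exact mul_ne_zero hs.ne' hsa)] with x h1 h2 h3 h4 h5 h6
  rw [hl0, LinearMap.zero_apply] at h1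
  rw [hl1, LinearMap.zero_apply] at h2
  rw [hl2, LinearMap.zero_apply] at h3
  rw [hl0, hl1] at h4
  rw [hl0, hl2] at h5
  rw [hl1, hl2] at h6
  exact ⟨h1, h2, h3, h4, h5, h6⟩

/-- every point in general position lies in exactly one of the three sets -/
theorem Ang.dv_pt (h : Ang m α φ) {x : S2} (hx : Gn α φ (x : E3)) :
    ∃! i : Fin 3, (x : E3) ∈ pcs (Rz α) (az α φ ^ 2) (Aa α φ) i := by
  have hsa : Real.sin α ≠ 0 := by
    rw [h.sin_al]
    exact h.sin_psi.ne'
  have h3 : ∀ x, az α φ (az α φ (az α φ x)) = x := az_pow h.rel hsa h.pos.ne'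
  have m0 : (x : E3) ∈ pcs (Rz α) (az α φ ^ 2) (Aa α φ) 0 ↔ (Dd α φ x ↔ Dd α φ (az α φ x)) := Iff.rfl
  have m1 : (x : E3) ∈ pcs (Rz α) (az α φ ^ 2) (Aa α φ) 1 ↔
      (Dd α φ x ↔ Dd α φ (az α φ (az α φ x))) := by
    have key : ∀ y : E3, Rz α y = x →
        (y ∈ Aa α φ ↔ (Dd α φ x ↔ Dd α φ (az α φ (az α φ x)))) := by
      intro y hy
      have h1 : az α φ (Kz φ y) = x := by
        rw [az_apply, ← Function.comp_apply (f := Kz φ), ← LinearIsometryEquiv.coe_mul, Kz_mul]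
        exact hy
      have h2 : Kz φ y = az α φ (az α φ x) := by rw [← h1, h3]
      change (Dd α φ y ↔ Dd α φ (az α φ y)) ↔ _
      rw [← h.Dd_Rz y, hy, az_apply, h.Dd_Rz, h2]
    constructor
    · rintro ⟨y, hy, hxy⟩
      exact (key y hxy).1 hy
    · intro h1
      obtain ⟨y, hy⟩ := (Rz α).surjective (x : E3)
      exact ⟨y, (key y hy).2 h1, hy⟩
  have m2 : (x : E3) ∈ pcs (Rz α) (az α φ ^ 2) (Aa α φ) 2 ↔
      (Dd α φ (az α φ x) ↔ Dd α φ (az α φ (az α φ x))) := by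
    constructor
    · rintro ⟨y, hy, hxy⟩
      have h1 : az α φ (az α φ y) = x := hxy
      have h2 : az α φ x = y := by rw [← h1, h3]
      rw [h2]
      exact hy
    · intro h1
      exact ⟨az α φ x, h1, h3 x⟩
  have a1 := h.not_all hx
  have a2 := h.not_all hx.neg
  have e0 : Dd α φ (-(x : E3)) ↔ ¬ Dd α φ x := Ang.Dd_neg hx.n0
  have e1 : Dd α φ (az α φ (-(x : E3))) ↔ ¬ Dd α φ (az α φ x) := by
    rw [map_neg]
    exact Ang.Dd_neg (by rw [F0_az]; exact hx.n2)
  have e2 : Dd α φ (az α φ (az α φ (-(x : E3)))) ↔ ¬ Dd α φ (az α φ (az α φ x)) := by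
    rw [map_neg, map_neg]
    exact Ang.Dd_neg (by rw [F0_az, F2_az h.rel]; exact hx.n1)
  rw [e0, e1, e2] at a2
  by_cases d0 : Dd α φ (x : E3) <;> by_cases d1 : Dd α φ (az α φ x) <;>
    by_cases d2 : Dd α φ (az α φ (az α φ x)) <;>
    simp only [d0, d1, d2, not_true_eq_false, not_false_eq_true, and_true, and_false, and_self,
      iff_true, iff_false, iff_self] at a1 a2 m0 m1 m2
  all_goals
    first
      | exact ⟨0, m0, fun j hj => by fin_cases j <;> first | rfl | exact absurd hj m1 | exact absurd hj m2⟩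
      | exact ⟨1, m1, fun j hj => by fin_cases j <;> first | rfl | exact absurd hj m0 | exact absurd hj m2⟩
      | exact ⟨2, m2, fun j hj => by fin_cases j <;> first | rfl | exact absurd hj m0 | exact absurd hj m1⟩

/-- almost everywhere division -/
theorem Ang.dv (h : Ang m α φ) : Dv (Rz α) (az α φ ^ 2) (Aa α φ) := by
  refine ⟨NM_Aa, ?_⟩
  filter_upwards [h.gn_ae] with x hx
  exact h.dv_pt hx

end

end Pool.Agent.Lib.MP_fdbf44_an
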