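import Pool.Agent.Lib.MP_fdbf44_an.OdC

/-! The group generated by the two rotations has only dense orbits on the sphere. -/

open MeasureTheory Metric Set

namespace Pool.Agent.Lib.MP_fdbf44_an

noncomputable section

variable {m : ℕ} {α φ : ℝ}

theorem Ang.exists {m : ℕ} (ho : Odd m) (h3 : 3 ≤ m) : ∃ α φ : ℝ, Ang m α φ := by
  have hm : (3 : ℝ) ≤ m := by exact_mod_cast h3
  have hpi := Real.pi_pos
  have h1 : Real.pi / m ≤ Real.pi / 3 :=
    div_le_div_of_nonneg_left Real.pi_pos.le (by norm_num) hm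
  have h2 : 0 < Real.pi / m := div_pos hpi (by linarith)
  obtain ⟨c, hc⟩ : ∃ c, c = Real.cos (Real.pi / m) := ⟨_, rfl⟩
  have hc0 : 0 < c := by
    rw [hc]
    apply Real.cos_pos_of_mem_Ioo
    constructor <;> linarith
  have hc1 : c ≤ 1 := by
    rw [hc]
    exact Real.cos_le_one _
  have hC : -1 < -c / (1 + c) ∧ -c / (1 + c) < 1 := by
    constructor
    · rw [lt_div_iff₀ (by linarith)]
      linarith
    · rw [div_lt_iff₀ (by linarith)]
      linarith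
  refine ⟨anm m, Real.arccos (-c / (1 + c)), ho, h3, rfl, ?_, ?_⟩
  · rw [Real.cos_arccos hC.1.le hC.2.le, anm, Real.cos_pi_sub, ← hc]
    field_simp
    ring
  · rw [Real.sin_arccos]
    apply Real.sqrt_pos.2
    have h3 : (-c / (1 + c)) ^ 2 < 1 := by
      rw [sq_lt_one_iff_abs_lt_one, abs_lt]
      exact hC
    linarith

/-! ### determinants and orders -/

theorem ent_mul (ρ σ : LI) (i k : Fin 3) :
    ent (ρ * σ) i k = ∑ j, ent ρ i j * ent σ j k := by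
  obtain ⟨c, hc⟩ : ∃ c : Fin 3 → ℝ, c = fun j => ent σ j k := ⟨_, rfl⟩
  have h1 : σ (EuclideanSpace.single k 1) = ∑ j, c j • (EuclideanSpace.single j (1 : ℝ) : E3) := by
    rw [hc]
    ext i
    rw [Fin.sum_univ_three]
    fin_cases i <;> simp [ent]
  have h2 : ∑ j, ent ρ i j * ent σ j k = ∑ j, ent ρ i j * c j := by rw [hc]
  rw [h2]
  unfold ent
  rw [LinearIsometryEquiv.coe_mul, Function.comp_apply, h1, map_sum, Fin.sum_univ_three,
    Fin.sum_univ_three]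
  simp only [map_smul, PiLp.add_apply, PiLp.smul_apply, smul_eq_mul]
  ring

theorem Rot.mul {ρ σ : LI} (h1 : Rot ρ) (h2 : Rot σ) : Rot (ρ * σ) := by
  unfold Rot at *
  have h3 : Matrix.det (fun i j => ent (ρ * σ) i j) =
      Matrix.det ((Matrix.of (ent ρ)) * (Matrix.of (ent σ))) := by
    congr 1
    ext i k
    rw [Matrix.mul_apply]
    exact ent_mul ρ σ i k
  have h4 : Matrix.det (Matrix.of (ent ρ)) = 1 := h1
  have h5 : Matrix.det (Matrix.of (ent σ)) = 1 := h2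
  rw [Matrix.det_mul, h4, h5, mul_one] at h3
  exact h3

theorem Rot_Rz (t : ℝ) : Rot (Rz t) := by
  unfold Rot
  rw [Matrix.det_fin_three]
  have h := Real.sin_sq_add_cos_sq t
  simp [ent, Rz]
  linear_combination h

theorem Rot_Kz (t : ℝ) : Rot (Kz t) := by
  unfold Rot
  rw [Matrix.det_fin_three]
  have h := Real.sin_sq_add_cos_sq t
  simp [ent, Kz]
  linear_combination h

theorem Rot_az : Rot (az α φ ^ 2) := by
  rw [pow_two]
  exact ((Rot_Rz α).mul (Rot_Kz φ)).mul ((Rot_Rz α).mul (Rot_Kz φ))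

theorem Ang.az3 (h : Ang m α φ) : az α φ ^ 3 = 1 := by
  have hsa : Real.sin α ≠ 0 := by
    rw [h.sin_al]
    exact h.sin_psi.ne'
  refine LinearIsometryEquiv.ext fun x => ?_
  exact az_pow h.rel hsa h.pos.ne' x

theorem Ang.az6 (h : Ang m α φ) : (az α φ ^ 2) ^ 3 = 1 := by
  rw [← pow_mul, mul_comm, pow_mul, h.az3, one_pow]

/-! ### coordinates -/

theorem inner3 (x y : E3) : inner ℝ x y = x 0 * y 0 + x 1 * y 1 + x 2 * y 2 := by
  rw [PiLp.inner_apply, Fin.sum_univ_three]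
  simp only [RCLike.inner_apply, conj_trivial]
  ring

theorem norm3 {x : E3} (hx : ‖x‖ = 1) : x 0 ^ 2 + x 1 ^ 2 + x 2 ^ 2 = 1 := by
  have h1 := real_inner_self_eq_norm_sq x
  rw [inner3, hx] at h1
  linarith

/-- the fixed point of the rotation of order `m` -/
def wz : E3 := EuclideanSpace.single (2 : Fin 3) (1 : ℝ)

theorem norm_wz : ‖wz‖ = 1 := by simp [wz]

theorem inner_wz (x : E3) : inner ℝ wz x = x 2 := by
  rw [inner3]
  simp [wz]

/-- the group -/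
def Gz (α φ : ℝ) : Subgroup LI := Subgroup.closure {Rz α, az α φ ^ 2}

theorem Rz_mem : Rz α ∈ Gz α φ := Subgroup.subset_closure (by simp)

theorem az_mem : az α φ ^ 2 ∈ Gz α φ := Subgroup.subset_closure (by simp)

theorem Rz_inv (t : ℝ) : (Rz t)⁻¹ = Rz (-t) := by
  rw [inv_eq_iff_mul_eq_one, Rz_mul, add_neg_cancel, Rz_nul]

theorem Rz_int (t : ℝ) (n : ℤ) : Rz (t + n * (2 * Real.pi)) = Rz t := by
  ext x i
  fin_cases i
  · change Rz (t + n * (2 * Real.pi)) x 0 = Rz t x 0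
    rw [Rz_zero, Rz_zero, Real.cos_add_int_mul_two_pi, Real.sin_add_int_mul_two_pi]
  · change Rz (t + n * (2 * Real.pi)) x 1 = Rz t x 1
    rw [Rz_one, Rz_one, Real.cos_add_int_mul_two_pi, Real.sin_add_int_mul_two_pi]
  · rfl

theorem Ang.small_mem (h : Ang m α φ) : Rz (2 * (Real.pi / m)) ∈ Gz α φ := by
  have h1 : Rz (2 * (Real.pi / m)) = (Rz α ^ 2)⁻¹ := by
    rw [Rz_pow, Rz_inv, h.al, anm, ← Rz_int (-((2 : ℕ) * (Real.pi - Real.pi / m))) 1]
    congr 1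
    push_cast
    ring
  rw [h1]
  exact inv_mem (pow_mem Rz_mem 2)

theorem Rz_zpow (t : ℝ) (j : ℤ) : Rz t ^ j = Rz (j * t) := by
  obtain ⟨n, rfl | rfl⟩ := Int.eq_nat_or_neg j
  · rw [zpow_natCast, Rz_pow]
    push_cast
    rfl
  · rw [zpow_neg, zpow_natCast, Rz_pow, Rz_inv]
    congr 1
    push_cast
    ring

/-! ### points of the orbit near the fixed point -/

theorem Ang.step (h : Ang m α φ) (h7 : 7 ≤ m) {g : LI} (hg : g ∈ Gz α φ)
    (h0 : 0 < 1 - (g wz) 2) (h2 : 1 - (g wz) 2 < 2) :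
    ∃ g' ∈ Gz α φ, 0 < 1 - (g' wz) 2 ∧ 1 - (g' wz) 2 < 2 ∧
      1 - (g' wz) 2 ≤ 4 * Real.sin (Real.pi / m) ^ 2 * (1 - (g wz) 2) := by
  have hm : (7 : ℝ) ≤ m := by exact_mod_cast h7
  have hpi := Real.pi_pos
  have hs0 := h.sin_psi
  have hs1 : Real.sin (Real.pi / m) < 1 / 2 := by
    rw [← Real.sin_pi_div_six]
    apply Real.sin_lt_sin_of_lt_of_le_pi_div_two
    · have := h.psi
      linarith
    · linarith
    · exact div_lt_div_of_pos_left hpi (by norm_num) (by linarith)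
  set s := Real.sin (Real.pi / m) with hs
  set v := g wz with hv
  have hvn : ‖v‖ = 1 := by rw [hv, g.norm_map, norm_wz]
  have hn := norm3 hvn
  have hcos : Real.cos (2 * (Real.pi / m)) = 1 - 2 * s ^ 2 := by
    rw [Real.cos_two_mul, Real.cos_sq']
    ring
  have hg' : g⁻¹ * (Rz (2 * (Real.pi / m)) * g) ∈ Gz α φ :=
    mul_mem (inv_mem hg) (mul_mem h.small_mem hg)
  have hval : 1 - ((g⁻¹ * (Rz (2 * (Real.pi / m)) * g)) wz) 2 = 2 * s ^ 2 * (1 - v 2) * (1 + v 2) := by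
    have e1 : ((g⁻¹ * (Rz (2 * (Real.pi / m)) * g)) wz) 2 =
        inner ℝ v (Rz (2 * (Real.pi / m)) v) := by
      rw [← inner_wz, ← LinearIsometryEquiv.inner_map_map g]
      congr 1
      rw [← Function.comp_apply (f := g), ← LinearIsometryEquiv.coe_mul, mul_inv_cancel_left]
      rfl
    rw [e1, inner3, Rz_zero, Rz_one, Rz_two, hcos]
    linear_combination (2 * s ^ 2 - 1) * hn
  have hp : 0 < 2 * s ^ 2 * (1 - v 2) * (1 + v 2) := by
    have : 0 < 1 + v 2 := by linarith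
    positivity
  have hle : 2 * s ^ 2 * (1 - v 2) * (1 + v 2) ≤ 4 * s ^ 2 * (1 - v 2) := by
    have h3 : 0 ≤ 2 * s ^ 2 * (1 - v 2) := by positivity
    nlinarith
  have hs2 : 4 * s ^ 2 ≤ 1 := by nlinarith
  refine ⟨_, hg', ?_, ?_, ?_⟩
  · rw [hval]
    exact hp
  · rw [hval]
    have h3 : 4 * s ^ 2 * (1 - v 2) ≤ 1 * (1 - v 2) := mul_le_mul_of_nonneg_right hs2 h0.le
    linarith
  · rw [hval]
    exact hle

theorem Ang.near (h : Ang m α φ) (h7 : 7 ≤ m) {η : ℝ} (hη : 0 < η) :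
    ∃ g ∈ Gz α φ, 0 < 1 - (g wz) 2 ∧ 1 - (g wz) 2 < η := by
  have hm : (7 : ℝ) ≤ m := by exact_mod_cast h7
  have hpi := Real.pi_pos
  have hs0 := h.sin_psi
  have hs1 : Real.sin (Real.pi / m) < 1 / 2 := by
    rw [← Real.sin_pi_div_six]
    apply Real.sin_lt_sin_of_lt_of_le_pi_div_two
    · have := h.psi
      linarith
    · linarith
    · exact div_lt_div_of_pos_left hpi (by norm_num) (by linarith)
  obtain ⟨κ, hκ⟩ : ∃ κ, κ = 4 * Real.sin (Real.pi / m) ^ 2 := ⟨_, rfl⟩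
  have hκ0 : 0 ≤ κ := by rw [hκ]; positivity
  have hκ1 : κ < 1 := by rw [hκ]; nlinarith
  have key : ∀ n : ℕ, ∃ g ∈ Gz α φ, 0 < 1 - (g wz) 2 ∧ 1 - (g wz) 2 < 2 ∧
      1 - (g wz) 2 ≤ 2 * κ ^ n := by
    intro n
    induction n with
    | zero =>
      refine ⟨_, az_mem, ?_⟩
      have h1 : ((az α φ ^ 2) wz) 2 = Real.cos φ := by
        change F0 (az α φ (az α φ wz)) = Real.cos φ
        rw [F0_az, F2_az h.rel]
        simp [F1, wz]
      have h2 := h.cos_phi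
      have h3 : -1 < Real.cos φ := by
        have h4 := Real.sin_sq_add_cos_sq φ
        have h5 := h.pos
        nlinarith
      rw [h1, pow_zero]
      refine ⟨by linarith, by linarith, by linarith⟩
    | succ n ih =>
      obtain ⟨g, hg, h1, h2, h3⟩ := ih
      obtain ⟨g', hg', h4, h5, h6⟩ := h.step h7 hg h1 h2
      refine ⟨g', hg', h4, h5, ?_⟩
      rw [← hκ] at h6
      calc 1 - (g' wz) 2 ≤ κ * (1 - (g wz) 2) := h6
        _ ≤ κ * (2 * κ ^ n) := mul_le_mul_of_nonneg_left h3 hκ0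
        _ = 2 * κ ^ (n + 1) := by ring
  obtain ⟨n, hn⟩ := exists_pow_lt_of_lt_one (by linarith : 0 < η / 2) hκ1
  obtain ⟨g, hg, h1, _, h3⟩ := key n
  exact ⟨g, hg, h1, by linarith⟩

/-! ### the walk -/

theorem Ang.dir (h : Ang m α φ) {v y : E3} (hv : ‖v‖ = 1) (hy : ‖y‖ = 1) :
    ∃ j : ℤ, v 2 * y 2 + 1 / 2 * (Real.sqrt (1 - v 2 ^ 2) * Real.sqrt (1 - y 2 ^ 2)) ≤
      inner ℝ ((Rz (2 * (Real.pi / m)) ^ j) v) y := by
  have hψ := h.psi
  have hψ3 := h.psi_le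
  set ψ := Real.pi / m with hψd
  have hv3 := norm3 hv
  have hy3 := norm3 hy
  obtain ⟨z, hz⟩ : ∃ z : ℂ, z = ⟨v 0 * y 0 + v 1 * y 1, v 0 * y 1 - v 1 * y 0⟩ := ⟨_, rfl⟩
  have hzn : ‖z‖ = Real.sqrt (1 - v 2 ^ 2) * Real.sqrt (1 - y 2 ^ 2) := by
    rw [← Real.sqrt_mul (by nlinarith [sq_nonneg (v 0), sq_nonneg (v 1)])]
    rw [Complex.norm_eq_sqrt_sq_add_sq]
    congr 1
    rw [hz]
    have e1 : 1 - v 2 ^ 2 = v 0 ^ 2 + v 1 ^ 2 := by linarith
    have e2 : 1 - y 2 ^ 2 = y 0 ^ 2 + y 1 ^ 2 := by linarith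
    rw [e1, e2]
    ring
  have hre : z.re = ‖z‖ * Real.cos (Complex.arg z) := (Complex.norm_mul_cos_arg z).symm
  have him : z.im = ‖z‖ * Real.sin (Complex.arg z) := (Complex.norm_mul_sin_arg z).symm
  obtain ⟨j, hj⟩ : ∃ j : ℤ, j = round (Complex.arg z / (2 * ψ)) := ⟨_, rfl⟩
  refine ⟨j, ?_⟩
  have hround : |Complex.arg z - j * (2 * ψ)| ≤ ψ := by
    have h1 := abs_sub_round (Complex.arg z / (2 * ψ))
    rw [← hj] at h1
    have h2 : Complex.arg z - j * (2 * ψ) = (Complex.arg z / (2 * ψ) - j) * (2 * ψ) := by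
      field_simp
    rw [h2, abs_mul, abs_of_pos (by linarith : 0 < 2 * ψ)]
    nlinarith
  have hcos : 1 / 2 ≤ Real.cos (Complex.arg z - j * (2 * ψ)) := by
    rw [← Real.cos_abs, ← Real.cos_pi_div_three]
    apply Real.cos_le_cos_of_nonneg_of_le_pi (abs_nonneg _)
    · have := Real.pi_pos
      linarith
    · exact hround.trans hψ3
  have hin : inner ℝ ((Rz (2 * ψ) ^ j) v) y = v 2 * y 2 +
      ‖z‖ * Real.cos (Complex.arg z - j * (2 * ψ)) := by
    rw [Rz_zpow, inner3, Rz_zero, Rz_one, Rz_two, Real.cos_sub]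
    have e1 : ‖z‖ * (Real.cos (Complex.arg z) * Real.cos (j * (2 * ψ)) +
        Real.sin (Complex.arg z) * Real.sin (j * (2 * ψ))) =
        z.re * Real.cos (j * (2 * ψ)) + z.im * Real.sin (j * (2 * ψ)) := by
      rw [hre, him]
      ring
    rw [e1, hz]
    ring
  rw [hin, ← hzn]
  have h3 := mul_le_mul_of_nonneg_left hcos (norm_nonneg z)
  linarith

theorem Ang.dense_wz (h : Ang m α φ) (h7 : 7 ≤ m) {y : E3} (hy : ‖y‖ = 1) {ε : ℝ} (hε : 0 < ε) :
    ∃ g ∈ Gz α φ, ‖g wz - y‖ < ε := by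
  obtain ⟨S, hS⟩ : ∃ S : Set ℝ, S = {c | ∃ g ∈ Gz α φ, inner ℝ (g wz) y = c} := ⟨_, rfl⟩
  have hne : S.Nonempty := by
    rw [hS]
    exact ⟨_, 1, one_mem _, rfl⟩
  have hub : ∀ c ∈ S, c ≤ 1 := by
    rintro c hc
    rw [hS] at hc
    obtain ⟨g, hg, rfl⟩ := hc
    have h1 := real_inner_le_norm (g wz) y
    rwa [g.norm_map, norm_wz, hy, mul_one] at h1
  have hlb : ∀ c ∈ S, -1 ≤ c := by
    rintro c hc
    rw [hS] at hc
    obtain ⟨g, hg, rfl⟩ := hc
    have h1 := neg_le_of_abs_le (abs_real_inner_le_norm (g wz) y)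
    rwa [g.norm_map, norm_wz, hy, mul_one] at h1
  have hbdd : BddAbove S := ⟨1, hub⟩
  obtain ⟨M, hM⟩ : ∃ M, M = sSup S := ⟨_, rfl⟩
  have hMS : ∀ c ∈ S, c ≤ M := fun c hc => by
    rw [hM]
    exact le_csSup hbdd hc
  have hM1 : M ≤ 1 := by
    rw [hM]
    exact csSup_le hne hub
  -- the basic inequality
  have hstep : ∀ g ∈ Gz α φ, ∀ c ∈ S,
      (g wz) 2 * c + 1 / 2 * (Real.sqrt (1 - (g wz) 2 ^ 2) * Real.sqrt (1 - c ^ 2)) ≤ M := by
    intro g hg c hc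
    rw [hS] at hc
    obtain ⟨k, hk, rfl⟩ := hc
    have e1 : inner ℝ (k wz) y = (k⁻¹ y) 2 := by
      rw [← inner_wz, ← LinearIsometryEquiv.inner_map_map k wz]
      congr 1
      rw [← Function.comp_apply (f := k), ← LinearIsometryEquiv.coe_mul, mul_inv_cancel]
      rfl
    have hyn : ‖k⁻¹ y‖ = 1 := by rw [LinearIsometryEquiv.norm_map, hy]
    have hvn : ‖g wz‖ = 1 := by rw [g.norm_map, norm_wz]
    obtain ⟨j, hj⟩ := h.dir hvn hyn
    rw [e1]
    refine hj.trans (hMS _ ?_)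
    rw [hS]
    refine ⟨k * ((Rz (2 * (Real.pi / m)) ^ j) * g),
      mul_mem hk (mul_mem (zpow_mem h.small_mem j) hg), ?_⟩
    have e2 : (k * ((Rz (2 * (Real.pi / m)) ^ j) * g)) wz =
        k ((Rz (2 * (Real.pi / m)) ^ j) (g wz)) := rfl
    have e3 : y = k (k⁻¹ y) := by
      rw [← Function.comp_apply (f := k), ← LinearIsometryEquiv.coe_mul, mul_inv_cancel]
      rfl
    rw [e2]
    conv_lhs => rw [e3]
    exact LinearIsometryEquiv.inner_map_map k _ _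
  have hlim : ∀ g ∈ Gz α φ,
      (g wz) 2 * M + 1 / 2 * (Real.sqrt (1 - (g wz) 2 ^ 2) * Real.sqrt (1 - M ^ 2)) ≤ M := by
    intro g hg
    have hcl : IsClosed {c : ℝ | (g wz) 2 * c + 1 / 2 * (Real.sqrt (1 - (g wz) 2 ^ 2) *
        Real.sqrt (1 - c ^ 2)) ≤ M} := by
      apply isClosed_le _ continuous_const
      fun_prop
    have h1 : M ∈ closure S := by
      rw [hM]
      exact csSup_mem_closure hne hbdd
    exact closure_minimal (fun c hc => hstep g hg c hc) hcl h1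
  -- `M = 1`
  have hMe : M = 1 := by
    by_contra hM2
    have hMlt : M < 1 := lt_of_le_of_ne hM1 hM2
    have hMgt : -1 < M := by
      by_contra h1
      obtain ⟨c, hc⟩ := hne
      have h2 := hMS c hc
      have h3 := hlb c hc
      have h4 : c = -1 := by linarith
      obtain ⟨g, hg, h5, _⟩ := h.near h7 one_pos
      have h6 := hstep g hg c hc
      rw [h4] at h6
      norm_num at h6
      linarith
    have hpos : 0 < 1 - M ^ 2 := by nlinarith
    obtain ⟨g, hg, h5, h6⟩ := h.near h7 (η := min (1 / 2) ((1 - M ^ 2) / 8))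
      (lt_min (by norm_num) (by positivity))
    have h7' := hlim g hg
    generalize (g wz) 2 = t at h5 h6 h7'
    have ht1 : 1 - t < 1 / 2 := lt_of_lt_of_le h6 (min_le_left _ _)
    have ht2 : 1 - t < (1 - M ^ 2) / 8 := lt_of_lt_of_le h6 (min_le_right _ _)
    have h8 : Real.sqrt (1 - t) ≤ Real.sqrt (1 - t ^ 2) := Real.sqrt_le_sqrt (by nlinarith)
    have h9 : 1 / 2 * (Real.sqrt (1 - t) * Real.sqrt (1 - M ^ 2)) ≤ 1 - t := by
      have h10 : 1 / 2 * (Real.sqrt (1 - t) * Real.sqrt (1 - M ^ 2)) ≤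
          1 / 2 * (Real.sqrt (1 - t ^ 2) * Real.sqrt (1 - M ^ 2)) := by
        have := mul_le_mul_of_nonneg_right h8 (Real.sqrt_nonneg (1 - M ^ 2))
        linarith
      nlinarith
    have hq1 := Real.sq_sqrt (by linarith : 0 ≤ 1 - t)
    have hq2 := Real.sq_sqrt hpos.le
    have hq3 := Real.sqrt_pos.2 (by linarith : 0 < 1 - t)
    have hq4 := Real.sqrt_pos.2 hpos
    generalize Real.sqrt (1 - t) = a at h9 hq1 hq3
    generalize Real.sqrt (1 - M ^ 2) = b at h9 hq2 hq4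
    have h11 : b ≤ 2 * a := by
      rw [← hq1] at h9
      have : a * b ≤ a * (2 * a) := by linarith
      exact le_of_mul_le_mul_left this hq3
    nlinarith
  -- conclusion
  have h12 : 1 - ε ^ 2 / 2 < sSup S := by
    rw [← hM, hMe]
    have : 0 < ε ^ 2 := by positivity
    linarith
  obtain ⟨c, hc, hc1⟩ := exists_lt_of_lt_csSup hne h12
  rw [hS] at hc
  obtain ⟨g, hg, rfl⟩ := hc
  refine ⟨g, hg, ?_⟩
  have h13 := norm_sub_sq_real (g wz) y
  rw [g.norm_map, norm_wz, hy] at h13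
  have h14 : ‖g wz - y‖ ^ 2 < ε ^ 2 := by
    rw [h13]
    linarith
  exact lt_of_pow_lt_pow_left₀ 2 hε.le h14

/-- all orbits on the sphere are dense -/
theorem Ang.dense (h : Ang m α φ) (h7 : 7 ≤ m) {x y : E3} (hx : ‖x‖ = 1) (hy : ‖y‖ = 1) {ε : ℝ}
    (hε : 0 < ε) : ∃ g ∈ Gz α φ, ‖g x - y‖ < ε := by
  obtain ⟨g1, hg1, h1⟩ := h.dense_wz h7 hx (half_pos hε)
  obtain ⟨g2, hg2, h2⟩ := h.dense_wz h7 hy (half_pos hε)
  refine ⟨g2 * g1⁻¹, mul_mem hg2 (inv_mem hg1), ?_⟩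
  have e1 : (g2 * g1⁻¹) x - y = (g2 * g1⁻¹) (x - g1 wz) + (g2 wz - y) := by
    have e2 : (g2 * g1⁻¹) (g1 wz) = g2 wz := by
      rw [← Function.comp_apply (f := (g2 * g1⁻¹)), ← LinearIsometryEquiv.coe_mul,
        inv_mul_cancel_right]
    rw [map_sub, e2]
    abel
  rw [e1]
  refine (norm_add_le _ _).trans_lt ?_
  rw [LinearIsometryEquiv.norm_map, norm_sub_rev]
  linarith

end

end Pool.Agent.Lib.MP_fdbf44_an
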