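import Pool.Agent.Lib.MP_fdbf44_an.OdD

/-! The orders of the two rotations. -/

open MeasureTheory Metric Set

namespace Pool.Agent.Lib.MP_fdbf44_an

noncomputable section

variable {m : ℕ} {α φ : ℝ}

theorem Rz_eq_one {t : ℝ} (h : Rz t = 1) : Real.cos t = 1 := by
  have h1 : Rz t (EuclideanSpace.single (0 : Fin 3) (1 : ℝ)) 0 =
      (1 : LI) (EuclideanSpace.single (0 : Fin 3) (1 : ℝ)) 0 := by rw [h]
  rw [Rz_zero] at h1
  simpa using h1

theorem Ang.Rz_pow_m (h : Ang m α φ) : Rz α ^ m = 1 := by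
  have hm : (m : ℝ) ≠ 0 := by
    have h3 := h.three
    exact_mod_cast (by omega : m ≠ 0)
  obtain ⟨k, hk⟩ := h.odd
  have h1 : (m : ℝ) * α = 0 + (k : ℤ) * (2 * Real.pi) := by
    rw [h.al, anm, mul_sub, mul_div_cancel₀ _ hm]
    have h2 : (m : ℝ) = 2 * k + 1 := by exact_mod_cast hk
    rw [h2]
    push_cast
    ring
  rw [Rz_pow, h1, Rz_int, Rz_nul]

theorem Ang.order (h : Ang m α φ) : orderOf (Rz α) = m := by
  have hm : 0 < m := by
    have h3 := h.three
    omega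
  have hmr : (m : ℝ) ≠ 0 := by exact_mod_cast hm.ne'
  rw [orderOf_eq_iff hm]
  refine ⟨h.Rz_pow_m, fun j hj hj0 hc => ?_⟩
  rw [Rz_pow] at hc
  obtain ⟨n, hn⟩ := (Real.cos_eq_one_iff _).1 (Rz_eq_one hc)
  obtain ⟨k, hk⟩ := h.odd
  have h1 : (n : ℝ) * (m : ℝ) = j * k := by
    have h2 : (m : ℝ) = 2 * k + 1 := by exact_mod_cast hk
    have hpi := Real.pi_pos
    rw [h.al, anm] at hn
    have h3 : (n : ℝ) * (2 * Real.pi) * m = j * (m * Real.pi - Real.pi) := by
      rw [hn]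
      field_simp
    have h4 : (n : ℝ) * m * (2 * Real.pi) = j * k * (2 * Real.pi) := by
      rw [h2] at h3 ⊢
      linear_combination h3
    exact mul_right_cancel₀ (by positivity) h4
  have h2 : (n : ℤ) * m = j * k := by exact_mod_cast h1
  have h3 : (m : ℤ) ∣ j * k := ⟨n, by rw [← h2]; ring⟩
  have h4 : m ∣ j * k := by exact_mod_cast h3
  have h5 : Nat.Coprime m k := by
    rw [hk, Nat.coprime_comm]
    have h6 : 2 * k + 1 = 1 + 2 * k := by ring
    rw [h6]
    simp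
  exact absurd (Nat.le_of_dvd hj0 (h5.dvd_of_dvd_mul_right h4)) (by omega)

theorem Ang.order3 (h : Ang m α φ) : orderOf (az α φ ^ 2) = 3 := by
  haveI : Fact (Nat.Prime 3) := ⟨Nat.prime_three⟩
  apply orderOf_eq_prime h.az6
  intro hc
  have h1 : az α φ = 1 := by
    have h2 := h.az3
    rw [pow_succ, hc, one_mul] at h2
    exact h2
  have h2 : az α φ (EuclideanSpace.single (0 : Fin 3) (1 : ℝ)) 2 =
      (1 : LI) (EuclideanSpace.single (0 : Fin 3) (1 : ℝ)) 2 := by rw [h1]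
  rw [az_apply, Rz_two, Kz_two] at h2
  have h3 := h.pos
  have h4 : Real.sin φ = 0 := by simpa using h2
  linarith

end

end Pool.Agent.Lib.MP_fdbf44_an
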