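import Pool.Agent.Lib.MP_fdbf44_an.OdE

/-! The pieces are unions of cells of a finite arrangement of planes. -/

open MeasureTheory Metric Set

namespace Pool.Agent.Lib.MP_fdbf44_an

noncomputable section

variable {m : ℕ} {α φ : ℝ}

/-- coordinate functionals -/
def lc (i : Fin 3) : E3 →ₗ[ℝ] ℝ := (EuclideanSpace.proj i : E3 →L[ℝ] ℝ).toLinearMap

theorem lc_apply (i : Fin 3) (x : E3) : lc i x = x i := rfl

def l1 (α φ : ℝ) : E3 →ₗ[ℝ] ℝ :=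
  Real.sin φ • (Real.cos α • lc 0 + Real.sin α • lc 1) + Real.cos φ • lc 2

def l2 (φ : ℝ) : E3 →ₗ[ℝ] ℝ := Real.sin φ • lc 0 + Real.cos φ • lc 2

theorem lc2_eq (x : E3) : lc 2 x = F0 x := rfl

theorem l1_eq (x : E3) : l1 α φ x = F1 α φ x := rfl

theorem l2_eq (x : E3) : l2 φ x = F2 φ x := rfl

/-- the six basic functionals -/
def bas (α φ : ℝ) : Fin 6 → (E3 →ₗ[ℝ] ℝ) :=
  ![lc 2, l1 α φ, l2 φ, l1 α φ - lc 2, l2 φ - lc 2, l1 α φ - l2 φ]

theorem bas0 (x : E3) : bas α φ 0 x = F0 x := rfl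
theorem bas1 (x : E3) : bas α φ 1 x = F1 α φ x := rfl
theorem bas2 (x : E3) : bas α φ 2 x = F2 φ x := rfl
theorem bas3 (x : E3) : bas α φ 3 x = F1 α φ x - F0 x := rfl
theorem bas4 (x : E3) : bas α φ 4 x = F2 φ x - F0 x := rfl
theorem bas5 (x : E3) : bas α φ 5 x = F1 α φ x - F2 φ x := rfl

theorem Ang.bas_ne (h : Ang m α φ) (k : Fin 6) : bas α φ k ≠ 0 := by
  have hc := h.cos_phi
  have hs := h.pos
  have hsa : Real.sin α ≠ 0 := by
    rw [h.sin_al]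
    exact h.sin_psi.ne'
  have v0 : F0 (EuclideanSpace.single (2 : Fin 3) (1 : ℝ)) = 1 := by simp [F0]
  have v1 : F1 α φ (EuclideanSpace.single (2 : Fin 3) (1 : ℝ)) = Real.cos φ := by simp [F1]
  have v2 : F2 φ (EuclideanSpace.single (2 : Fin 3) (1 : ℝ)) = Real.cos φ := by simp [F2]
  have w1 : F1 α φ (EuclideanSpace.single (1 : Fin 3) (1 : ℝ)) = Real.sin φ * Real.sin α := by
    simp [F1]
  have w2 : F2 φ (EuclideanSpace.single (1 : Fin 3) (1 : ℝ)) = 0 := by simp [F2]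
  have key : ∀ (l : E3 →ₗ[ℝ] ℝ) (e : E3), l e ≠ 0 → l ≠ 0 := by
    rintro l e he rfl
    exact he rfl
  fin_cases k
  · refine key _ (EuclideanSpace.single (2 : Fin 3) (1 : ℝ)) ?_
    change F0 (EuclideanSpace.single (2 : Fin 3) (1 : ℝ)) ≠ 0
    rw [v0]
    exact one_ne_zero
  · refine key _ (EuclideanSpace.single (2 : Fin 3) (1 : ℝ)) ?_
    change F1 α φ (EuclideanSpace.single (2 : Fin 3) (1 : ℝ)) ≠ 0
    rw [v1]
    exact hc.ne
  · refine key _ (EuclideanSpace.single (2 : Fin 3) (1 : ℝ)) ?_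
    change F2 φ (EuclideanSpace.single (2 : Fin 3) (1 : ℝ)) ≠ 0
    rw [v2]
    exact hc.ne
  · refine key _ (EuclideanSpace.single (2 : Fin 3) (1 : ℝ)) ?_
    change F1 α φ (EuclideanSpace.single (2 : Fin 3) (1 : ℝ)) - F0 (EuclideanSpace.single (2 : Fin 3) (1 : ℝ)) ≠ 0
    rw [v1, v0]
    linarith
  · refine key _ (EuclideanSpace.single (2 : Fin 3) (1 : ℝ)) ?_
    change F2 φ (EuclideanSpace.single (2 : Fin 3) (1 : ℝ)) - F0 (EuclideanSpace.single (2 : Fin 3) (1 : ℝ)) ≠ 0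
    rw [v2, v0]
    linarith
  · refine key _ (EuclideanSpace.single (1 : Fin 3) (1 : ℝ)) ?_
    change F1 α φ (EuclideanSpace.single (1 : Fin 3) (1 : ℝ)) - F2 φ (EuclideanSpace.single (1 : Fin 3) (1 : ℝ)) ≠ 0
    rw [w1, w2, sub_zero]
    exact mul_ne_zero hs.ne' hsa

/-- all functionals -/
def fam (α φ : ℝ) (p : Fin 6 × ℕ × ℕ) : E3 →ₗ[ℝ] ℝ :=
  (bas α φ p.1).comp ((Rz α ^ p.2.1 * az α φ ^ p.2.2 : LI).toLinearEquiv.toLinearMap)

theorem fam_apply (k : Fin 6) (i j : ℕ) (x : E3) :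
    fam α φ (k, i, j) x = bas α φ k ((Rz α ^ i) ((az α φ ^ j) x)) := rfl

open Classical in
/-- the finite set of functionals -/
def Uf (m : ℕ) (α φ : ℝ) : Finset (E3 →ₗ[ℝ] ℝ) :=
  ((Finset.univ : Finset (Fin 6)) ×ˢ (Finset.range m ×ˢ Finset.range 2)).image (fam α φ)

theorem mem_Uf {k : Fin 6} {i j : ℕ} (hi : i < m) (hj : j < 2) : fam α φ (k, i, j) ∈ Uf m α φ := by
  classical
  refine Finset.mem_image.2 ⟨(k, i, j), ?_, rfl⟩
  rw [Finset.mem_product, Finset.mem_product]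
  exact ⟨Finset.mem_univ _, Finset.mem_range.2 hi, Finset.mem_range.2 hj⟩

theorem Ang.Uf_ne (h : Ang m α φ) {l : E3 →ₗ[ℝ] ℝ} (hl : l ∈ Uf m α φ) : l ≠ 0 := by
  classical
  obtain ⟨⟨k, i, j⟩, -, rfl⟩ := Finset.mem_image.1 hl
  intro h0
  apply h.bas_ne k
  ext1 y
  obtain ⟨x, hx⟩ := (Rz α ^ i * az α φ ^ j : LI).surjective y
  rw [← hx]
  exact congrArg (fun l : E3 →ₗ[ℝ] ℝ => l x) h0

/-- same signs for the basic functionals on the orbit of the rotation of order `m` -/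
def Sg (m : ℕ) (α φ : ℝ) (x y : E3) : Prop :=
  ∀ k : Fin 6, ∀ i < m, (0 < bas α φ k ((Rz α ^ i) x) ↔ 0 < bas α φ k ((Rz α ^ i) y)) ∧
    (bas α φ k ((Rz α ^ i) x) < 0 ↔ bas α φ k ((Rz α ^ i) y) < 0)

theorem Ang.Rr_iff (h : Ang m α φ) (x : E3) : Rr α φ x ↔ ∃ i < m, Kc α φ ((Rz α ^ i) x) := by
  constructor
  · rintro ⟨i, hi⟩
    refine ⟨i % m, Nat.mod_lt _ (by have := h.three; omega), ?_⟩
    have h1 : Rz α ^ i = Rz α ^ (i % m) := by
      conv_lhs => rw [← Nat.mod_add_div i m, pow_add, pow_mul, h.Rz_pow_m, one_pow, mul_one]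
    rw [← h1]
    exact hi
  · rintro ⟨i, -, hi⟩
    exact ⟨i, hi⟩

theorem Kc_neg_iff (x : E3) : Kc α φ (-x) ↔ F0 x < 0 ∧ F1 α φ x - F0 x < 0 ∧ F2 φ x - F0 x < 0 := by
  unfold Kc
  rw [F0_neg, F1_neg, F2_neg]
  constructor
  · rintro ⟨h1, h2, h3⟩
    exact ⟨by linarith, by linarith, by linarith⟩
  · rintro ⟨h1, h2, h3⟩
    exact ⟨by linarith, by linarith, by linarith⟩

theorem Kc_iff (x : E3) : Kc α φ x ↔ 0 < F0 x ∧ 0 < F1 α φ x - F0 x ∧ 0 < F2 φ x - F0 x := by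
  unfold Kc
  constructor
  · rintro ⟨h1, h2, h3⟩
    exact ⟨by linarith, by linarith, by linarith⟩
  · rintro ⟨h1, h2, h3⟩
    exact ⟨by linarith, by linarith, by linarith⟩

theorem Ang.Dd_iff (h : Ang m α φ) {x y : E3} (hs : Sg m α φ x y) : Dd α φ x ↔ Dd α φ y := by
  have hm : 0 < m := by have := h.three; omega
  have h0 := hs 0 0 hm
  rw [pow_zero] at h0
  have h1 : 0 < F0 x ↔ 0 < F0 y := h0.1
  have h2 : F0 x < 0 ↔ F0 y < 0 := h0.2
  have h3 : Rr α φ x ↔ Rr α φ y := by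
    rw [h.Rr_iff, h.Rr_iff]
    have h4 : ∀ i < m, (Kc α φ ((Rz α ^ i) x) ↔ Kc α φ ((Rz α ^ i) y)) := by
      intro i hi
      rw [Kc_iff, Kc_iff]
      have a0 := (hs 0 i hi).1
      have a3 := (hs 3 i hi).1
      have a4 := (hs 4 i hi).1
      rw [bas0, bas0] at a0
      rw [bas3, bas3] at a3
      rw [bas4, bas4] at a4
      rw [a0, a3, a4]
    constructor
    · rintro ⟨i, hi, h5⟩
      exact ⟨i, hi, (h4 i hi).1 h5⟩
    · rintro ⟨i, hi, h5⟩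
      exact ⟨i, hi, (h4 i hi).2 h5⟩
  have h6 : Rr α φ (-x) ↔ Rr α φ (-y) := by
    rw [h.Rr_iff, h.Rr_iff]
    have h4 : ∀ i < m, (Kc α φ ((Rz α ^ i) (-x)) ↔ Kc α φ ((Rz α ^ i) (-y))) := by
      intro i hi
      rw [map_neg, map_neg, Kc_neg_iff, Kc_neg_iff]
      have a0 := (hs 0 i hi).2
      have a3 := (hs 3 i hi).2
      have a4 := (hs 4 i hi).2
      rw [bas0, bas0] at a0
      rw [bas3, bas3] at a3
      rw [bas4, bas4] at a4
      rw [a0, a3, a4]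
    constructor
    · rintro ⟨i, hi, h5⟩
      exact ⟨i, hi, (h4 i hi).1 h5⟩
    · rintro ⟨i, hi, h5⟩
      exact ⟨i, hi, (h4 i hi).2 h5⟩
  unfold Dd
  rw [h1, h2, h3, h6]

theorem Ang.cells (h : Ang m α φ) {x y : E3}
    (hs : ∀ l ∈ Uf m α φ, (0 < l x ↔ 0 < l y) ∧ (l x < 0 ↔ l y < 0)) :
    x ∈ Aa α φ ↔ y ∈ Aa α φ := by
  have h0 : Sg m α φ x y := fun k i hi => hs _ (mem_Uf (k := k) hi (by norm_num : 0 < 2))
  have h1 : Sg m α φ (az α φ x) (az α φ y) := by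
    intro k i hi
    have h2 := hs _ (mem_Uf (k := k) hi (by norm_num : 1 < 2))
    rw [fam_apply, fam_apply, pow_one] at h2
    exact h2
  change (Dd α φ x ↔ Dd α φ (az α φ x)) ↔ (Dd α φ y ↔ Dd α φ (az α φ y))
  rw [h.Dd_iff h0, h.Dd_iff h1]

theorem Ang.gn (h : Ang m α φ) {x : E3} (hx : ∀ l ∈ Uf m α φ, l x ≠ 0) : Gn α φ x := by
  have hm : 0 < m := by have := h.three; omega
  have h1 : ∀ k : Fin 6, bas α φ k x ≠ 0 := fun k => hx _ (mem_Uf (k := k) hm (by norm_num : 0 < 2))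
  have h3 := h1 3
  have h4 := h1 4
  have h5 := h1 5
  rw [bas3] at h3
  rw [bas4] at h4
  rw [bas5] at h5
  exact ⟨h1 0, h1 1, h1 2, fun e => h3 (by rw [e, sub_self]), fun e => h4 (by rw [e, sub_self]),
    fun e => h5 (by rw [e, sub_self])⟩

end

end Pool.Agent.Lib.MP_fdbf44_an
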