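import Pool.Agent.Lib.MP_fdbf44_an.OdF

/-! Definitions for the statement about polygonal divisions with dense orbits. -/

open MeasureTheory Metric Set

namespace Pool.Agent.Lib.MP_fdbf44_an

noncomputable section

/-- linear forms on `ℝ³` -/
abbrev Lf := E3 →ₗ[ℝ] ℝ

/-- the signs (positive, zero, negative) of the forms of `U` at `x` and at `y` are the same -/
def SameSigns (U : Finset Lf) (x y : E3) : Prop :=
  ∀ l ∈ U, (0 < l x ↔ 0 < l y) ∧ (l x < 0 ↔ l y < 0)

/-- `A` is a union of cells of the arrangement of the planes `l = 0`, `l ∈ U`: whether `x` is in `A`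
depends only on the signs of the forms of `U` at `x` -/
def Cells (U : Finset Lf) (A : Set E3) : Prop :=
  ∀ x y : E3, SameSigns U x y → (x ∈ A ↔ y ∈ A)

/-- every point of the sphere at which no form of `U` vanishes lies in exactly one of `A`, `ρ A`,
`σ A` -/
def DvOff (U : Finset Lf) (ρ σ : LI) (A : Set E3) : Prop :=
  ∀ x : S2, (∀ l ∈ U, l x ≠ 0) → ∃! i : Fin 3, (x : E3) ∈ pcs ρ σ A i

/-- every orbit of the group generated by `ρ` and `σ` on the sphere is dense in the sphere -/
def DenseOrb (ρ σ : LI) : Prop :=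
  ∀ x y : S2, ∀ ε : ℝ, 0 < ε → ∃ g ∈ Subgroup.closure ({ρ, σ} : Set LI), ‖g x - y‖ < ε

end

end Pool.Agent.Lib.MP_fdbf44_an
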