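import Pool.Agent.Lib.MP_fdbf44_an.Axis

/-! The orbits of a linear isometry of infinite order with a fixed axis are dense in circles. -/

open MeasureTheory Metric Set Filter Topology

namespace Pool.Agent.Lib.MP_fdbf44_an

noncomputable section

/-- the complex coordinate in the plane spanned by the last two basis vectors -/
def zc (b : OrthonormalBasis (Fin 3) ℝ E3) (x : E3) : ℂ := ⟨inner ℝ (b 1) x, inner ℝ (b 2) x⟩

/-- `τ` is the rotation by `w` with respect to the basis `b` -/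
def IsRot (b : OrthonormalBasis (Fin 3) ℝ E3) (τ : LI) (w : ℂ) : Prop :=
  ∀ x, inner ℝ (b 0) (τ x) = inner ℝ (b 0) x ∧ zc b (τ x) = w * zc b x

theorem IsRot.one (b : OrthonormalBasis (Fin 3) ℝ E3) : IsRot b 1 1 :=
  fun _ => ⟨rfl, (one_mul _).symm⟩

theorem IsRot.mul {b : OrthonormalBasis (Fin 3) ℝ E3} {τ τ' : LI} {w w' : ℂ} (h : IsRot b τ w)
    (h' : IsRot b τ' w') : IsRot b (τ * τ') (w * w') := by
  intro x
  refine ⟨?_, ?_⟩
  · change inner ℝ (b 0) (τ (τ' x)) = _
    rw [(h _).1, (h' _).1]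
  · change zc b (τ (τ' x)) = _
    rw [(h _).2, (h' _).2, mul_assoc]

theorem IsRot.inv {b : OrthonormalBasis (Fin 3) ℝ E3} {τ : LI} {w : ℂ} (h : IsRot b τ w)
    (hw : w ≠ 0) : IsRot b τ⁻¹ w⁻¹ := by
  intro x
  have h1 : τ (τ⁻¹ x) = x := τ.apply_symm_apply x
  refine ⟨?_, ?_⟩
  · rw [← (h _).1, h1]
  · have h2 := (h (τ⁻¹ x)).2
    rw [h1] at h2
    rw [h2, ← mul_assoc, inv_mul_cancel₀ hw, one_mul]

theorem IsRot.pow {b : OrthonormalBasis (Fin 3) ℝ E3} {τ : LI} {w : ℂ} (h : IsRot b τ w) (n : ℕ) :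
    IsRot b (τ ^ n) (w ^ n) := by
  induction n with
  | zero => exact IsRot.one b
  | succ n ih =>
    rw [pow_succ, pow_succ]
    exact ih.mul h

theorem IsRot.zpow {b : OrthonormalBasis (Fin 3) ℝ E3} {τ : LI} {w : ℂ} (h : IsRot b τ w)
    (hw : w ≠ 0) (n : ℤ) : IsRot b (τ ^ n) (w ^ n) := by
  obtain ⟨k, rfl | rfl⟩ := n.eq_nat_or_neg
  · rw [zpow_natCast, zpow_natCast]
    exact h.pow k
  · rw [zpow_neg, zpow_neg, zpow_natCast, zpow_natCast]
    exact (h.pow k).inv (pow_ne_zero _ hw)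

theorem norm_sq_coord (b : OrthonormalBasis (Fin 3) ℝ E3) (x : E3) :
    ‖x‖ ^ 2 = (inner ℝ (b 0) x) ^ 2 + ‖zc b x‖ ^ 2 := by
  rw [← b.sum_sq_norm_inner_right x, Fin.sum_univ_three, Real.norm_eq_abs, Real.norm_eq_abs,
    Real.norm_eq_abs, sq_abs, sq_abs, sq_abs, add_assoc]
  congr 1
  rw [← Complex.normSq_eq_norm_sq, Complex.normSq_apply, zc]
  ring

theorem zc_sub (b : OrthonormalBasis (Fin 3) ℝ E3) (x y : E3) : zc b (x - y) = zc b x - zc b y := by
  apply Complex.ext
  · exact inner_sub_right _ _ _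
  · exact inner_sub_right _ _ _

theorem eq_of_coord (b : OrthonormalBasis (Fin 3) ℝ E3) {x y : E3}
    (h0 : inner ℝ (b 0) x = inner ℝ (b 0) y) (h1 : zc b x = zc b y) : x = y := by
  rw [← sub_eq_zero, ← norm_eq_zero, ← sq_eq_zero_iff (M₀ := ℝ), norm_sq_coord b, zc_sub, h1,
    inner_sub_right, h0, sub_self, sub_self, norm_zero]
  norm_num

/-- a linear isometry of infinite order which fixes the first basis vector is a rotation -/
theorem isRot_of_fix (b : OrthonormalBasis (Fin 3) ℝ E3) (τ : LI) (hb : τ (b 0) = b 0)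
    (hτ : τ ^ 2 ≠ 1) : ∃ w : ℂ, ‖w‖ = 1 ∧ IsRot b τ w := by
  have h00 : ∀ x, inner ℝ (b 0) (τ x) = inner ℝ (b 0) x := by
    intro x
    have h1 := τ.inner_map_map (b 0) x
    rwa [hb] at h1
  have hon : ∀ i j, inner ℝ (b i) (b j) = if i = j then (1 : ℝ) else 0 := by
    intro i j
    exact orthonormal_iff_ite.1 b.orthonormal i j
  have h01 : inner ℝ (b 0) (τ (b 1)) = 0 := by
    rw [h00, hon, if_neg (by decide)]
  have h02 : inner ℝ (b 0) (τ (b 2)) = 0 := by
    rw [h00, hon, if_neg (by decide)]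
  set p : ℝ := inner ℝ (b 1) (τ (b 1)) with hp
  set q : ℝ := inner ℝ (b 2) (τ (b 1)) with hq
  set r : ℝ := inner ℝ (b 1) (τ (b 2)) with hr
  set t : ℝ := inner ℝ (b 2) (τ (b 2)) with ht
  have e1 : p * p + q * q = 1 := by
    have h1 := b.sum_inner_mul_inner (τ (b 1)) (τ (b 1))
    rw [τ.inner_map_map, hon, if_pos rfl, Fin.sum_univ_three, real_inner_comm (b 0),
      real_inner_comm (b 1), real_inner_comm (b 2), h01] at h1
    linarith
  have e2 : r * r + t * t = 1 := by
    have h1 := b.sum_inner_mul_inner (τ (b 2)) (τ (b 2))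
    rw [τ.inner_map_map, hon, if_pos rfl, Fin.sum_univ_three, real_inner_comm (b 0),
      real_inner_comm (b 1), real_inner_comm (b 2), h02] at h1
    linarith
  have e3 : p * r + q * t = 0 := by
    have h1 := b.sum_inner_mul_inner (τ (b 1)) (τ (b 2))
    rw [τ.inner_map_map, hon, if_neg (by decide), Fin.sum_univ_three, real_inner_comm (b 0),
      real_inner_comm (b 1), real_inner_comm (b 2), h01] at h1
    linarith
  have hexp : ∀ x, τ x = inner ℝ (b 0) x • b 0 + inner ℝ (b 1) x • τ (b 1) +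
      inner ℝ (b 2) x • τ (b 2) := by
    intro x
    conv_lhs => rw [← b.sum_repr' x]
    rw [Fin.sum_univ_three, map_add, map_add, τ.map_smul, τ.map_smul, τ.map_smul, hb]
  have hx1 : ∀ x, inner ℝ (b 1) (τ x) = p * inner ℝ (b 1) x + r * inner ℝ (b 2) x := by
    intro x
    rw [hexp x, inner_add_right, inner_add_right, inner_smul_right, inner_smul_right,
      inner_smul_right, hon, if_neg (by decide), ← hp, ← hr]
    ring
  have hx2 : ∀ x, inner ℝ (b 2) (τ x) = q * inner ℝ (b 1) x + t * inner ℝ (b 2) x := by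
    intro x
    rw [hexp x, inner_add_right, inner_add_right, inner_smul_right, inner_smul_right,
      inner_smul_right, hon, if_neg (by decide), ← hq, ← ht]
    ring
  have e4 : (p * t - q * r) ^ 2 = 1 := by
    have h1 : (p * t - q * r) ^ 2 = (p * p + q * q) * (r * r + t * t) - (p * r + q * t) ^ 2 := by
      ring
    rw [h1, e1, e2, e3]
    norm_num
  rw [pow_two] at e4
  rcases mul_self_eq_one_iff.1 e4 with h | h
  · have h1 : (p - t) ^ 2 + (q + r) ^ 2 = 0 := by nlinarith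
    have h2 : p - t = 0 := by nlinarith [sq_nonneg (p - t), sq_nonneg (q + r)]
    have h3 : q + r = 0 := by nlinarith [sq_nonneg (p - t), sq_nonneg (q + r)]
    refine ⟨⟨p, q⟩, ?_, fun x => ⟨h00 x, ?_⟩⟩
    · have h4 : ‖(⟨p, q⟩ : ℂ)‖ ^ 2 = 1 := by
        rw [← Complex.normSq_eq_norm_sq, Complex.normSq_apply]
        exact e1
      nlinarith [norm_nonneg (⟨p, q⟩ : ℂ)]
    · apply Complex.ext
      · rw [Complex.mul_re]
        change inner ℝ (b 1) (τ x) = p * inner ℝ (b 1) x - q * inner ℝ (b 2) x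
        rw [hx1, show r = -q by linarith]
        ring
      · rw [Complex.mul_im]
        change inner ℝ (b 2) (τ x) = p * inner ℝ (b 2) x + q * inner ℝ (b 1) x
        rw [hx2, show t = p by linarith]
        ring
  · exfalso
    have h1 : (p + t) ^ 2 + (q - r) ^ 2 = 0 := by nlinarith
    have h2 : p + t = 0 := by nlinarith [sq_nonneg (p + t), sq_nonneg (q - r)]
    have h3 : q - r = 0 := by nlinarith [sq_nonneg (p + t), sq_nonneg (q - r)]
    apply hτ
    ext1 x
    change (τ ^ 2) x = x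
    have h4 : (τ ^ 2) x = τ (τ x) := by
      rw [pow_two]
      rfl
    rw [h4]
    refine eq_of_coord b ?_ ?_
    · rw [h00, h00]
    · apply Complex.ext
      · change inner ℝ (b 1) (τ (τ x)) = inner ℝ (b 1) x
        rw [hx1, hx1, hx2, show t = -p by linarith, show r = q by linarith]
        have : p * (p * inner ℝ (b 1) x + q * inner ℝ (b 2) x) +
          q * (q * inner ℝ (b 1) x + -p * inner ℝ (b 2) x) =
          (p * p + q * q) * inner ℝ (b 1) x := by ring
        rw [this, e1, one_mul]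
      · change inner ℝ (b 2) (τ (τ x)) = inner ℝ (b 2) x
        rw [hx2, hx1, hx2, show t = -p by linarith, show r = q by linarith]
        have : q * (p * inner ℝ (b 1) x + q * inner ℝ (b 2) x) +
          -p * (q * inner ℝ (b 1) x + -p * inner ℝ (b 2) x) =
          (p * p + q * q) * inner ℝ (b 2) x := by ring
        rw [this, e1, one_mul]

/-- an orthonormal basis with a given first vector -/
theorem exists_basis {u : E3} (hu : ‖u‖ = 1) : ∃ b : OrthonormalBasis (Fin 3) ℝ E3, b 0 = u := by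
  have h1 : Orthonormal ℝ (({0} : Set (Fin 3)).domRestrict fun _ : Fin 3 => u) := by
    refine ⟨fun i => hu, fun i j hij => ?_⟩
    exact absurd (Subsingleton.elim i j) hij
  obtain ⟨b, hb⟩ := h1.exists_orthonormalBasis_extension_of_card_eq (by
    rw [finrank_E3, Fintype.card_fin])
  exact ⟨b, hb 0 rfl⟩

/-- The orbit of `x` under a linear isometry of infinite order fixing `u` is dense in the circle
through `x` with the axis `u`. -/
theorem orbit_dense {τ : LI} {u : E3} (hu : ‖u‖ = 1) (hτu : τ u = u)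
    (hτ : ∀ n : ℕ, 0 < n → τ ^ n ≠ 1) {x y : E3} (hn : ‖x‖ = ‖y‖)
    (hi : inner ℝ u x = inner ℝ u y) (ε : ℝ) (hε : 0 < ε) : ∃ n : ℤ, ‖(τ ^ n) x - y‖ < ε := by
  obtain ⟨b, hb⟩ := exists_basis hu
  obtain ⟨w, hw, hrot⟩ := isRot_of_fix b τ (by rw [hb, hτu]) (hτ 2 (by norm_num))
  have hw0 : w ≠ 0 := by
    rintro rfl
    rw [norm_zero] at hw
    exact zero_ne_one hw
  have hwn : ∀ n : ℕ, 0 < n → w ^ n ≠ 1 := by
    intro n hn0 h
    apply hτ n hn0
    ext1 z
    change (τ ^ n) z = z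
    have h1 := hrot.pow n z
    rw [h, one_mul] at h1
    exact eq_of_coord b h1.1 h1.2
  rw [← hb] at hi
  have hz : ‖zc b x‖ = ‖zc b y‖ := by
    have h1 := norm_sq_coord b x
    have h2 := norm_sq_coord b y
    rw [hn, h2, hi] at h1
    have h3 : ‖zc b x‖ ^ 2 = ‖zc b y‖ ^ 2 := by linarith
    nlinarith [norm_nonneg (zc b x), norm_nonneg (zc b y), sq_nonneg (‖zc b x‖ - ‖zc b y‖),
      mul_self_inj_of_nonneg (norm_nonneg (zc b x)) (norm_nonneg (zc b y))]
  have hdist : ∀ n : ℤ, ‖(τ ^ n) x - y‖ = ‖w ^ n * zc b x - zc b y‖ := by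
    intro n
    have h1 := hrot.zpow hw0 n x
    have h2 := norm_sq_coord b ((τ ^ n) x - y)
    rw [inner_sub_right, h1.1, hi, sub_self, zc_sub, h1.2] at h2
    have h3 : ‖(τ ^ n) x - y‖ ^ 2 = ‖w ^ n * zc b x - zc b y‖ ^ 2 := by
      rw [h2]
      ring
    exact (pow_left_inj₀ (norm_nonneg _) (norm_nonneg _) two_ne_zero).1 h3
  by_cases h0 : zc b x = 0
  · refine ⟨0, ?_⟩
    have h1 : zc b y = 0 := by
      rw [← norm_eq_zero, ← hz, h0, norm_zero]
    rw [hdist, h0, h1, mul_zero, sub_zero, norm_zero]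
    exact hε
  · have h1 : 0 < ‖zc b x‖ := norm_pos_iff.2 h0
    obtain ⟨n, hn'⟩ := circle_dense w hw hwn (zc b y / zc b x) (by
      rw [norm_div, ← hz, div_self h1.ne']) (ε / ‖zc b x‖) (div_pos hε h1)
    refine ⟨n, ?_⟩
    rw [hdist]
    have h2 : w ^ n * zc b x - zc b y = (w ^ n - zc b y / zc b x) * zc b x := by
      rw [sub_mul, div_mul_cancel₀ _ h0]
    rw [h2, norm_mul]
    exact (lt_div_iff₀ h1).1 hn'

end

end Pool.Agent.Lib.MP_fdbf44_an
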