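import Pool.Agent.Lib.MP_fdbf44_an.Fin

/-! The condition on the residues modulo two cannot be improved: every pair of distinct nontrivial
permutations is the pair of residues of two signed permutation matrices of determinant one which
divide the sphere into three parts up to a null set. -/

open MeasureTheory Metric Set

namespace Pool.Agent.Lib.MP_fdbf44_an

noncomputable section

/-- the sign of a permutation as a real number -/
def sg (p : Equiv.Perm (Fin 3)) : ℝ := ((Equiv.Perm.sign p : ℤ) : ℝ)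

theorem sg_mul (p q : Equiv.Perm (Fin 3)) : sg (p * q) = sg p * sg q := by
  unfold sg
  rw [Equiv.Perm.sign_mul]
  push_cast
  rfl

theorem sg_sq (p : Equiv.Perm (Fin 3)) : sg p * sg p = 1 := by
  unfold sg
  rcases Int.units_eq_one_or (Equiv.Perm.sign p) with h | h <;> rw [h] <;> norm_num

theorem sg_cases (p : Equiv.Perm (Fin 3)) : (Equiv.Perm.sign p = 1 ∧ sg p = 1) ∨
    (Equiv.Perm.sign p = -1 ∧ sg p = -1) := by
  unfold sg
  rcases Int.units_eq_one_or (Equiv.Perm.sign p) with h | h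
  · exact Or.inl ⟨h, by rw [h]; norm_num⟩
  · exact Or.inr ⟨h, by rw [h]; norm_num⟩

/-- the signed permutation isometry: `(gp p x) i = sign p * x (p⁻¹ i)` -/
def gp (p : Equiv.Perm (Fin 3)) : E3 ≃ₗᵢ[ℝ] E3 where
  toFun x := WithLp.toLp 2 fun i => sg p * x (p.symm i)
  map_add' x y := by
    ext i
    change sg p * (x (p.symm i) + y (p.symm i)) = sg p * x (p.symm i) + sg p * y (p.symm i)
    ring
  map_smul' c x := by
    ext i
    change sg p * (c * x (p.symm i)) = c * (sg p * x (p.symm i))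
    ring
  invFun x := WithLp.toLp 2 fun i => sg p * x (p i)
  left_inv x := by
    ext i
    change sg p * (sg p * x (p.symm (p i))) = x i
    rw [← mul_assoc, sg_sq, one_mul, Equiv.symm_apply_apply]
  right_inv x := by
    ext i
    change sg p * (sg p * x (p (p.symm i))) = x i
    rw [← mul_assoc, sg_sq, one_mul, Equiv.apply_symm_apply]
  norm_map' x := by
    rw [EuclideanSpace.norm_eq, EuclideanSpace.norm_eq]
    congr 1
    have h1 : ∀ i, ‖(WithLp.toLp 2 fun i => sg p * x (p.symm i) : E3) i‖ ^ 2 =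
        (fun i => ‖x i‖ ^ 2) (p.symm i) := by
      intro i
      change ‖sg p * x (p.symm i)‖ ^ 2 = ‖x (p.symm i)‖ ^ 2
      rw [Real.norm_eq_abs, Real.norm_eq_abs, sq_abs, sq_abs, mul_pow, sq (sg p), sg_sq, one_mul]
    refine (Finset.sum_congr rfl fun i _ => h1 i).trans ?_
    exact Equiv.sum_comp p.symm (fun i => ‖x i‖ ^ 2)

theorem gp_apply (p : Equiv.Perm (Fin 3)) (x : E3) (i : Fin 3) :
    gp p x i = sg p * x (p.symm i) := rfl

theorem gp_symm_apply (p : Equiv.Perm (Fin 3)) (x : E3) (i : Fin 3) :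
    (gp p).symm x i = sg p * x (p i) := rfl

/-- the matrix of `gp p` -/
def mp (p : Equiv.Perm (Fin 3)) : Matrix (Fin 3) (Fin 3) ℚ := fun i k =>
  if i = p k then ((Equiv.Perm.sign p : ℤ) : ℚ) else 0

theorem mp_isMat (p : Equiv.Perm (Fin 3)) : IsMat (gp p) (mp p) := by
  intro i k
  rw [gp_apply, PiLp.single_apply, mp]
  have h1 : i = p k ↔ p.symm i = k := by rw [Equiv.symm_apply_eq]
  by_cases h : i = p k
  · rw [if_pos h, if_pos (h1.1 h), mul_one, sg, map_intCast]
  · rw [if_neg h, if_neg fun h2 => h (h1.2 h2), mul_zero, map_zero]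

theorem mp_odd (p : Equiv.Perm (Fin 3)) (i k : Fin 3) :
    (mp p i k).den = 1 ∧ (Odd (mp p i k).num ↔ i = p k) := by
  unfold mp
  by_cases h : i = p k
  · rw [if_pos h]
    rcases Int.units_eq_one_or (Equiv.Perm.sign p) with h1 | h1
    · rw [h1]
      refine ⟨by norm_num, ?_⟩
      constructor
      · exact fun _ => h
      · intro _
        norm_num
    · rw [h1]
      refine ⟨by norm_num, ?_⟩
      constructor
      · exact fun _ => h
      · intro _
        norm_num
  · rw [if_neg h]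
    refine ⟨rfl, ?_⟩
    constructor
    · intro h2
      exact absurd h2 (by decide)
    · exact fun h2 => absurd h2 h

theorem mp_det (p : Equiv.Perm (Fin 3)) : (mp p).det = 1 := by
  have h1 : mp p = ((Equiv.Perm.sign p : ℤ) : ℚ) • (Equiv.Perm.permMatrix ℚ p.symm) := by
    ext i k
    rw [Matrix.smul_apply, Equiv.Perm.permMatrix, PEquiv.toMatrix_toPEquiv_apply,
      Pi.single_apply, smul_eq_mul]
    unfold mp
    have h2 : i = p k ↔ k = p.symm i := by
      rw [Equiv.eq_symm_apply]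
      exact ⟨fun h => h.symm, fun h => h.symm⟩
    by_cases h : i = p k
    · rw [if_pos h, if_pos (h2.1 h), mul_one]
    · rw [if_neg h, if_neg fun h3 => h (h2.2 h3), mul_zero]
  rw [h1, Matrix.det_smul, Fintype.card_fin, Matrix.det_permutation, Equiv.Perm.sign_symm]
  rcases Int.units_eq_one_or (Equiv.Perm.sign p) with h | h <;> rw [h] <;> norm_num

theorem isMat_det {ρ : E3 ≃ₗᵢ[ℝ] E3} {M : Matrix (Fin 3) (Fin 3) ℚ} (h : IsMat ρ M) :
    LinearMap.det ρ.toLinearEquiv.toLinearMap = ((M.det : ℚ) : ℝ) := by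
  have h1 : LinearMap.toMatrix (EuclideanSpace.basisFun (Fin 3) ℝ).toBasis
      (EuclideanSpace.basisFun (Fin 3) ℝ).toBasis ρ.toLinearEquiv.toLinearMap =
      M.map (algebraMap ℚ ℝ) := by
    ext i k
    rw [LinearMap.toMatrix_apply, Matrix.map_apply, h i k]
    simp
  rw [← LinearMap.det_toMatrix (EuclideanSpace.basisFun (Fin 3) ℝ).toBasis, h1]
  have h2 := (RingHom.map_det (algebraMap ℚ ℝ) M).symm
  rw [RingHom.mapMatrix_apply] at h2
  rw [h2]
  rfl

/-! ### the fundamental domain -/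

/-- the domain -/
def Dm (x : E3) : Prop := 0 < x 0 + x 1 + x 2 ∧ x 1 < x 0 ∧ x 2 < x 0

/-- generic points -/
def Gen (x : E3) : Prop := x 0 + x 1 + x 2 ≠ 0 ∧ ∀ i j, i ≠ j → x i ≠ x j

theorem sum_perm (x : E3) (r : Equiv.Perm (Fin 3)) :
    x (r 0) + x (r 1) + x (r 2) = x 0 + x 1 + x 2 := by
  have h1 := Equiv.sum_comp r (fun i => x i)
  rw [Fin.sum_univ_three, Fin.sum_univ_three] at h1
  exact h1

theorem exists_perm : ∀ (s : ℤˣ) (i : Fin 3), ∃ r : Equiv.Perm (Fin 3),
    Equiv.Perm.sign r = s ∧ r 0 = i := by decide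

theorem perm_unique : ∀ r r' : Equiv.Perm (Fin 3), Equiv.Perm.sign r = Equiv.Perm.sign r' →
    r 0 = r' 0 → r = r' := by decide

theorem exists_max (f : Fin 3 → ℝ) (hf : ∀ i j, i ≠ j → f i ≠ f j) :
    ∃ i, ∀ j, j ≠ i → f j < f i := by
  obtain ⟨i, hi⟩ := Finite.exists_max f
  exact ⟨i, fun j hj => lt_of_le_of_ne (hi j) (hf j i hj)⟩

theorem dom_unique {x : E3} (hx : Gen x) :
    ∃ r : Equiv.Perm (Fin 3), ∀ r', Dm ((gp r').symm x) ↔ r' = r := by
  obtain ⟨h0, h1⟩ := hx
  have key : ∀ s : ℝ, s * s = 1 → ∃ i, ∀ j, j ≠ i → s * x j < s * x i := by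
    intro s hs
    refine exists_max (fun i => s * x i) fun i j hij h2 => h1 i j hij ?_
    have h3 : s * (s * x i) = s * (s * x j) := congrArg (fun t => s * t) h2
    rw [← mul_assoc, ← mul_assoc, hs, one_mul, one_mul] at h3
    exact h3
  have hex : ∀ s : ℤˣ, 0 < ((s : ℤ) : ℝ) * (x 0 + x 1 + x 2) →
      ∃ r : Equiv.Perm (Fin 3), ∀ r', Dm ((gp r').symm x) ↔ r' = r := by
    intro s hs
    have hss : ((s : ℤ) : ℝ) * ((s : ℤ) : ℝ) = 1 := by
      rcases Int.units_eq_one_or s with h | h <;> rw [h] <;> norm_num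
    obtain ⟨i, hi⟩ := key _ hss
    obtain ⟨r, hr1, hr2⟩ := exists_perm s i
    have hD : ∀ r', Dm ((gp r').symm x) ↔ 0 < sg r' * (x 0 + x 1 + x 2) ∧
        sg r' * x (r' 1) < sg r' * x (r' 0) ∧ sg r' * x (r' 2) < sg r' * x (r' 0) := by
      intro r'
      unfold Dm
      rw [gp_symm_apply, gp_symm_apply, gp_symm_apply, ← mul_add, ← mul_add, sum_perm]
    refine ⟨r, fun r' => ?_⟩
    rw [hD]
    constructor
    · rintro ⟨a1, a2, a3⟩
      have hsg : Equiv.Perm.sign r' = Equiv.Perm.sign r := by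
        rw [hr1]
        by_contra hne
        have h3 : sg r' = -((s : ℤ) : ℝ) := by
          unfold sg
          rcases Int.units_eq_one_or (Equiv.Perm.sign r') with h | h <;>
            rcases Int.units_eq_one_or s with h' | h'
          · exact absurd (h.trans h'.symm) hne
          · rw [h, h']
            norm_num
          · rw [h, h']
            norm_num
          · exact absurd (h.trans h'.symm) hne
        rw [h3, neg_mul] at a1
        linarith
      refine perm_unique _ _ hsg ?_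
      by_contra hne
      have hsg2 : sg r' = ((s : ℤ) : ℝ) := by
        unfold sg
        rw [hsg, hr1]
      rw [hsg2] at a2 a3
      rw [hr2] at hne
      have h4 := hi (r' 0) hne
      -- `i` is `r' 1` or `r' 2`
      have h5 : i = r' 1 ∨ i = r' 2 := by
        obtain ⟨l, rfl⟩ := r'.surjective i
        fin_cases l
        · exact absurd rfl hne
        · exact Or.inl rfl
        · exact Or.inr rfl
      rcases h5 with h5 | h5
      · rw [← h5] at a2
        exact lt_asymm a2 h4
      · rw [← h5] at a3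
        exact lt_asymm a3 h4
    · rintro rfl
      have hsg2 : sg r' = ((s : ℤ) : ℝ) := by
        unfold sg
        rw [hr1]
      rw [hsg2, hr2]
      refine ⟨hs, hi _ ?_, hi _ ?_⟩
      · intro h2
        rw [← hr2] at h2
        exact absurd (r'.injective h2) (by decide)
      · intro h2
        rw [← hr2] at h2
        exact absurd (r'.injective h2) (by decide)
  rcases lt_or_gt_of_ne h0 with h2 | h2
  · refine hex (-1) ?_
    push_cast
    linarith
  · refine hex 1 ?_
    push_cast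
    linarith

/-! ### null sets -/

open scoped Pointwise in
theorem null_plane (l : E3 →ₗ[ℝ] ℝ) (hl : l ≠ 0) : ∀ᵐ x : S2 ∂mu, l x ≠ 0 := by
  have hcl : MeasurableSet {x : S2 | l x = 0} := by
    have hc : Continuous fun x : S2 => l x :=
      (LinearMap.continuous_of_finiteDimensional l).comp continuous_subtype_val
    exact (isClosed_singleton.preimage hc).measurableSet
  have h1 : mu {x : S2 | l x = 0} = 0 := by
    rw [Measure.toSphere_apply' _ hcl]
    have h2 : (volume : Measure E3) (Ioo (0 : ℝ) 1 • ((↑) '' {x : S2 | l x = 0} : Set E3)) = 0 := by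
      refine measure_mono_null ?_ (Measure.addHaar_submodule (volume : Measure E3)
        (LinearMap.ker l) ?_)
      · rintro _ ⟨r, hr, _, ⟨x, hx, rfl⟩, rfl⟩
        change l (r • (x : E3)) = 0
        rw [map_smul, show l x = 0 from hx, smul_zero]
      · intro h3
        rw [LinearMap.ker_eq_top] at h3
        exact hl h3
    rw [h2, mul_zero]
  rw [ae_iff]
  refine measure_mono_null (fun x hx => ?_) h1
  have h2 : ¬ l x ≠ 0 := hx
  exact not_not.1 h2

theorem gen_ae : ∀ᵐ x : S2 ∂mu, Gen (x : E3) := by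
  have hc : ∀ i : Fin 3, ∃ l : E3 →ₗ[ℝ] ℝ, ∀ x, l x = x i := fun i =>
    ⟨(EuclideanSpace.proj i : E3 →L[ℝ] ℝ).toLinearMap, fun x => rfl⟩
  choose l hl using hc
  have h1 : l 0 + l 1 + l 2 ≠ 0 := by
    intro h
    have h2 := congrArg (fun m : E3 →ₗ[ℝ] ℝ => m (EuclideanSpace.single 0 1)) h
    simp only [LinearMap.add_apply, hl, LinearMap.zero_apply] at h2
    simp at h2
  have h2 : ∀ i j, i ≠ j → l i - l j ≠ 0 := by
    intro i j hij h
    have h2 := congrArg (fun m : E3 →ₗ[ℝ] ℝ => m (EuclideanSpace.single i 1)) h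
    simp only [LinearMap.sub_apply, hl, LinearMap.zero_apply] at h2
    simp [hij.symm] at h2
  have h3 : ∀ i j, ∀ᵐ x : S2 ∂mu, i ≠ j → (x : E3) i ≠ (x : E3) j := by
    intro i j
    by_cases hij : i = j
    · exact Filter.Eventually.of_forall fun x h => absurd hij h
    · filter_upwards [null_plane _ (h2 i j hij)] with x hx _ h4
      apply hx
      rw [LinearMap.sub_apply, hl, hl, h4, sub_self]
  have h4 : ∀ᵐ x : S2 ∂mu, ∀ i j, i ≠ j → (x : E3) i ≠ (x : E3) j := by
    rw [ae_all_iff]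
    intro i
    rw [ae_all_iff]
    exact h3 i
  filter_upwards [null_plane _ h1, h4] with x hx h5
  refine ⟨fun h6 => hx ?_, h5⟩
  rw [LinearMap.add_apply, LinearMap.add_apply, hl, hl, hl]
  exact h6

/-! ### the division -/

theorem tile : ∀ p q : Equiv.Perm (Fin 3), p ≠ 1 → q ≠ 1 → p ≠ q → ∃ y : Equiv.Perm (Fin 3),
    ∀ r : Equiv.Perm (Fin 3), ∃ i : Fin 3,
      (r = (![1, p, q] : Fin 3 → Equiv.Perm (Fin 3)) i ∨
      r = (![1, p, q] : Fin 3 → Equiv.Perm (Fin 3)) i * y) ∧ ∀ j : Fin 3,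
      (r = (![1, p, q] : Fin 3 → Equiv.Perm (Fin 3)) j ∨
      r = (![1, p, q] : Fin 3 → Equiv.Perm (Fin 3)) j * y) → j = i := by
  decide +kernel

theorem gp_symm_symm (p y : Equiv.Perm (Fin 3)) (x : E3) :
    (gp y).symm ((gp p).symm x) = (gp (p * y)).symm x := by
  ext i
  rw [gp_symm_apply, gp_symm_apply, gp_symm_apply, sg_mul, Equiv.Perm.mul_apply]
  ring

theorem gp_one_symm (x : E3) : (gp 1).symm x = x := by
  ext i
  rw [gp_symm_apply, sg, Equiv.Perm.sign_one]
  simp

theorem measurable_Dm (p : Equiv.Perm (Fin 3)) : MeasurableSet {x : S2 | Dm ((gp p).symm x)} := by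
  have hc : ∀ i, Measurable fun x : S2 => ((gp p).symm (x : E3)) i := by
    intro i
    exact (((EuclideanSpace.proj i : E3 →L[ℝ] ℝ).continuous.comp (gp p).symm.continuous).comp
      continuous_subtype_val).measurable
  unfold Dm
  exact (measurableSet_lt measurable_const (((hc 0).add (hc 1)).add (hc 2))).inter
    ((measurableSet_lt (hc 1) (hc 0)).inter (measurableSet_lt (hc 2) (hc 0)))

/-- **Sharpness.** -/
theorem sharp {p q : Equiv.Perm (Fin 3)} (hp : p ≠ 1) (hq : q ≠ 1) (hpq : p ≠ q) :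
    ∃ A : Set E3, A ⊆ sphere 0 1 ∧ Div3 (gp p) (gp q) A := by
  obtain ⟨y, hy⟩ := tile p q hp hq hpq
  refine ⟨{x | x ∈ sphere (0 : E3) 1 ∧ (Dm x ∨ Dm ((gp y).symm x))}, fun x hx => hx.1, ?_, ?_⟩
  · have h1 : (Subtype.val : S2 → E3) ⁻¹' {x | x ∈ sphere (0 : E3) 1 ∧ (Dm x ∨ Dm ((gp y).symm x))} =
        {x : S2 | Dm ((gp 1).symm x)} ∪ {x : S2 | Dm ((gp y).symm x)} := by
      ext x
      rw [mem_preimage, mem_ofPred_eq, mem_union, mem_ofPred_eq, mem_ofPred_eq, gp_one_symm]
      exact ⟨fun h => h.2, fun h => ⟨x.2, h⟩⟩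
    rw [h1]
    exact ((measurable_Dm 1).union (measurable_Dm y)).nullMeasurableSet
  · filter_upwards [gen_ae] with x hx
    obtain ⟨r, hr⟩ := dom_unique hx
    have himg : ∀ a : Equiv.Perm (Fin 3),
        ((x : E3) ∈ gp a '' {x | x ∈ sphere (0 : E3) 1 ∧ (Dm x ∨ Dm ((gp y).symm x))}) ↔
          (r = a ∨ r = a * y) := by
      intro a
      rw [mem_image_iff, mem_preimage, mem_ofPred_eq, coe_rsph_symm, gp_symm_symm, hr, hr]
      constructor
      · rintro ⟨-, h | h⟩
        · exact Or.inl h.symm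
        · exact Or.inr h.symm
      · intro h
        refine ⟨((rsph (gp a)).symm x).2, ?_⟩
        rcases h with h | h
        · exact Or.inl h.symm
        · exact Or.inr h.symm
    have h1 : ∀ i : Fin 3, ((x : E3) ∈ (![{x | x ∈ sphere (0 : E3) 1 ∧ (Dm x ∨ Dm ((gp y).symm x))},
        gp p '' {x | x ∈ sphere (0 : E3) 1 ∧ (Dm x ∨ Dm ((gp y).symm x))},
        gp q '' {x | x ∈ sphere (0 : E3) 1 ∧ (Dm x ∨ Dm ((gp y).symm x))}] :
          Fin 3 → Set E3) i) ↔ (r = (![1, p, q] : Fin 3 → Equiv.Perm (Fin 3)) i ∨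
            r = (![1, p, q] : Fin 3 → Equiv.Perm (Fin 3)) i * y) := by
      intro i
      fin_cases i
      · have h2 : gp 1 '' {x | x ∈ sphere (0 : E3) 1 ∧ (Dm x ∨ Dm ((gp y).symm x))} =
            {x | x ∈ sphere (0 : E3) 1 ∧ (Dm x ∨ Dm ((gp y).symm x))} := by
          have h3 : ∀ z, gp 1 z = z := by
            intro z
            conv_rhs => rw [← (gp 1).apply_symm_apply z, gp_one_symm]
          ext z
          rw [mem_image]
          constructor
          · rintro ⟨w, hw, rfl⟩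
            rw [h3]
            exact hw
          · exact fun hz => ⟨z, hz, h3 z⟩
        have h4 := himg 1
        rw [h2] at h4
        exact h4
      · exact himg p
      · exact himg q
    obtain ⟨i, hi, hu⟩ := hy r
    exact ⟨i, (h1 i).2 hi, fun j hj => hu j ((h1 j).1 hj)⟩

end

end Pool.Agent.Lib.MP_fdbf44_an
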