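import Mathlib

/-! Integration of polynomials over the unit sphere of `ℝ³`: invariance under linear isometries and
density of the polynomials in `L²`. -/

open MeasureTheory Metric Set MvPolynomial

namespace Pool.Agent.Lib.MP_fdbf44_an

noncomputable section

/-- Euclidean space of dimension three. -/
abbrev E3 := EuclideanSpace ℝ (Fin 3)

/-- The unit sphere. -/
abbrev S2 := sphere (0 : E3) 1

/-- The surface measure of the unit sphere. -/
abbrev mu : Measure S2 := (volume : Measure E3).toSphere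

/-- The homeomorphism of the unit sphere induced by a linear isometry. -/
def rsph (R : E3 ≃ₗᵢ[ℝ] E3) : S2 ≃ₜ S2 where
  toFun x := ⟨R x, by
    rw [mem_sphere_zero_iff_norm, R.norm_map]
    exact mem_sphere_zero_iff_norm.1 x.2⟩
  invFun x := ⟨R.symm x, by
    rw [mem_sphere_zero_iff_norm, R.symm.norm_map]
    exact mem_sphere_zero_iff_norm.1 x.2⟩
  left_inv x := Subtype.ext (R.symm_apply_apply _)
  right_inv x := Subtype.ext (R.apply_symm_apply _)
  continuous_toFun := (R.continuous.comp continuous_subtype_val).subtype_mk _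
  continuous_invFun := (R.symm.continuous.comp continuous_subtype_val).subtype_mk _

@[simp] theorem coe_rsph (R : E3 ≃ₗᵢ[ℝ] E3) (x : S2) : ((rsph R x : S2) : E3) = R x := rfl

@[simp] theorem coe_rsph_symm (R : E3 ≃ₗᵢ[ℝ] E3) (x : S2) :
    (((rsph R).symm x : S2) : E3) = R.symm x := rfl

open scoped Pointwise in
theorem rsph_preimage (R : E3 ≃ₗᵢ[ℝ] E3) (s : Set S2) :
    Ioo (0 : ℝ) 1 • ((↑) '' (rsph R ⁻¹' s) : Set E3) =
      R ⁻¹' (Ioo (0 : ℝ) 1 • ((↑) '' s : Set E3)) := by
  ext x
  rw [mem_preimage, mem_smul, mem_smul]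
  constructor
  · rintro ⟨r, hr, y, ⟨z, hz, rfl⟩, rfl⟩
    exact ⟨r, hr, R z, ⟨rsph R z, hz, rfl⟩, (R.map_smul r _).symm⟩
  · rintro ⟨r, hr, y, ⟨z, hz, rfl⟩, h⟩
    refine ⟨r, hr, R.symm z, ⟨(rsph R).symm z, ?_, rfl⟩, ?_⟩
    · rw [mem_preimage, Homeomorph.apply_symm_apply]
      exact hz
    · rw [← R.symm.map_smul, h, R.symm_apply_apply]

/-- The surface measure is invariant under linear isometries. -/
theorem rsph_measurePreserving (R : E3 ≃ₗᵢ[ℝ] E3) : MeasurePreserving (rsph R) mu mu := by
  refine ⟨(rsph R).measurable, ?_⟩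
  ext s hs
  rw [Measure.map_apply (rsph R).measurable hs, Measure.toSphere_apply' _ hs,
    Measure.toSphere_apply' _ ((rsph R).measurable hs), rsph_preimage]
  congr 1
  exact R.measurePreserving.measure_preimage_emb R.toHomeomorph.measurableEmbedding _

theorem rsph_symm_measurePreserving (R : E3 ≃ₗᵢ[ℝ] E3) :
    MeasurePreserving (rsph R).symm mu mu :=
  rsph_measurePreserving R.symm

/-- The continuous function on the sphere given by a polynomial. -/
def pc : MvPolynomial (Fin 3) ℝ →ₐ[ℝ] C(S2, ℝ) :=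
  MvPolynomial.aeval (fun i => (⟨fun x => (x : E3) i, by fun_prop⟩ : C(S2, ℝ)))

theorem pc_apply (p : MvPolynomial (Fin 3) ℝ) (x : S2) :
    pc p x = MvPolynomial.eval (fun i => (x : E3) i) p := by
  induction p using MvPolynomial.induction_on with
  | C a => simp [pc]
  | add p q hp hq => rw [map_add, ContinuousMap.add_apply, hp, hq, map_add]
  | mul_X p i hp =>
    rw [map_mul, ContinuousMap.mul_apply, hp, map_mul, eval_X]
    congr 1
    simp [pc]

theorem pc_dense (g : C(S2, ℝ)) : g ∈ closure (range pc) := by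
  have hsep : (pc.range : Subalgebra ℝ C(S2, ℝ)).SeparatesPoints := by
    intro x y hxy
    have : (x : E3) ≠ y := fun h => hxy (Subtype.ext h)
    obtain ⟨i, hi⟩ : ∃ i, (x : E3) i ≠ (y : E3) i := by
      by_contra hcon
      push Not at hcon
      exact this (by ext i; exact hcon i)
    refine ⟨pc (X i), ⟨pc (X i), ⟨X i, rfl⟩, rfl⟩, ?_⟩
    rw [pc_apply, pc_apply, eval_X, eval_X]
    exact hi
  have h := ContinuousMap.subalgebra_topologicalClosure_eq_top_of_separatesPoints pc.range hsep
  have hg : g ∈ (pc.range.topologicalClosure : Subalgebra ℝ C(S2, ℝ)) := by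
    rw [h]; trivial
  exact hg

/-- A square integrable function on the sphere that is orthogonal to all polynomials vanishes
almost everywhere. -/
theorem ae_zero_of_poly (f : S2 → ℝ) (hf : MemLp f 2 mu)
    (h : ∀ p : MvPolynomial (Fin 3) ℝ,
      ∫ x, f x * MvPolynomial.eval (fun i => (x : E3) i) p ∂mu = 0) :
    f =ᵐ[mu] 0 := by
  set F : Lp ℝ 2 mu := hf.toLp f with hF
  have hcont : ∀ g : C(S2, ℝ), inner ℝ F (ContinuousMap.toLp 2 mu ℝ g) = 0 := by
    intro g
    have hcl : IsClosed {g : C(S2, ℝ) | inner ℝ F (ContinuousMap.toLp 2 mu ℝ g) = 0} := by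
      apply isClosed_eq _ continuous_const
      exact continuous_const.inner (ContinuousMap.toLp (E := ℝ) 2 mu ℝ).continuous
    have hsub : range pc ⊆ {g : C(S2, ℝ) | inner ℝ F (ContinuousMap.toLp 2 mu ℝ g) = 0} := by
      rintro _ ⟨p, rfl⟩
      change inner ℝ F (ContinuousMap.toLp 2 mu ℝ (pc p)) = 0
      rw [L2.inner_def, ← h p]
      apply integral_congr_ae
      filter_upwards [hf.coeFn_toLp, ContinuousMap.coeFn_toLp (p := 2) (𝕜 := ℝ) mu (pc p)]
        with x h1 h2
      rw [h2, hF, h1, pc_apply]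
      simp [mul_comm]
    exact hcl.closure_subset_iff.2 hsub (pc_dense g)
  have hz : F = 0 := by
    have hd : DenseRange (ContinuousMap.toLp (E := ℝ) 2 mu ℝ) :=
      ContinuousMap.toLp_denseRange ℝ mu ℝ (by norm_num)
    have hcl : IsClosed {G : Lp ℝ 2 mu | inner ℝ F G = 0} :=
      isClosed_eq (continuous_const.inner continuous_id) continuous_const
    have hall : ∀ G : Lp ℝ 2 mu, inner ℝ F G = 0 := by
      intro G
      have : G ∈ closure (range (ContinuousMap.toLp (E := ℝ) 2 mu ℝ)) := hd G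
      refine hcl.closure_subset_iff.2 ?_ this
      rintro _ ⟨g, rfl⟩
      exact hcont g
    exact inner_self_eq_zero.1 (hall F)
  have := hf.coeFn_toLp
  rw [← hF, hz] at this
  filter_upwards [this, Lp.coeFn_zero ℝ 2 mu] with x h1 h2
  rw [← h1, h2]

end

end Pool.Agent.Lib.MP_fdbf44_an
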