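import Pool.Agent.Lib.MP_fdbf44_an.Sharp

/-! Definitions for the statements about the division of the sphere by two rotations. -/

open MeasureTheory Metric Set

namespace Pool.Agent.Lib.MP_fdbf44_an

noncomputable section

/-- linear isometries of `ℝ³` -/
abbrev LI := E3 ≃ₗᵢ[ℝ] E3

/-- the entries of the matrix of a linear isometry in the standard basis -/
def ent (ρ : LI) (i k : Fin 3) : ℝ := ρ (EuclideanSpace.single k 1) i

/-- `ρ` is a rotation: the determinant of its matrix is one -/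
def Rot (ρ : LI) : Prop := Matrix.det (ent ρ) = 1

/-- the image of a set -/
def img (ρ : LI) (A : Set E3) : Set E3 := ρ '' A

/-- the sets `A`, `ρ A`, `σ A` -/
def pcs (ρ σ : LI) (A : Set E3) : Fin 3 → Set E3 := ![A, img ρ A, img σ A]

/-- `A` is measurable for the completion of the surface measure of the sphere -/
def NM (A : Set E3) : Prop := NullMeasurableSet ((Subtype.val : S2 → E3) ⁻¹' A) mu

/-- `A` is measurable for the (completed) surface measure, and almost every point of the sphere lies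
in exactly one of `A`, `ρ A`, `σ A`. -/
def Dv (ρ σ : LI) (A : Set E3) : Prop :=
  NM A ∧ ∀ᵐ x : S2 ∂mu, ∃! i : Fin 3, (x : E3) ∈ pcs ρ σ A i

theorem Dv_iff (ρ σ : LI) (A : Set E3) : Dv ρ σ A ↔ Div3 ρ σ A := Iff.rfl

/-- a point of the sphere moved by a linear isometry is on the sphere -/
theorem mem_mv (ρ : LI) (x : S2) : ρ x ∈ sphere (0 : E3) 1 := by
  rw [mem_sphere_zero_iff_norm, ρ.norm_map]
  exact mem_sphere_zero_iff_norm.1 x.2

/-- the point `ρ x` of the sphere -/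
def mv (ρ : LI) (x : S2) : S2 := ⟨ρ x, mem_mv ρ x⟩

/-- `M` and `N` lie in a finite submonoid `S` of the monoid of the `3 × 3` matrices over `F` all of
whose elements satisfy `X ^ p ^ k = 1` (so `S` is a finite `p`-group), where the prime `p ≠ 3` is
zero in `F`. -/
def PCond {F : Type} [CommRing F] (M N : Matrix (Fin 3) (Fin 3) F) : Prop :=
  ∃ (p k : ℕ) (S : Submonoid (Matrix (Fin 3) (Fin 3) F)), p.Prime ∧ p ≠ 3 ∧ (p : F) = 0 ∧
    Finite S ∧ M ∈ S ∧ N ∈ S ∧ ∀ X ∈ S, X ^ p ^ k = 1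

theorem Top_surj_of_PCond {F : Type} [CommRing F] {M N : Matrix (Fin 3) (Fin 3) F}
    (h : PCond M N) : Function.Surjective (Top M N) := by
  obtain ⟨p, k, S, hp, h3, hpF, hfin, hMS, hNS, hS⟩ := h
  haveI : Fact p.Prime := ⟨hp⟩
  have hpk : p ^ k ≠ 0 := pow_ne_zero _ hp.ne_zero
  have hun : ∀ X : S, ∃ u : Sˣ, (u : S) = X := by
    intro X
    have h1 : X ^ p ^ k = 1 := Subtype.ext (hS X X.2)
    have h2 : X * X ^ (p ^ k - 1) = 1 := by
      rw [← pow_succ', Nat.sub_add_cancel (Nat.one_le_iff_ne_zero.2 hpk), h1]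
    have h3 : X ^ (p ^ k - 1) * X = 1 := by
      rw [← pow_succ, Nat.sub_add_cancel (Nat.one_le_iff_ne_zero.2 hpk), h1]
    exact ⟨⟨X, X ^ (p ^ k - 1), h2, h3⟩, rfl⟩
  have hG : IsPGroup p Sˣ := by
    intro u
    refine ⟨k, Units.ext ?_⟩
    rw [Units.val_pow_eq_pow_val, Units.val_one]
    exact Subtype.ext (hS (u : S) (u : S).2)
  obtain ⟨g, hg⟩ := hun ⟨M, hMS⟩
  obtain ⟨h, hh⟩ := hun ⟨N, hNS⟩
  have hgM : ((g : S) : Matrix (Fin 3) (Fin 3) F) = M := congrArg Subtype.val hg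
  have hhN : ((h : S) : Matrix (Fin 3) (Fin 3) F) = N := congrArg Subtype.val hh
  intro y
  let θ : Sˣ →* Module.End F (MvPolynomial (Fin 3) F) :=
    { toFun := fun a => (sb (((a⁻¹ : Sˣ) : S) : Matrix (Fin 3) (Fin 3) F)).toLinearMap
      map_one' := by
        refine LinearMap.ext fun q => ?_
        change sb ((((1 : Sˣ)⁻¹ : Sˣ) : S) : Matrix (Fin 3) (Fin 3) F) q = q
        rw [inv_one, Units.val_one, OneMemClass.coe_one, sb_one]
      map_mul' := fun a b => by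
        refine LinearMap.ext fun q => ?_
        change sb ((((a * b)⁻¹ : Sˣ) : S) : Matrix (Fin 3) (Fin 3) F) q =
          sb (((a⁻¹ : Sˣ) : S) : Matrix (Fin 3) (Fin 3) F)
            (sb (((b⁻¹ : Sˣ) : S) : Matrix (Fin 3) (Fin 3) F) q)
        rw [sb_sb, mul_inv_rev, Units.val_mul, Submonoid.coe_mul] }
  have hp0 : ∀ w : MvPolynomial (Fin 3) F, (p : F) • w = 0 := by
    intro w
    rw [hpF, zero_smul]
  obtain ⟨w, hw⟩ := pgroup_surj hG h3 g⁻¹ h⁻¹ _ _ θ hp0 le_rfl y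
  refine ⟨w, ?_⟩
  rw [hw]
  change w + sb M w + sb N w = w + sb ((((g⁻¹)⁻¹ : Sˣ) : S) : Matrix (Fin 3) (Fin 3) F) w +
    sb ((((h⁻¹)⁻¹ : Sˣ) : S) : Matrix (Fin 3) (Fin 3) F) w
  rw [inv_inv, inv_inv, hgM, hhN]

theorem mv_symm (ρ : LI) (x : S2) : mv ρ.symm x = (rsph ρ).symm x := rfl

end

end Pool.Agent.Lib.MP_fdbf44_an
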