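import Pool.Agent.Lib.MP_fdbf44_an.Orb

/-! A piece of a measurable division of the sphere by three isometries has no symmetry of infinite
order. -/

open MeasureTheory Metric Set Filter Topology

namespace Pool.Agent.Lib.MP_fdbf44_an

noncomputable section

/-- the isometries carrying the first piece to the pieces -/
def gg (ρ σ : LI) : Fin 3 → LI := ![1, ρ, σ]

theorem pcs_eq (ρ σ : LI) (A : Set E3) (i : Fin 3) : pcs ρ σ A i = img (gg ρ σ i) A := by
  fin_cases i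
  · change A = img 1 A
    ext x
    exact ⟨fun h => ⟨x, h, rfl⟩, fun ⟨y, hy, hxy⟩ => by rwa [← hxy]⟩
  · rfl
  · rfl

theorem smul_mem_pcs {ρ σ : LI} {A : Set E3} {i : Fin 3} {x : E3} (hx : x ≠ 0) :
    ‖x‖⁻¹ • x ∈ pcs ρ σ A i ↔ (gg ρ σ i).symm x ∈ cone A := by
  rw [pcs_eq, ← cone_img, mem_cone]
  exact ⟨fun h => ⟨hx, h⟩, fun h => h.2⟩

theorem Dv_cone {ρ σ : LI} {A : Set E3} (h : Dv ρ σ A) :
    ∀ᵐ x : E3, ∃! i : Fin 3, (gg ρ σ i).symm x ∈ cone A := by
  filter_upwards [ae_cone (P := fun x => ∃! i : Fin 3, x ∈ pcs ρ σ A i) h.2, ae_ne_zero] with x hx h0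
  obtain ⟨i, hi, hi'⟩ := hx h0
  exact ⟨i, (smul_mem_pcs h0).1 hi, fun j hj => hi' j ((smul_mem_pcs h0).2 hj)⟩

/-- a point with given inner products with two unit vectors -/
theorem exists_point {a b : E3} (ha : ‖a‖ = 1) (hb : ‖b‖ = 1) {s R : ℝ} (hR : 0 ≤ R)
    (h : 2 * s ^ 2 < (1 + inner ℝ a b) * R ^ 2) :
    ∃ y : E3, ‖y‖ = R ∧ inner ℝ a y = s ∧ inner ℝ b y = s := by
  obtain ⟨n, hn, hna, hnb⟩ := exists_perp a b
  set c : ℝ := inner ℝ a b with hc
  have h1 : 0 < 1 + c := by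
    by_contra hcon
    rw [not_lt] at hcon
    nlinarith [sq_nonneg s, sq_nonneg R, mul_nonneg_of_nonpos_of_nonpos hcon
      (neg_nonpos.2 (sq_nonneg R))]
  have h2 : 0 ≤ R ^ 2 - 2 * s ^ 2 / (1 + c) := by
    rw [sub_nonneg, div_le_iff₀ h1]
    linarith
  set β : ℝ := Real.sqrt (R ^ 2 - 2 * s ^ 2 / (1 + c)) with hβ
  have hβ2 : β ^ 2 = R ^ 2 - 2 * s ^ 2 / (1 + c) := Real.sq_sqrt h2
  have haa : inner ℝ a a = (1 : ℝ) := by rw [real_inner_self_eq_norm_sq, ha, one_pow]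
  have hbb : inner ℝ b b = (1 : ℝ) := by rw [real_inner_self_eq_norm_sq, hb, one_pow]
  have hba : inner ℝ b a = c := by rw [real_inner_comm]
  have han : inner ℝ a n = (0 : ℝ) := by rw [real_inner_comm, hna]
  have hbn : inner ℝ b n = (0 : ℝ) := by rw [real_inner_comm, hnb]
  have h3 : s / (1 + c) * (1 + c) = s := div_mul_cancel₀ _ h1.ne'
  refine ⟨(s / (1 + c)) • (a + b) + β • n, ?_, ?_, ?_⟩
  · have h4 : ‖(s / (1 + c)) • (a + b) + β • n‖ ^ 2 = R ^ 2 := by
      have h5 : ‖a + b‖ ^ 2 = 2 + 2 * c := by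
        rw [norm_add_sq_real, ha, hb, ← hc]
        ring
      have h6 : inner ℝ ((s / (1 + c)) • (a + b)) (β • n) = (0 : ℝ) := by
        rw [inner_smul_left, inner_smul_right, inner_add_left, han, hbn, add_zero, mul_zero,
          mul_zero]
      rw [norm_add_sq_real, h6, norm_smul, norm_smul, mul_pow, mul_pow, h5, hn,
        Real.norm_eq_abs, Real.norm_eq_abs, sq_abs, sq_abs, hβ2]
      field_simp
      ring
    exact (pow_left_inj₀ (norm_nonneg _) hR two_ne_zero).1 h4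
  · rw [inner_add_right, inner_smul_right, inner_smul_right, inner_add_right, haa, han, ← hc,
      mul_zero, add_zero, h3]
  · rw [inner_add_right, inner_smul_right, inner_smul_right, inner_add_right, hbb, hbn, hba,
      mul_zero, add_zero, add_comm c 1, h3]

theorem sym_symm (g : LI) (u x : E3) : inner ℝ u (g.symm x) = inner ℝ (g u) x := by
  have h1 := g.inner_map_map u (g.symm x)
  rw [g.apply_symm_apply] at h1
  exact h1.symm

/-- No piece of a measurable division is invariant under all rotations about an axis. -/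
theorem no_circle {ρ σ : LI} {A : Set E3} (hA : Dv ρ σ A) {u : E3} (hu : ‖u‖ = 1)
    (hsym : ∀ x y : E3, ‖x‖ = ‖y‖ → inner ℝ u x = inner ℝ u y → Dn (cone A) x → Dn (cone A) y) :
    False := by
  have hm := cone_null hA.1
  have hc := Dv_cone hA
  set g : Fin 3 → LI := gg ρ σ with hg
  have hq : ∀ i, Measure.QuasiMeasurePreserving (g i).symm (volume : Measure E3) volume :=
    fun i => (g i).symm.measurePreserving.quasiMeasurePreserving
  have hCm : ∀ i, NullMeasurableSet ((g i).symm ⁻¹' cone A) (volume : Measure E3) :=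
    fun i => hm.preimage (hq i)
  have hdis : ∀ i j, i ≠ j → ∀ᵐ x : E3,
      ¬ (x ∈ (g i).symm ⁻¹' cone A ∧ x ∈ (g j).symm ⁻¹' cone A) := by
    intro i j hij
    filter_upwards [hc] with x hx
    rintro ⟨hi, hj⟩
    obtain ⟨k, -, hk⟩ := hx
    exact hij ((hk i hi).trans (hk j hj).symm)
  have h2 : ∀ i j, i ≠ j → ∀ y, Dn (cone A) ((g i).symm y) → Dn (cone A) ((g j).symm y) → False := by
    intro i j hij y h1 h2
    exact Dn_disj (hCm j) (hdis i j hij) y ((Dn_preimage _ _ _).2 h1) ((Dn_preimage _ _ _).2 h2)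
  have h3 : ∀ i j, i ≠ j → ∀ x, Dn (cone A) x → ∀ y, ‖y‖ = ‖x‖ → inner ℝ (g i u) y = inner ℝ u x →
      inner ℝ (g j u) y = inner ℝ u x → False := by
    intro i j hij x hx y hy hi hj
    refine h2 i j hij y (hsym x _ ?_ ?_ hx) (hsym x _ ?_ ?_ hx)
    · rw [LinearIsometryEquiv.norm_map, hy]
    · rw [sym_symm, hi]
    · rw [LinearIsometryEquiv.norm_map, hy]
    · rw [sym_symm, hj]
  have hU : ∀ i, ‖g i u‖ = 1 := fun i => by rw [LinearIsometryEquiv.norm_map, hu]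
  have h4 : ∀ i j, i ≠ j → g i u ≠ g j u := by
    intro i j hij h
    have h5 : ∀ x, ¬ Dn (cone A) x := by
      intro x hx
      refine h3 i j hij x hx (g i x) (LinearIsometryEquiv.norm_map _ _) ?_ ?_
      · rw [LinearIsometryEquiv.inner_map_map]
      · rw [← h, LinearIsometryEquiv.inner_map_map]
    have h6 : ∀ᵐ x : E3, ¬ x ∈ cone A := by
      filter_upwards [Dn_ae hm] with x hx hx'
      exact h5 x (hx hx')
    have h7 : ∀ᵐ x : E3, ∀ k, ¬ (g k).symm x ∈ cone A := ae_all_iff.2 fun k => (hq k).ae h6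
    have h8 : ∀ᵐ x : E3, False := by
      filter_upwards [h7, hc] with x hx hx'
      obtain ⟨k, hk, -⟩ := hx'
      exact hx k hk
    obtain ⟨x, hx⟩ := h8.exists
    exact hx
  have h5 : ∀ i j, i ≠ j → ∀ x, Dn (cone A) x →
      (1 + inner ℝ (g i u) (g j u)) * ‖x‖ ^ 2 ≤ 2 * (inner ℝ u x) ^ 2 := by
    intro i j hij x hx
    by_contra hcon
    rw [not_le] at hcon
    obtain ⟨y, hy1, hy2, hy3⟩ := exists_point (hU i) (hU j) (norm_nonneg x) hcon
    exact h3 i j hij x hx y hy1 hy2 hy3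
  obtain ⟨c, hc1, hc2, hc3, hc4⟩ : ∃ c : ℝ, c < 1 ∧ inner ℝ (g 0 u) (g 1 u) + inner ℝ (g 0 u) (g 2 u) +
      inner ℝ (g 1 u) (g 2 u) ≤ 3 * c ∧ (∀ x, Dn (cone A) x → (1 + c) * ‖x‖ ^ 2 ≤
        2 * (inner ℝ u x) ^ 2) ∧ True := by
    have hlt : ∀ i j, i ≠ j → inner ℝ (g i u) (g j u) < (1 : ℝ) := fun i j hij =>
      (inner_lt_one_iff_real_of_norm_eq_one (hU i) (hU j)).2 (h4 i j hij)
    have a1 := hlt 0 1 (by decide)
    have a2 := hlt 0 2 (by decide)
    have a3 := hlt 1 2 (by decide)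
    have b1 := h5 0 1 (by decide)
    have b2 := h5 0 2 (by decide)
    have b3 := h5 1 2 (by decide)
    rcases le_total (inner ℝ (g 0 u) (g 1 u) : ℝ) (inner ℝ (g 0 u) (g 2 u)) with h | h
    · rcases le_total (inner ℝ (g 0 u) (g 2 u) : ℝ) (inner ℝ (g 1 u) (g 2 u)) with h' | h'
      · exact ⟨_, a3, by linarith, b3, trivial⟩
      · exact ⟨_, a2, by linarith, b2, trivial⟩
    · rcases le_total (inner ℝ (g 0 u) (g 1 u) : ℝ) (inner ℝ (g 1 u) (g 2 u)) with h' | h'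
      · exact ⟨_, a3, by linarith, b3, trivial⟩
      · exact ⟨_, a1, by linarith, b1, trivial⟩
  have h6 : ∀ᵐ x : E3, ∃ i, (1 + c) * ‖x‖ ^ 2 ≤ 2 * (inner ℝ (g i u) x) ^ 2 := by
    have h7 : ∀ᵐ x : E3, ∀ i, (g i).symm x ∈ cone A → Dn (cone A) ((g i).symm x) :=
      ae_all_iff.2 fun i => (hq i).ae (Dn_ae hm)
    filter_upwards [h7, hc] with x hx hx'
    obtain ⟨i, hi, -⟩ := hx'
    refine ⟨i, ?_⟩
    have h8 := hc3 _ (hx i hi)
    rw [sym_symm, LinearIsometryEquiv.norm_map] at h8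
    exact h8
  obtain ⟨n, hn, hn1, hn2⟩ := exists_perp (g 0 u - g 1 u) (g 0 u - g 2 u)
  rw [inner_sub_right, sub_eq_zero] at hn1 hn2
  have hs : ∀ i, inner ℝ (g i u) n = inner ℝ n (g 0 u) := by
    intro i
    rw [real_inner_comm]
    fin_cases i
    · rfl
    · exact hn1.symm
    · exact hn2.symm
  have h9 : 2 * (inner ℝ n (g 0 u)) ^ 2 < (1 + c) * ‖n‖ ^ 2 := by
    have h10 : inner ℝ (g 0 u + g 1 u + g 2 u) n = 3 * inner ℝ n (g 0 u) := by
      rw [inner_add_left, inner_add_left, hs, hs, hs]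
      ring
    have h11 := abs_real_inner_le_norm (g 0 u + g 1 u + g 2 u) n
    rw [hn, mul_one, h10] at h11
    have h12 : (3 * inner ℝ n (g 0 u)) ^ 2 ≤ ‖g 0 u + g 1 u + g 2 u‖ ^ 2 := by
      rw [← sq_abs]
      exact pow_le_pow_left₀ (abs_nonneg _) h11 2
    have h13 : ‖g 0 u + g 1 u + g 2 u‖ ^ 2 = 3 + 2 * (inner ℝ (g 0 u) (g 1 u) +
        inner ℝ (g 0 u) (g 2 u) + inner ℝ (g 1 u) (g 2 u)) := by
      rw [norm_add_sq_real, norm_add_sq_real, hU, hU, hU, inner_add_left]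
      ring
    rw [h13] at h12
    rw [hn, one_pow, mul_one]
    nlinarith
  have hopen : IsOpen {x : E3 | ∀ i, 2 * (inner ℝ (g i u) x) ^ 2 < (1 + c) * ‖x‖ ^ 2} := by
    rw [show {x : E3 | ∀ i, 2 * (inner ℝ (g i u) x) ^ 2 < (1 + c) * ‖x‖ ^ 2} =
      ⋂ i, {x : E3 | 2 * (inner ℝ (g i u) x) ^ 2 < (1 + c) * ‖x‖ ^ 2} from by
        ext x
        rw [mem_iInter]
        rfl]
    refine isOpen_iInter_of_finite fun i => isOpen_lt ?_ ?_
    · exact continuous_const.mul ((continuous_const.inner continuous_id).pow 2)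
    · exact continuous_const.mul (continuous_norm.pow 2)
  obtain ⟨x, hx1, hx2⟩ := (Measure.dense_of_ae h6).exists_mem_open hopen
    ⟨n, fun i => by rw [hs]; exact h9⟩
  obtain ⟨i, hi⟩ := hx1
  exact absurd (hx2 i) (not_lt.2 hi)

end

end Pool.Agent.Lib.MP_fdbf44_an
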