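import Pool.Agent.Lib.MP_fdbf44_an.Crit
import Pool.Agent.Lib.MP_fdbf44_an.Cases

/-! Orthogonal matrices over `ℚ₂` are integral and congruent to permutation matrices modulo two. -/

open MeasureTheory Metric Set MvPolynomial

namespace Pool.Agent.Lib.MP_fdbf44_an

noncomputable section

/-! ### sums of three squares in `ℤ₂` -/

theorem tz_zero_iff (x : ℤ_[2]) : PadicInt.toZMod x = 0 ↔ (2 : ℤ_[2]) ∣ x := by
  have h1 : PadicInt.toZMod x = 0 ↔ x ∈ RingHom.ker (PadicInt.toZMod : ℤ_[2] →+* ZMod 2) :=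
    Iff.rfl
  rw [h1, PadicInt.ker_toZMod, PadicInt.maximalIdeal_eq_span_p, Ideal.mem_span_singleton]
  norm_num

theorem zmod_two_cases (x : ZMod 2) : x = 0 ∨ x = 1 := by
  revert x
  decide

/-- the square of an element of `ℤ₂` modulo four -/
theorem sq_mod (x : ℤ_[2]) : ∃ (u : ℤ_[2]) (ε : ℤ), ((ε = 0 ∧ PadicInt.toZMod x = 0) ∨
    (ε = 1 ∧ PadicInt.toZMod x = 1)) ∧ x ^ 2 = (ε : ℤ_[2]) + 4 * u := by
  rcases zmod_two_cases (PadicInt.toZMod x) with h | h
  · obtain ⟨y, hy⟩ := (tz_zero_iff x).1 h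
    refine ⟨y ^ 2, 0, Or.inl ⟨rfl, h⟩, ?_⟩
    rw [hy]
    push_cast
    ring
  · have h1 : PadicInt.toZMod (x - 1) = 0 := by rw [map_sub, h, map_one, sub_self]
    obtain ⟨y, hy⟩ := (tz_zero_iff (x - 1)).1 h1
    refine ⟨y + y ^ 2, 1, Or.inr ⟨rfl, h⟩, ?_⟩
    have hx : x = 2 * y + 1 := by linear_combination hy
    rw [hx]
    push_cast
    ring

theorem four_dvd {s : ℤ} {v : ℤ_[2]} (h : (s : ℤ_[2]) = 4 * v) : (4 : ℤ) ∣ s := by
  have h1 : ((2 : ℕ) : ℤ_[2]) ^ 2 ∣ (s : ℤ_[2]) := by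
    refine ⟨v, ?_⟩
    rw [h]
    norm_num
  have h2 := (PadicInt.pow_p_dvd_int_iff 2 s).1 h1
  norm_num at h2
  exact h2

theorem three_sq_zero {a b c w : ℤ_[2]} (h : a ^ 2 + b ^ 2 + c ^ 2 = 4 * w) :
    PadicInt.toZMod a = 0 ∧ PadicInt.toZMod b = 0 ∧ PadicInt.toZMod c = 0 := by
  obtain ⟨u1, e1, h1, s1⟩ := sq_mod a
  obtain ⟨u2, e2, h2, s2⟩ := sq_mod b
  obtain ⟨u3, e3, h3, s3⟩ := sq_mod c
  have h4 : ((e1 + e2 + e3 : ℤ) : ℤ_[2]) = 4 * (w - u1 - u2 - u3) := by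
    push_cast
    linear_combination h - s1 - s2 - s3
  have h5 := four_dvd h4
  rcases h1 with ⟨f1, g1⟩ | ⟨f1, g1⟩ <;> rcases h2 with ⟨f2, g2⟩ | ⟨f2, g2⟩ <;>
    rcases h3 with ⟨f3, g3⟩ | ⟨f3, g3⟩
  · exact ⟨g1, g2, g3⟩
  all_goals exfalso; omega

/-- exactly one of three elements of `ℤ₂` is odd if the sum of the squares is one -/
theorem three_sq_one {a b c : ℤ_[2]} (h : a ^ 2 + b ^ 2 + c ^ 2 = 1) :
    (PadicInt.toZMod a = 1 ∧ PadicInt.toZMod b = 0 ∧ PadicInt.toZMod c = 0) ∨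
    (PadicInt.toZMod a = 0 ∧ PadicInt.toZMod b = 1 ∧ PadicInt.toZMod c = 0) ∨
    (PadicInt.toZMod a = 0 ∧ PadicInt.toZMod b = 0 ∧ PadicInt.toZMod c = 1) := by
  obtain ⟨u1, e1, h1, s1⟩ := sq_mod a
  obtain ⟨u2, e2, h2, s2⟩ := sq_mod b
  obtain ⟨u3, e3, h3, s3⟩ := sq_mod c
  have h4 : ((e1 + e2 + e3 - 1 : ℤ) : ℤ_[2]) = 4 * (0 - u1 - u2 - u3) := by
    push_cast
    linear_combination h - s1 - s2 - s3
  have h5 := four_dvd h4
  rcases h1 with ⟨f1, g1⟩ | ⟨f1, g1⟩ <;> rcases h2 with ⟨f2, g2⟩ | ⟨f2, g2⟩ <;>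
    rcases h3 with ⟨f3, g3⟩ | ⟨f3, g3⟩
  · exfalso; omega
  · exact Or.inr (Or.inr ⟨g1, g2, g3⟩)
  · exact Or.inr (Or.inl ⟨g1, g2, g3⟩)
  · exfalso; omega
  · exact Or.inl ⟨g1, g2, g3⟩
  all_goals exfalso; omega

theorem norm_le_aux {a b c x : ℚ_[2]} (h : a ^ 2 + b ^ 2 + c ^ 2 = 1) (ha : ‖a‖ ≤ ‖x‖)
    (hb : ‖b‖ ≤ ‖x‖) (hc : ‖c‖ ≤ ‖x‖) (hx : x = a ∨ x = b ∨ x = c) : ‖x‖ ≤ 1 := by
  by_contra hcon
  rw [not_le] at hcon
  have hx0 : x ≠ 0 := by
    intro h0
    rw [h0, norm_zero] at hcon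
    exact absurd hcon (by norm_num)
  have hxn : 0 < ‖x‖ := norm_pos_iff.2 hx0
  have hle : ∀ y : ℚ_[2], ‖y‖ ≤ ‖x‖ → ‖y / x‖ ≤ 1 := by
    intro y hy
    rw [norm_div, div_le_one hxn]
    exact hy
  obtain ⟨a', ha'⟩ : ∃ a' : ℤ_[2], (a' : ℚ_[2]) = a / x := ⟨⟨a / x, hle a ha⟩, rfl⟩
  obtain ⟨b', hb'⟩ : ∃ b' : ℤ_[2], (b' : ℚ_[2]) = b / x := ⟨⟨b / x, hle b hb⟩, rfl⟩
  obtain ⟨c', hc'⟩ : ∃ c' : ℤ_[2], (c' : ℚ_[2]) = c / x := ⟨⟨c / x, hle c hc⟩, rfl⟩
  have hinv : ‖x⁻¹‖ < 1 := by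
    rw [norm_inv]
    exact inv_lt_one_of_one_lt₀ hcon
  obtain ⟨t, ht⟩ : ∃ t : ℤ_[2], (t : ℚ_[2]) = x⁻¹ := ⟨⟨x⁻¹, hinv.le⟩, rfl⟩
  have ht2 : ((2 : ℕ) : ℤ_[2]) ∣ t := by
    rw [← PadicInt.norm_lt_one_iff_dvd, PadicInt.norm_def, ht]
    exact hinv
  obtain ⟨w, hw⟩ := ht2
  rw [Nat.cast_ofNat] at hw
  have hsum : a' ^ 2 + b' ^ 2 + c' ^ 2 = 4 * w ^ 2 := by
    have h1 : (a' ^ 2 + b' ^ 2 + c' ^ 2 : ℤ_[2]) = t ^ 2 := by
      apply PadicInt.ext
      push_cast
      rw [ha', hb', hc', ht]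
      field_simp
      exact h
    rw [h1, hw]
    ring
  have h3 := three_sq_zero hsum
  have hone : ∀ y : ℤ_[2], (y : ℚ_[2]) = x / x → PadicInt.toZMod y = 1 := by
    intro y hy
    have : y = 1 := by
      apply PadicInt.ext
      rw [hy, div_self hx0]
      rfl
    rw [this, map_one]
  rcases hx with hx | hx | hx
  · have := hone a' (by rw [ha', ← hx])
    rw [h3.1] at this
    exact absurd this (by decide)
  · have := hone b' (by rw [hb', ← hx])
    rw [h3.2.1] at this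
    exact absurd this (by decide)
  · have := hone c' (by rw [hc', ← hx])
    rw [h3.2.2] at this
    exact absurd this (by decide)

/-- three elements of `ℚ₂` whose squares have sum one are integral -/
theorem norm_le_one_of_sum {a b c : ℚ_[2]} (h : a ^ 2 + b ^ 2 + c ^ 2 = 1) :
    ‖a‖ ≤ 1 ∧ ‖b‖ ≤ 1 ∧ ‖c‖ ≤ 1 := by
  rcases le_total ‖a‖ ‖b‖ with h1 | h1
  · rcases le_total ‖b‖ ‖c‖ with h2 | h2
    · have h3 := norm_le_aux h (x := c) (h1.trans h2) h2 le_rfl (Or.inr (Or.inr rfl))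
      exact ⟨(h1.trans h2).trans h3, h2.trans h3, h3⟩
    · have h3 := norm_le_aux h (x := b) h1 le_rfl h2 (Or.inr (Or.inl rfl))
      exact ⟨h1.trans h3, h3, h2.trans h3⟩
  · rcases le_total ‖a‖ ‖c‖ with h2 | h2
    · have h3 := norm_le_aux h (x := c) h2 (h1.trans h2) le_rfl (Or.inr (Or.inr rfl))
      exact ⟨h2.trans h3, (h1.trans h2).trans h3, h3⟩
    · have h3 := norm_le_aux h (x := a) le_rfl h1 h2 (Or.inl rfl)
      exact ⟨h3, h1.trans h3, h2.trans h3⟩

/-! ### orthogonal matrices -/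

theorem ort {ρ : E3 ≃ₗᵢ[ℝ] E3} {K : Type*} [Field K] [Algebra K ℝ]
    {M : Matrix (Fin 3) (Fin 3) K} (hM : IsMat ρ M) : M.transpose * M = 1 := by
  have hinj : Function.Injective (algebraMap K ℝ) := (algebraMap K ℝ).injective
  ext i k
  apply hinj
  rw [Matrix.mul_apply, map_sum]
  have h1 : ∀ l, algebraMap K ℝ (M.transpose i l * M l k) =
      ρ (EuclideanSpace.single i 1) l * ρ (EuclideanSpace.single k 1) l := by
    intro l
    rw [map_mul, Matrix.transpose_apply, hM, hM]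
  rw [Finset.sum_congr rfl fun l _ => h1 l]
  have h2 : inner ℝ (ρ (EuclideanSpace.single i 1)) (ρ (EuclideanSpace.single k 1)) =
      inner ℝ (EuclideanSpace.single i 1 : E3) (EuclideanSpace.single k 1) :=
    ρ.inner_map_map _ _
  have h3 : inner ℝ (ρ (EuclideanSpace.single i 1)) (ρ (EuclideanSpace.single k 1)) =
      ∑ l, ρ (EuclideanSpace.single i 1) l * ρ (EuclideanSpace.single k 1) l := by
    rw [PiLp.inner_apply]
    exact Finset.sum_congr rfl fun l _ => by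
      rw [RCLike.inner_apply, conj_trivial, mul_comm]
  rw [← h3, h2, EuclideanSpace.inner_single_left, map_one, one_mul]
  by_cases hik : i = k
  · subst hik
    rw [Matrix.one_apply_eq, map_one, PiLp.single_apply, if_pos rfl]
  · rw [Matrix.one_apply_ne hik, map_zero, PiLp.single_apply, if_neg hik]

theorem ort' {ρ : E3 ≃ₗᵢ[ℝ] E3} {K : Type*} [Field K] [Algebra K ℝ]
    {M : Matrix (Fin 3) (Fin 3) K} (hM : IsMat ρ M) : M * M.transpose = 1 :=
  mul_eq_one_comm.1 (ort hM)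

/-- the `2`-adically integral elements -/
def RK {K : Type*} [Field K] (j : K →+* ℚ_[2]) : Subring K := (PadicInt.subring 2).comap j

theorem mem_RK {K : Type*} [Field K] {j : K →+* ℚ_[2]} {x : K} : x ∈ RK j ↔ ‖j x‖ ≤ 1 := Iff.rfl

/-- reduction modulo two -/
def redK {K : Type*} [Field K] (j : K →+* ℚ_[2]) : RK j →+* ZMod 2 :=
  (PadicInt.toZMod).comp
    ({ toFun := fun x => ⟨j x, x.2⟩
       map_one' := Subtype.ext (map_one j)
       map_mul' := fun x y => Subtype.ext (map_mul j _ _)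
       map_zero' := Subtype.ext (map_zero j)
       map_add' := fun x y => Subtype.ext (map_add j _ _) } : RK j →+* ℤ_[2])

theorem redK_apply {K : Type*} [Field K] (j : K →+* ℚ_[2]) (x : RK j) :
    redK j x = PadicInt.toZMod (⟨j x, x.2⟩ : ℤ_[2]) := rfl

theorem redK_one_iff {K : Type*} [Field K] (j : K →+* ℚ_[2]) (x : RK j) :
    redK j x = 1 ↔ ‖j (x : K)‖ = 1 := by
  have h1 : redK j x = 0 ↔ ‖j (x : K)‖ < 1 := by
    rw [redK_apply, tz_zero_iff]
    have h2 := PadicInt.norm_lt_one_iff_dvd (⟨j x, x.2⟩ : ℤ_[2])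
    rw [Nat.cast_ofNat] at h2
    rw [← h2]
    rfl
  have h3 : ‖j (x : K)‖ ≤ 1 := x.2
  constructor
  · intro h
    rcases lt_or_eq_of_le h3 with h4 | h4
    · rw [h1.2 h4] at h
      exact absurd h (by decide)
    · exact h4
  · intro h
    rcases zmod_two_cases (redK j x) with h4 | h4
    · exact absurd (h1.1 h4) (by rw [h]; exact lt_irrefl _)
    · exact h4

/-- `A` is the permutation matrix of `p` -/
theorem perm_of_rows (A : Matrix (Fin 3) (Fin 3) (ZMod 2)) (hA : A * A.transpose = 1)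
    (hrow : ∀ i, (A i 0 = 1 ∧ A i 1 = 0 ∧ A i 2 = 0) ∨ (A i 0 = 0 ∧ A i 1 = 1 ∧ A i 2 = 0) ∨
      (A i 0 = 0 ∧ A i 1 = 0 ∧ A i 2 = 1)) :
    ∃ p : Equiv.Perm (Fin 3), ∀ i k, A i k = if i = p k then 1 else 0 := by
  have hr : ∀ i, ∃ k, ∀ l, A i l = if l = k then 1 else 0 := by
    intro i
    rcases hrow i with ⟨h0, h1, h2⟩ | ⟨h0, h1, h2⟩ | ⟨h0, h1, h2⟩
    · refine ⟨0, fun l => ?_⟩
      fin_cases l
      · simpa using h0
      · simpa using h1
      · simpa using h2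
    · refine ⟨1, fun l => ?_⟩
      fin_cases l
      · simpa using h0
      · simpa using h1
      · simpa using h2
    · refine ⟨2, fun l => ?_⟩
      fin_cases l
      · simpa using h0
      · simpa using h1
      · simpa using h2
  choose r hr using hr
  have hinj : Function.Injective r := by
    intro i i' hii
    by_contra hne
    have h1 : (A * A.transpose) i i' = 0 := by rw [hA, Matrix.one_apply_ne hne]
    rw [Matrix.mul_apply] at h1
    have h2 : ∀ l, A i l * A.transpose l i' = if l = r i then 1 else 0 := by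
      intro l
      rw [Matrix.transpose_apply, hr, hr, ← hii]
      split_ifs <;> norm_num
    rw [Finset.sum_congr rfl fun l _ => h2 l, Finset.sum_ite_eq' Finset.univ (r i),
      if_pos (Finset.mem_univ _)] at h1
    exact absurd h1 (by decide)
  let e : Equiv.Perm (Fin 3) := Equiv.ofBijective r (Finite.injective_iff_bijective.1 hinj)
  refine ⟨e.symm, fun i k => ?_⟩
  rw [hr i k]
  have h3 : k = r i ↔ i = e.symm k := by
    rw [Equiv.eq_symm_apply]
    exact ⟨fun h => h.symm, fun h => h.symm⟩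
  by_cases h4 : k = r i
  · rw [if_pos h4, if_pos (h3.1 h4)]
  · rw [if_neg h4, if_neg fun h5 => h4 (h3.2 h5)]

/-- The reduction of an orthogonal matrix. -/
theorem exists_red {K : Type*} [Field K] [Algebra K ℝ] (j : K →+* ℚ_[2]) {ρ : E3 ≃ₗᵢ[ℝ] E3}
    {M : Matrix (Fin 3) (Fin 3) K} (hM : IsMat ρ M) :
    ∃ (M' : Matrix (Fin 3) (Fin 3) (RK j)) (p : Equiv.Perm (Fin 3)),
      (∀ i k, (M' i k : K) = M i k) ∧ ∀ i k, redK j (M' i k) = if i = p k then 1 else 0 := by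
  have hsq : ∀ i, (j (M i 0)) ^ 2 + (j (M i 1)) ^ 2 + (j (M i 2)) ^ 2 = 1 := by
    intro i
    have h1 : (M * M.transpose) i i = 1 := by rw [ort' hM, Matrix.one_apply_eq]
    rw [Matrix.mul_apply, Fin.sum_univ_three] at h1
    have h2 := congrArg j h1
    rw [map_add, map_add, map_mul, map_mul, map_mul, map_one] at h2
    simp only [Matrix.transpose_apply] at h2
    rw [sq, sq, sq]
    exact h2
  have hint : ∀ i k, ‖j (M i k)‖ ≤ 1 := by
    intro i k
    have h1 := norm_le_one_of_sum (hsq i)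
    fin_cases k
    · exact h1.1
    · exact h1.2.1
    · exact h1.2.2
  let M' : Matrix (Fin 3) (Fin 3) (RK j) := fun i k => ⟨M i k, hint i k⟩
  have hM' : ∀ i k, (M' i k : K) = M i k := fun i k => rfl
  have hort : M' * M'.transpose = 1 := by
    ext i k
    rw [Matrix.mul_apply]
    have h1 : (M * M.transpose) i k = (1 : Matrix (Fin 3) (Fin 3) K) i k := by rw [ort' hM]
    rw [Matrix.mul_apply] at h1
    push_cast
    rw [Matrix.one_apply] at h1 ⊢
    refine Eq.trans ?_ (h1.trans ?_)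
    · rfl
    · split_ifs <;> rfl
  have hortr : (M'.map (redK j)) * (M'.map (redK j)).transpose = 1 := by
    have h1 := congrArg (fun X : Matrix (Fin 3) (Fin 3) (RK j) => X.map (redK j)) hort
    simp only [Matrix.map_mul, Matrix.map_one _ (map_zero _) (map_one _)] at h1
    exact h1
  obtain ⟨p, hp⟩ := perm_of_rows (M'.map (redK j)) hortr (by
    intro i
    let a : ℤ_[2] := ⟨j (M i 0), hint i 0⟩
    let b : ℤ_[2] := ⟨j (M i 1), hint i 1⟩
    let c : ℤ_[2] := ⟨j (M i 2), hint i 2⟩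
    have h1 : a ^ 2 + b ^ 2 + c ^ 2 = 1 := by
      apply PadicInt.ext
      rw [PadicInt.coe_add, PadicInt.coe_add, PadicInt.coe_pow, PadicInt.coe_pow,
        PadicInt.coe_pow, PadicInt.coe_one]
      exact hsq i
    exact three_sq_one h1)
  exact ⟨M', p, hM', hp⟩

theorem redK_surj {K : Type*} [Field K] (j : K →+* ℚ_[2]) : Function.Surjective (redK j) :=
  ZMod.ringHom_surjective _

theorem alg_inj {K : Type*} [Field K] [Algebra K ℝ] (R : Subring K) :
    Function.Injective (algebraMap R ℝ) := by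
  intro x y h
  exact Subtype.ext ((algebraMap K ℝ).injective h)

/-- **The reductions of the matrices of a division are distinct.** -/
theorem two_adic {K : Type*} [Field K] [Algebra K ℝ] (j : K →+* ℚ_[2]) {ρ σ : E3 ≃ₗᵢ[ℝ] E3}
    {M N : Matrix (Fin 3) (Fin 3) K} (hM : IsMat ρ M) (hN : IsMat σ N) {A : Set E3}
    (hA : Div3 ρ σ A) :
    ∃ p q : Equiv.Perm (Fin 3), p ≠ 1 ∧ q ≠ 1 ∧ p ≠ q ∧ ∀ i k, ‖j (M i k)‖ ≤ 1 ∧
      ‖j (N i k)‖ ≤ 1 ∧ (‖j (M i k)‖ = 1 ↔ i = p k) ∧ (‖j (N i k)‖ = 1 ↔ i = q k) := by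
  obtain ⟨M', p, hM', hp⟩ := exists_red j hM
  obtain ⟨N', q, hN', hq⟩ := exists_red j hN
  have hMM : IsMat ρ M' := fun i k => by
    rw [← hM i k, ← hM' i k]
    rfl
  have hNN : IsMat σ N' := fun i k => by
    rw [← hN i k, ← hN' i k]
    rfl
  have hone : ∀ (P : Matrix (Fin 3) (Fin 3) (RK j)) (r : Equiv.Perm (Fin 3)),
      (∀ i k, redK j (P i k) = if i = r k then 1 else 0) →
      (P.map (redK j)) * (P.map (redK j)).transpose = 1 ∧
      (P.map (redK j)).transpose * (P.map (redK j)) = 1 ∧ (r = 1 → P.map (redK j) = 1) := by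
    intro P r hP
    have h1 : (P.map (redK j)).transpose * (P.map (redK j)) = 1 := by
      ext i k
      rw [Matrix.mul_apply]
      have h2 : ∀ l, (P.map (redK j)).transpose i l * (P.map (redK j)) l k =
          if l = r i then (if i = k then 1 else 0) else 0 := by
        intro l
        rw [Matrix.transpose_apply, Matrix.map_apply, Matrix.map_apply, hP, hP]
        by_cases h3 : l = r i
        · subst h3
          rw [if_pos rfl, if_pos rfl, one_mul]
          by_cases h4 : i = k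
          · rw [if_pos h4, if_pos (by rw [h4])]
          · rw [if_neg h4, if_neg fun h5 => h4 (r.injective h5)]
        · rw [if_neg h3, if_neg h3, zero_mul]
      rw [Finset.sum_congr rfl fun l _ => h2 l, Finset.sum_ite_eq' Finset.univ (r i),
        if_pos (Finset.mem_univ _), Matrix.one_apply]
    refine ⟨mul_eq_one_comm.1 h1, h1, fun hr => ?_⟩
    ext i k
    rw [Matrix.map_apply, hP, hr, Matrix.one_apply]
    rfl
  obtain ⟨m1, m2, m3⟩ := hone M' p hp
  obtain ⟨n1, n2, n3⟩ := hone N' q hq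
  have hkey : ¬ (M'.map (redK j) = 1 ∨ N'.map (redK j) = 1 ∨
      M'.map (redK j) = N'.map (redK j)) := fun h =>
    crit_set (redK j) (redK_surj j) (alg_inj _) hMM hNN
      (Top_surj_of_unit (tel_unit_two (by decide) m1 m2 n1 n2 h)) A hA
  refine ⟨p, q, fun h => hkey (Or.inl (m3 h)), fun h => hkey (Or.inr (Or.inl (n3 h))),
    fun h => hkey (Or.inr (Or.inr ?_)), fun i k => ⟨?_, ?_, ?_, ?_⟩⟩
  · ext i k
    rw [Matrix.map_apply, Matrix.map_apply, hp, hq, h]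
  · rw [← hM' i k]
    exact (M' i k).2
  · rw [← hN' i k]
    exact (N' i k).2
  · rw [← hM' i k, ← redK_one_iff, hp]
    by_cases h1 : i = p k
    · rw [if_pos h1]
      exact ⟨fun _ => h1, fun _ => rfl⟩
    · rw [if_neg h1]
      exact ⟨fun h => absurd h (by decide), fun h => absurd h h1⟩
  · rw [← hN' i k, ← redK_one_iff, hq]
    by_cases h1 : i = q k
    · rw [if_pos h1]
      exact ⟨fun _ => h1, fun _ => rfl⟩
    · rw [if_neg h1]
      exact ⟨fun h => absurd h (by decide), fun h => absurd h h1⟩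

end

end Pool.Agent.Lib.MP_fdbf44_an
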